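import Pool.Agent.J6H82.CIQ.Dim

/-!
# Hilbert functions of complete intersections of dimension zero and one
-/

set_option autoImplicit false

namespace Pool.Agent.J6H82.CIQ

open MvPolynomial Module Pool.Agent.TH144.MB

variable {σ : Type} {K : Type} [Field K]

/-- `1 + X + … + X ^ (d - 1)` -/
noncomputable def geo (d : ℕ) : Polynomial ℤ := ∑ i ∈ Finset.range d, Polynomial.X ^ i

/-- the product of the `geo d` -/
noncomputable def pol (ds : List ℕ) : Polynomial ℤ := (ds.map geo).prod

theorem geo_mul (d : ℕ) : (1 - PowerSeries.X : PowerSeries ℤ) * (geo d : PowerSeries ℤ) =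
    1 - PowerSeries.X ^ d := by
  have h : (1 - Polynomial.X : Polynomial ℤ) * geo d = 1 - Polynomial.X ^ d := by
    have := mul_geom_sum (Polynomial.X : Polynomial ℤ) d
    unfold geo
    linear_combination -this
  have h2 := congrArg (fun p : Polynomial ℤ => (p : PowerSeries ℤ)) h
  simpa using h2

theorem pol_mul (ds : List ℕ) :
    (1 - PowerSeries.X : PowerSeries ℤ) ^ ds.length * (pol ds : PowerSeries ℤ) =
      (ds.map fun d => (1 - PowerSeries.X ^ d : PowerSeries ℤ)).prod := by
  induction ds with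
  | nil => simp [pol]
  | cons d ds ih =>
    rw [List.map_cons, List.prod_cons, ← ih, ← geo_mul, List.length_cons, pow_succ]
    have : pol (d :: ds) = geo d * pol ds := by simp [pol]
    rw [this, Polynomial.coe_mul]
    ring

theorem pol_natDegree (ds : List ℕ) : (pol ds).natDegree ≤ (ds.map fun d => d - 1).sum := by
  induction ds with
  | nil => simp [pol]
  | cons d ds ih =>
    have : pol (d :: ds) = geo d * pol ds := by simp [pol]
    rw [this, List.map_cons, List.sum_cons]
    refine Polynomial.natDegree_mul_le.trans (Nat.add_le_add ?_ ih)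
    unfold geo
    refine Polynomial.natDegree_sum_le_of_forall_le _ _ fun i hi => ?_
    rw [Polynomial.natDegree_X_pow]
    have := Finset.mem_range.1 hi
    omega

theorem pol_eval (ds : List ℕ) : (pol ds).eval 1 = (ds.prod : ℤ) := by
  induction ds with
  | nil => simp [pol]
  | cons d ds ih =>
    have : pol (d :: ds) = geo d * pol ds := by simp [pol]
    rw [this, Polynomial.eval_mul, ih, List.prod_cons]
    simp [geo, Polynomial.eval_finsetSum]

theorem geo_deriv (d : ℕ) (hd : 0 < d) :
    2 * (geo d).derivative.eval 1 = ((d - 1 : ℕ) : ℤ) * d := by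
  obtain ⟨d, rfl⟩ : ∃ k, d = k + 1 := ⟨d - 1, by omega⟩
  rw [Nat.add_sub_cancel]
  have h : (geo (d + 1)).derivative.eval 1 = ∑ i ∈ Finset.range (d + 1), (i : ℤ) := by
    unfold geo
    rw [Polynomial.derivative_sum, Polynomial.eval_finsetSum]
    exact Finset.sum_congr rfl fun i _ => by
      rw [Polynomial.derivative_X_pow]
      simp
  rw [h]
  have h2 := Finset.sum_range_id_mul_two (d + 1)
  have h3 : ((∑ i ∈ Finset.range (d + 1), i : ℕ) : ℤ) * 2 = ((d + 1 : ℕ) : ℤ) * d := by
    have := congrArg (fun n : ℕ => (n : ℤ)) h2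
    simpa using this
  push_cast at h3 ⊢
  linarith

theorem pol_deriv (ds : List ℕ) (hd : ∀ d ∈ ds, 0 < d) :
    2 * (pol ds).derivative.eval 1 = (((ds.map fun d => d - 1).sum : ℕ) : ℤ) * (ds.prod : ℤ) := by
  induction ds with
  | nil => simp [pol]
  | cons d ds ih =>
    have : pol (d :: ds) = geo d * pol ds := by simp [pol]
    have h1 := ih fun x hx => hd x (by simp [hx])
    have h2 := geo_deriv d (hd d (by simp))
    have h3 : (geo d).eval 1 = (d : ℤ) := by simp [geo, Polynomial.eval_finsetSum]
    rw [this, Polynomial.derivative_mul, Polynomial.eval_add, Polynomial.eval_mul,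
      Polynomial.eval_mul, pol_eval, h3, List.map_cons, List.sum_cons, List.prod_cons]
    rw [Nat.cast_add, Nat.cast_mul]
    linear_combination (ds.prod : ℤ) * h2 + (d : ℤ) * h1

theorem sum_coeff (P : Polynomial ℤ) {n : ℕ} (h : P.natDegree ≤ n) :
    ∑ q ∈ Finset.range (n + 1), P.coeff q = P.eval 1 := by
  rw [Polynomial.eval_eq_sum_range' (Nat.lt_succ_of_le h)]
  simp

theorem sum_coeff' (P : Polynomial ℤ) {n : ℕ} (h : P.natDegree ≤ n) :
    ∑ q ∈ Finset.range (n + 1), (q : ℤ) * P.coeff q = P.derivative.eval 1 := by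
  rw [Polynomial.derivative_eval, Polynomial.sum_over_range' _ (by simp) (n + 1)
    (Nat.lt_succ_of_le h)]
  exact Finset.sum_congr rfl fun q _ => by rw [one_pow, mul_one, mul_comm]

/-- The Hilbert series of an Artinian complete intersection. -/
theorem HS_square [Fintype σ] [IsAlgClosed K] (fs : List (MvPolynomial σ K × ℕ))
    (ls : List (σ → K)) (hfs : ∀ x ∈ fs, x.1.IsHomogeneous x.2 ∧ 0 < x.2)
    (hlen : ls.length + fs.length = Fintype.card σ)
    (hv : ∀ v : σ → K, (∀ a ∈ ls, eval v (lin a) = 0) → (∀ x ∈ fs, eval v x.1 = 0) → v = 0) :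
    HS (Pool.Agent.TH144.MB.ext ⊥ (ls.map lin ++ fs.map Prod.fst)) =
      (pol (fs.map Prod.snd) : PowerSeries ℤ) := by
  obtain ⟨h1, -⟩ := square fs ls hfs hlen hv
  set gs : List (MvPolynomial σ K × ℕ) := ls.map (fun a => (lin a, 1)) ++ fs with hgs
  have h2 : gs.map Prod.fst = ls.map lin ++ fs.map Prod.fst := by
    rw [hgs, List.map_append, List.map_map]
    rfl
  rw [← h2] at h1 ⊢
  have h3 := HS_ext gs ⊥ hom_bot (by
    intro x hx
    rw [hgs, List.mem_append, List.mem_map] at hx
    rcases hx with ⟨a, _, rfl⟩ | hx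
    · exact lin_hom a
    · exact (hfs x hx).1) h1
  have h4 : (gs.map fun x => (1 - PowerSeries.X ^ x.2 : PowerSeries ℤ)).prod =
      (1 - PowerSeries.X) ^ ls.length * ((1 - PowerSeries.X : PowerSeries ℤ) ^ fs.length *
        (pol (fs.map Prod.snd) : PowerSeries ℤ)) := by
    have h5 := pol_mul (fs.map Prod.snd)
    rw [List.length_map, List.map_map] at h5
    rw [h5, hgs, List.map_append, List.prod_append, List.map_map]
    congr 1
    have : ((fun x : MvPolynomial σ K × ℕ => (1 - PowerSeries.X ^ x.2 : PowerSeries ℤ)) ∘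
        fun a : σ → K => (lin a, 1)) = fun _ => 1 - PowerSeries.X := by
      funext i
      simp
    rw [this, List.map_const', List.prod_replicate]
  have h6 := HS_bot (σ := σ) (K := K)
  rw [← hlen] at h6
  have h7 : (1 - PowerSeries.X : PowerSeries ℤ) ≠ 0 := by
    intro h
    have := congrArg (PowerSeries.coeff 0) h
    simp at this
  rw [h3, h4]
  calc _ = (pol (fs.map Prod.snd) : PowerSeries ℤ) * ((1 - PowerSeries.X : PowerSeries ℤ) ^
        (ls.length + fs.length) * HS (⊥ : Ideal (MvPolynomial σ K))) := by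
        rw [pow_add]; ring
    _ = _ := by rw [h6, mul_one]

/-- Hilbert functions of complete intersections of dimension zero and one. -/
theorem dims [Finite σ] {A : Ideal (MvPolynomial σ K)} (hA : Hom A) {l l' : MvPolynomial σ K}
    (hl : l.IsHomogeneous 1) (hl' : l'.IsHomogeneous 1) (h1 : NZ l A)
    (h2 : NZ l' (A ⊔ Ideal.span {l})) {ds : List ℕ} (hd : ∀ d ∈ ds, 0 < d)
    (hE : HS (A ⊔ Ideal.span {l} ⊔ Ideal.span {l'}) = (pol ds : PowerSeries ℤ)) {s : ℕ}
    (hs : (ds.map fun d => d - 1).sum ≤ s) :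
    (finrank K (W (A ⊔ Ideal.span {l}) s) : ℤ) = ds.prod ∧
      2 * (finrank K (W A s) : ℤ) = ds.prod * (2 * (s + 1) - (((ds.map fun d => d - 1).sum : ℕ) : ℤ)) := by
  have he : ∀ q, (finrank K (W (A ⊔ Ideal.span {l} ⊔ Ideal.span {l'}) q) : ℤ) =
      (pol ds).coeff q := by
    intro q
    have := congrArg (PowerSeries.coeff q) hE
    simpa [HS] using this
  have hB := hom_sup hA hl
  have hb : ∀ s : ℕ, (finrank K (W (A ⊔ Ideal.span {l}) s) : ℤ) =
      ∑ q ∈ Finset.range (s + 1), (pol ds).coeff q := by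
    intro s
    induction s with
    | zero => rw [finrank_lt hB hl' one_pos, he]; simp
    | succ s ih =>
      rw [Finset.sum_range_succ, ← ih, ← he, add_comm s 1, finrank_exact hB hl' h2]
      push_cast
      ring
  have ha : ∀ s : ℕ, (finrank K (W A s) : ℤ) =
      ∑ q ∈ Finset.range (s + 1), ((s : ℤ) + 1 - q) * (pol ds).coeff q := by
    intro s
    induction s with
    | zero =>
      rw [finrank_lt hA hl one_pos, hb]
      simp
    | succ s ih =>
      rw [add_comm s 1, finrank_exact hA hl h1]
      push_cast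
      rw [ih, hb, add_comm 1 s, Finset.sum_range_succ _ (s + 1), Finset.sum_range_succ _ (s + 1),
        ← add_assoc, ← Finset.sum_add_distrib]
      congr 1
      · exact Finset.sum_congr rfl fun q _ => by ring
      · push_cast; ring
  have hdeg := (pol_natDegree ds).trans hs
  refine ⟨by rw [hb, sum_coeff _ hdeg, pol_eval], ?_⟩
  rw [ha]
  have h3 : ∑ q ∈ Finset.range (s + 1), ((s : ℤ) + 1 - q) * (pol ds).coeff q =
      (s + 1) * ∑ q ∈ Finset.range (s + 1), (pol ds).coeff q -
        ∑ q ∈ Finset.range (s + 1), (q : ℤ) * (pol ds).coeff q := by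
    rw [Finset.mul_sum, ← Finset.sum_sub_distrib]
    exact Finset.sum_congr rfl fun q _ => by ring
  rw [h3, sum_coeff _ hdeg, sum_coeff' _ hdeg, pol_eval]
  have h4 := pol_deriv ds hd
  linear_combination -h4

end Pool.Agent.J6H82.CIQ
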