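import Pool.Agent.TH144.MB.Top

/-!
# Hilbert functions of complete intersections
-/

set_option autoImplicit false

namespace Pool.Agent.J6H82.CIQ

open MvPolynomial Module Pool.Agent.TH144.MB

variable {σ : Type} {K : Type} [Field K]

/-- the exact sequence of a nonzerodivisor -/
theorem finrank_exact [Finite σ] {I : Ideal (MvPolynomial σ K)} (hI : Hom I)
    {f : MvPolynomial σ K} {d : ℕ} (hf : f.IsHomogeneous d) (h : NZ f I) (t : ℕ) :
    finrank K (W I (d + t)) =
      finrank K (W I t) + finrank K (W (I ⊔ Ideal.span {f}) (d + t)) := by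
  have h1 : ∀ x ∈ W I (d + t),
      (Ideal.Quotient.factorₐ K (le_sup_left : I ≤ I ⊔ Ideal.span {f})).toLinearMap x
        ∈ W (I ⊔ Ideal.span {f}) (d + t) := by
    intro x hx
    obtain ⟨p, hp, rfl⟩ := mem_W.1 hx
    exact mem_W.2 ⟨p, hp, rfl⟩
  set φ := (Ideal.Quotient.factorₐ K (le_sup_left : I ≤ I ⊔ Ideal.span {f})).toLinearMap.restrict h1
    with hφ
  have h2 := LinearMap.finrank_range_add_finrank_ker φ
  have h3 : LinearMap.range φ = ⊤ := by
    rw [LinearMap.range_eq_top]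
    rintro ⟨x, hx⟩
    obtain ⟨p, hp, rfl⟩ := mem_W.1 hx
    exact ⟨⟨_, mem_W.2 ⟨p, hp, rfl⟩⟩, Subtype.ext rfl⟩
  have h4 : (LinearMap.ker φ).map (W I (d + t)).subtype = (W I t).map (mu f I) := by
    apply le_antisymm
    · rintro _ ⟨⟨x, hx⟩, hk, rfl⟩
      obtain ⟨p, hp, rfl⟩ := mem_W.1 hx
      have h6 : Ideal.Quotient.mk (I ⊔ Ideal.span {f}) p = 0 := congrArg Subtype.val hk
      rw [Ideal.Quotient.eq_zero_iff_mem] at h6
      obtain ⟨q, hq, hpq⟩ := mem_sup_hom hI hf hp h6
      refine ⟨Ideal.Quotient.mk I q, mem_W.2 ⟨q, hq, rfl⟩, ?_⟩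
      rw [mu_mk, eq_comm]
      exact Ideal.Quotient.eq.2 hpq
    · rintro _ ⟨x, hx, rfl⟩
      obtain ⟨q, hq, rfl⟩ := mem_W.1 hx
      rw [mu_mk]
      refine ⟨⟨Ideal.Quotient.mk I (f * q), mem_W.2 ⟨_, hf.mul hq, rfl⟩⟩, ?_, rfl⟩
      show φ _ = 0
      refine Subtype.ext ?_
      show Ideal.Quotient.mk (I ⊔ Ideal.span {f}) (f * q) = 0
      rw [Ideal.Quotient.eq_zero_iff_mem]
      exact Ideal.mul_mem_right _ _ (Ideal.mem_sup_right (Ideal.mem_span_singleton_self f))
  have h5 : finrank K (LinearMap.ker φ) = finrank K (W I t) := by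
    rw [(Submodule.equivMapOfInjective _ (Submodule.injective_subtype _)
      (LinearMap.ker φ)).finrank_eq, h4]
    exact (Submodule.equivMapOfInjective (mu f I) h.inj (W I t)).finrank_eq.symm
  rw [h3, finrank_top, h5] at h2
  omega

theorem finrank_lt [Finite σ] {I : Ideal (MvPolynomial σ K)} (hI : Hom I)
    {f : MvPolynomial σ K} {d : ℕ} (hf : f.IsHomogeneous d) {t : ℕ} (ht : t < d) :
    finrank K (W I t) = finrank K (W (I ⊔ Ideal.span {f}) t) := by
  have h1 : ∀ x ∈ W I t,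
      (Ideal.Quotient.factorₐ K (le_sup_left : I ≤ I ⊔ Ideal.span {f})).toLinearMap x
        ∈ W (I ⊔ Ideal.span {f}) t := by
    intro x hx
    obtain ⟨p, hp, rfl⟩ := mem_W.1 hx
    exact mem_W.2 ⟨p, hp, rfl⟩
  refine (LinearEquiv.ofBijective ((Ideal.Quotient.factorₐ K
    (le_sup_left : I ≤ I ⊔ Ideal.span {f})).toLinearMap.restrict h1) ⟨?_, ?_⟩).finrank_eq
  · rw [← LinearMap.ker_eq_bot, LinearMap.ker_eq_bot']
    rintro ⟨x, hx⟩ hk
    obtain ⟨p, hp, rfl⟩ := mem_W.1 hx
    have h6 : Ideal.Quotient.mk (I ⊔ Ideal.span {f}) p = 0 := congrArg Subtype.val hk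
    rw [Ideal.Quotient.eq_zero_iff_mem] at h6
    refine Subtype.ext ?_
    exact Ideal.Quotient.eq_zero_iff_mem.2 (mem_of_lt hI hf hp ht h6)
  · rintro ⟨x, hx⟩
    obtain ⟨p, hp, rfl⟩ := mem_W.1 hx
    exact ⟨⟨_, mem_W.2 ⟨p, hp, rfl⟩⟩, Subtype.ext rfl⟩

/-- the Hilbert series -/
noncomputable def HS (I : Ideal (MvPolynomial σ K)) : PowerSeries ℤ :=
  PowerSeries.mk fun t => (finrank K (W I t) : ℤ)

theorem HS_sup [Finite σ] {I : Ideal (MvPolynomial σ K)} (hI : Hom I)
    {f : MvPolynomial σ K} {d : ℕ} (hf : f.IsHomogeneous d) (h : NZ f I) :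
    HS (I ⊔ Ideal.span {f}) = (1 - PowerSeries.X ^ d) * HS I := by
  ext t
  rw [sub_mul, one_mul, map_sub, PowerSeries.coeff_X_pow_mul']
  simp only [HS, PowerSeries.coeff_mk]
  split_ifs with hd
  · obtain ⟨u, rfl⟩ := Nat.exists_eq_add_of_le hd
    rw [finrank_exact hI hf h u, Nat.add_sub_cancel_left]
    push_cast
    ring
  · rw [finrank_lt hI hf (by omega)]
    ring

theorem HS_ext [Finite σ] (fs : List (MvPolynomial σ K × ℕ)) :
    ∀ I : Ideal (MvPolynomial σ K), Hom I → (∀ x ∈ fs, x.1.IsHomogeneous x.2) →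
      Reg I (fs.map Prod.fst) →
      HS (ext I (fs.map Prod.fst)) =
        (fs.map fun x => (1 - PowerSeries.X ^ x.2 : PowerSeries ℤ)).prod * HS I := by
  induction fs with
  | nil => intro I _ _ _; simp [Pool.Agent.TH144.MB.ext]
  | cons x fs ih =>
    intro I hI hfs h
    have hx := hfs x (by simp)
    simp only [List.map_cons] at h ⊢
    obtain ⟨h1, h2⟩ := h
    show HS (ext (I ⊔ Ideal.span {x.1}) (fs.map Prod.fst)) = _
    rw [ih _ (hom_sup hI hx) (fun y hy => hfs y (by simp [hy])) h2, HS_sup hI hx h1,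
      List.prod_cons]
    ring

theorem HS_top_of_X [Fintype σ] {I : Ideal (MvPolynomial σ K)}
    (h : ∀ i, (X i : MvPolynomial σ K) ∈ I) (h1 : (1 : MvPolynomial σ K) ∉ I) : HS I = 1 := by
  ext t
  simp only [HS, PowerSeries.coeff_mk]
  rw [PowerSeries.coeff_one]
  split_ifs with ht
  · subst ht
    have h2 : W I 0 = Submodule.span K {Ideal.Quotient.mk I 1} := by
      apply le_antisymm
      · intro x hx
        obtain ⟨p, hp, rfl⟩ := mem_W.1 hx
        have h3 : p = C (coeff 0 p) :=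
          totalDegree_eq_zero_iff_eq_C.1 (Nat.le_zero.1 hp.totalDegree_le)
        refine Submodule.mem_span_singleton.2 ⟨coeff 0 p, ?_⟩
        conv_rhs => rw [h3]
        show coeff 0 p • (Ideal.Quotient.mkₐ K I) 1 = (Ideal.Quotient.mkₐ K I) (C (coeff 0 p))
        rw [← map_smul, smul_eq_C_mul, mul_one]
      · rw [Submodule.span_singleton_le_iff_mem]
        exact mem_W.2 ⟨1, isHomogeneous_one _ _, rfl⟩
    rw [h2, finrank_span_singleton]
    · rfl
    · intro h3
      exact h1 (Ideal.Quotient.eq_zero_iff_mem.1 h3)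
  · have h2 : W I t = ⊥ := by
      rw [eq_bot_iff]
      intro x hx
      obtain ⟨p, hp, rfl⟩ := mem_W.1 hx
      rw [Submodule.mem_bot]
      exact Ideal.Quotient.eq_zero_iff_mem.2 (mem_of_X_mem h (by omega) hp)
    rw [h2, finrank_bot]
    rfl

theorem HS_bot [Fintype σ] : (1 - PowerSeries.X : PowerSeries ℤ) ^ Fintype.card σ *
    HS (⊥ : Ideal (MvPolynomial σ K)) = 1 := by
  classical
  have h1 := reg_X (K := K) (Finset.univ : Finset σ).toList ∅ (Finset.nodup_toList _) (by simp)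
  rw [Set.image_empty, Ideal.span_empty] at h1
  set fs : List (MvPolynomial σ K × ℕ) :=
    (Finset.univ : Finset σ).toList.map fun i => ((X i : MvPolynomial σ K), 1) with hfs
  have h2 : fs.map Prod.fst = (Finset.univ : Finset σ).toList.map (X : σ → MvPolynomial σ K) := by
    rw [hfs, List.map_map]
    rfl
  rw [← h2] at h1
  have h3 := HS_ext fs ⊥ hom_bot (by
    intro x hx
    rw [hfs, List.mem_map] at hx
    obtain ⟨i, _, rfl⟩ := hx
    exact isHomogeneous_X _ _) h1
  have h4 : (fs.map fun x => (1 - PowerSeries.X ^ x.2 : PowerSeries ℤ)).prod =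
      (1 - PowerSeries.X) ^ Fintype.card σ := by
    rw [hfs, List.map_map]
    have : ((fun x : MvPolynomial σ K × ℕ => (1 - PowerSeries.X ^ x.2 : PowerSeries ℤ)) ∘
        fun i : σ => ((X i : MvPolynomial σ K), 1)) = fun _ => 1 - PowerSeries.X := by
      funext i
      simp
    rw [this, List.map_const', List.prod_replicate, Finset.length_toList, Finset.card_univ]
  rw [h4] at h3
  rw [← h3]
  refine HS_top_of_X (fun i => ?_) ?_
  · have h5 : ∀ (L : List (MvPolynomial σ K)) (I : Ideal (MvPolynomial σ K)), ∀ f ∈ L,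
        f ∈ ext I L := by
      intro L
      induction L with
      | nil => intro I f hf; simp at hf
      | cons g L ih =>
        intro I f hf
        rw [ext_cons]
        rcases List.mem_cons.1 hf with rfl | hf
        · exact Ideal.mem_sup_right (Ideal.mem_span_singleton_self f)
        · exact Ideal.mem_sup_left (ih I f hf)
    refine h5 _ _ _ ?_
    rw [h2]
    exact List.mem_map_of_mem (by simp)
  · intro h5
    have h6 := (zero_ext (fs.map Prod.fst) (⊥ : Ideal (MvPolynomial σ K)) (0 : σ → K)).2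
      ⟨by simp, by
        intro f hf
        rw [h2, List.mem_map] at hf
        obtain ⟨i, _, rfl⟩ := hf
        simp⟩ 1 h5
    rw [map_one] at h6
    exact one_ne_zero h6

end Pool.Agent.J6H82.CIQ
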