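import Pool.Agent.J6H82.CIQ.Gen

/-!
# Finite coordinate sections
-/

set_option autoImplicit false

namespace Pool.Agent.J6H82.CIQ

open MvPolynomial Module Pool.Agent.TH144.MB

/-- a cone whose coordinate ring has bounded dimensions consists of finitely many lines -/
theorem finite_of_bounded {σ : Type} {K : Type} [Field K] [Fintype σ]
    {A : Ideal (MvPolynomial σ K)} {B : ℕ} (hB : ∀ t, finrank K (W A t) ≤ B) :
    {L : Submodule K (σ → K) | ∃ v, v ≠ 0 ∧ (∀ p ∈ A, eval v p = 0) ∧
      L = Submodule.span K {v}}.Finite := by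
  classical
  by_contra hinf
  obtain ⟨T, hT1, hT2⟩ := (show Set.Infinite _ from hinf).exists_subset_card_eq (B + 1)
  have h1 : ∀ L : T, ∃ v, v ≠ 0 ∧ (∀ p ∈ A, eval v p = 0) ∧ L.1 = Submodule.span K {v} :=
    fun L => hT1 L.2
  choose v hv0 hv hvL using h1
  have h2 : ∀ L L' : T, ∃ a : σ → K, L ≠ L' → eval (v L) (lin a) ≠ 0 ∧
      eval (v L') (lin a) = 0 := by
    intro L L'
    by_cases h : L = L'
    · exact ⟨0, fun h' => absurd h h'⟩
    · have h3 : v L ∉ Submodule.span K {v L'} := by
        intro h3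
        obtain ⟨b, hb⟩ := Submodule.mem_span_singleton.1 h3
        have hb0 : b ≠ 0 := by
          rintro rfl
          rw [zero_smul] at hb
          exact hv0 L hb.symm
        apply h
        apply Subtype.ext
        rw [hvL L, hvL L', ← hb]
        exact Submodule.span_singleton_smul_eq (IsUnit.mk0 b hb0) _
      obtain ⟨a, ha1, ha2⟩ := exists_lin_of_notMem h3
      exact ⟨a, fun _ => ⟨ha1, ha2 _ (Submodule.mem_span_singleton_self _)⟩⟩
  choose a ha using h2
  let F : T → MvPolynomial σ K := fun L => ∏ L' ∈ Finset.univ.erase L, lin (a L L')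
  have hcard : Fintype.card T = B + 1 := by rw [Fintype.card_coe, hT2]
  have hF : ∀ L, (F L).IsHomogeneous B := by
    intro L
    have h3 : (∏ L' ∈ Finset.univ.erase L, lin (a L L')).IsHomogeneous
        (∑ _L' ∈ Finset.univ.erase L, 1) :=
      IsHomogeneous.prod _ _ _ fun k _ => lin_hom _
    rw [Finset.sum_const, Finset.card_erase_of_mem (Finset.mem_univ L), Finset.card_univ, hcard,
      smul_eq_mul, mul_one, Nat.add_sub_cancel] at h3
    exact h3
  have hF0 : ∀ L k, L ≠ k → eval (v k) (F L) = 0 := by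
    intro L k hLk
    simp only [F, map_prod]
    exact Finset.prod_eq_zero (Finset.mem_erase.2 ⟨hLk.symm, Finset.mem_univ k⟩)
      (ha L k hLk).2
  have hF1 : ∀ L, eval (v L) (F L) ≠ 0 := by
    intro L
    simp only [F, map_prod]
    rw [Finset.prod_ne_zero_iff]
    intro k hk
    exact (ha L k (Finset.ne_of_mem_erase hk).symm).1
  have hli : LinearIndependent K (fun L : T =>
      (⟨Ideal.Quotient.mk A (F L), mem_W.2 ⟨_, hF L, rfl⟩⟩ : W A B)) := by
    rw [Fintype.linearIndependent_iff]
    intro g hg k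
    have h1 : ∑ L : T, C (g L) * F L ∈ A := by
      rw [← Ideal.Quotient.eq_zero_iff_mem, map_sum]
      have h2 := congrArg (Submodule.subtype (W A B)) hg
      rw [map_sum, map_zero] at h2
      rw [← h2]
      refine Finset.sum_congr rfl fun i _ => ?_
      rw [map_smul, Submodule.subtype_apply, ← smul_eq_C_mul]
      exact map_smul (Ideal.Quotient.mkₐ K A) (g i) (F i)
    have h4 := hv k _ h1
    rw [map_sum, Finset.sum_eq_single k] at h4
    · rw [map_mul, eval_C] at h4
      exact (mul_eq_zero.1 h4).resolve_right (hF1 k)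
    · intro L _ hL
      rw [map_mul, hF0 L k hL, mul_zero]
    · intro h
      exact absurd (Finset.mem_univ k) h
  have h6 := hli.fintype_card_le_finrank
  rw [hcard] at h6
  have := hB B
  omega

section
variable {n : ℕ} {I : Ideal (MvPolynomial (Fin n) ℂ)}

/-- a coordinate section is finite if it has no points on one of its coordinate hyperplanes -/
theorem finite_of_miss (hI : Hom I) {J : Finset (Fin n)} {a : Fin n}
    (h : ∀ v : Fin n → ℂ, v ≠ 0 → (∀ p ∈ I, eval v p = 0) → (∀ i, i ∉ J → v i = 0) → v a ≠ 0) :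
    (Ln I J).Finite := by
  classical
  set A := I ⊔ Ideal.span (X '' {i | i ∉ J}) with hA
  have hAh : Hom A := by rw [hA, coe_compl]; exact Hom_union hI _
  have hz : ∀ v : Fin n → ℂ, (∀ p ∈ A, eval v p = 0) ↔
      (∀ p ∈ I, eval v p = 0) ∧ ∀ i, i ∉ J → v i = 0 := by
    intro v
    constructor
    · intro h1
      refine ⟨fun p hp => h1 p (Ideal.mem_sup_left hp), fun i hi => ?_⟩
      have h2 := h1 (X i) (Ideal.mem_sup_right (Ideal.subset_span ⟨i, hi, rfl⟩))
      rwa [eval_X] at h2
    · rintro ⟨h1, h2⟩ p hp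
      have h3 : A ≤ RingHom.ker (eval v) := by
        refine sup_le (fun p hp => RingHom.mem_ker.2 (h1 p hp)) ?_
        rw [Ideal.span_le]
        rintro _ ⟨i, hi, rfl⟩
        refine RingHom.mem_ker.2 ?_
        rw [eval_X]
        exact h2 i hi
      exact RingHom.mem_ker.1 (h3 hp)
  obtain ⟨T, hT⟩ := exists_top (I := A ⊔ Ideal.span {X a}) (by
    intro v hv
    by_contra hv0
    obtain ⟨h1, h2⟩ := (hz v).1 fun p hp => hv p (Ideal.mem_sup_left hp)
    have h3 := hv (X a) (Ideal.mem_sup_right (Ideal.mem_span_singleton_self _))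
    rw [eval_X] at h3
    exact h v hv0 h1 h2 h3)
  obtain ⟨B, hB⟩ := bounded hAh one_pos (isHomogeneous_X ℂ a) hT
  refine (finite_of_bounded hB).subset ?_
  rintro L ⟨v, hv0, hv, hvJ, rfl⟩
  exact ⟨v, hv0, (hz v).2 ⟨hv, hvJ⟩, rfl⟩

/-- small coordinate sections are finite if there are no points with few nonzero coordinates -/
theorem finite_small (hI : Hom I) {k : ℕ}
    (h : ∀ v : Fin n → ℂ, v ≠ 0 → (∀ p ∈ I, eval v p = 0) → k < {i | v i ≠ 0}.ncard)
    {J : Finset (Fin n)} (hJ : J.card ≤ k + 1) : (Ln I J).Finite := by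
  classical
  rcases J.eq_empty_or_nonempty with rfl | ⟨a, ha⟩
  · refine Set.Finite.subset Set.finite_empty ?_
    rintro L ⟨v, hv0, -, hvJ, -⟩
    exact absurd (funext fun i => hvJ i (Finset.notMem_empty i)) hv0
  · refine finite_of_miss hI (a := a) fun v hv0 hv hvJ hva => ?_
    have h1 := h v hv0 hv
    have h2 : {i | v i ≠ 0} ⊆ ((J.erase a : Finset (Fin n)) : Set (Fin n)) := by
      intro i hi
      rw [Finset.mem_coe, Finset.mem_erase]
      refine ⟨?_, ?_⟩
      · rintro rfl
        exact hi hva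
      · by_contra h3
        exact hi (hvJ i h3)
    have h3 := Set.ncard_le_ncard h2 (Set.toFinite _)
    rw [Set.ncard_coe_finset, Finset.card_erase_of_mem ha] at h3
    omega

end

end Pool.Agent.J6H82.CIQ
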