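import Pool.Agent.J6H82.CIQ.Sep

/-!
# Points with at most two nonzero coordinates, and the theorem for free diagonal actions
-/

set_option autoImplicit false

namespace Pool.Agent.J6H82.CIQ

open MvPolynomial Module Pool.Agent.TH144.MB

section
variable {G : Type} [Group G] [Fintype G] {n : ℕ}

/-- the order of the group if some point has at most two nonzero coordinates -/
theorem card_le_two (S : Sit ℂ G n) {ρ : ℕ} (hρ : TopBound S.I ρ) {v : Fin n → ℂ} (hv0 : v ≠ 0)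
    (hv : ∀ p ∈ S.I, eval v p = 0) (h2 : {i | v i ≠ 0}.ncard ≤ 2) :
    Fintype.card G ≤ ρ + 1 := by
  classical
  by_cases hG : ∀ g : G, g = 1
  · have h1 : Fintype.card G ≤ 1 := Fintype.card_le_one_iff.2 fun a b => by rw [hG a, hG b]
    omega
  push Not at hG
  obtain ⟨g, hg⟩ := hG
  have hne : ∀ k : Fin n, ∃ p ∈ S.I, eval (Pi.single k (1 : ℂ)) p ≠ 0 := by
    intro k
    by_contra hk
    push Not at hk
    refine hg (S.free (Pi.single k 1) ?_ hk g (S.α k g : ℂ) fun l => ?_)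
    · intro h
      have := congrFun h k
      simp at this
    · by_cases hl : l = k
      · rw [hl]
      · rw [Pi.single_eq_of_ne hl, mul_zero, mul_zero]
  obtain ⟨i, hi⟩ : ∃ i, v i ≠ 0 := by
    by_contra hc
    push Not at hc
    exact hv0 (funext hc)
  obtain ⟨j, hj, hij⟩ : ∃ j, v j ≠ 0 ∧ i ≠ j := by
    by_contra hc
    push Not at hc
    obtain ⟨p, hp, hp1⟩ := hne i
    apply hp1
    have h3 := cone S.hom hv (v i)⁻¹ p hp
    have h4 : (fun k => (v i)⁻¹ * v k) = Pi.single i (1 : ℂ) := by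
      funext k
      by_cases hk : k = i
      · rw [hk, Pi.single_eq_same, inv_mul_cancel₀ hi]
      · rw [Pi.single_eq_of_ne hk]
        have h5 : v k = 0 := by
          by_contra h6
          exact hk (hc k h6).symm
        rw [h5, mul_zero]
    rwa [h4] at h3
  have hk : ∀ k, k ≠ i → k ≠ j → v k = 0 := by
    intro k hki hkj
    by_contra hvk
    have h3 : (({i, j, k} : Finset (Fin n)) : Set (Fin n)) ⊆ {i | v i ≠ 0} := by
      intro l hl
      simp only [Finset.coe_insert, Finset.coe_singleton, Set.mem_insert_iff,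
        Set.mem_singleton_iff] at hl
      rcases hl with rfl | rfl | rfl
      · exact hi
      · exact hj
      · exact hvk
    have h4 := Set.ncard_le_ncard h3 (Set.toFinite _)
    rw [Set.ncard_coe_finset, Finset.card_eq_three.2 ⟨i, j, k, hij, hki.symm, hkj.symm, rfl⟩] at h4
    omega
  have hb0 : (Pi.single j (1 : ℂ) : Fin n → ℂ) ≠ 0 := by
    intro h
    have := congrFun h j
    simp at this
  have h1 := line_bound (e := 1) S.hom hρ (y0 := Pi.single i 1) (b0 := Pi.single j 1) hb0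
    (hne j) (by
      intro h
      obtain ⟨c, hc⟩ := Submodule.mem_span_singleton.1 h
      have := congrFun hc i
      simp [hij] at this) (ι := G) (fun g => mv S.α g v) (by
      intro g
      refine Submodule.mem_span_pair.2 ⟨(S.α i g : ℂ) * v i, (S.α j g : ℂ) * v j, ?_⟩
      funext k
      simp only [mv, Pi.add_apply, Pi.smul_apply, smul_eq_mul]
      by_cases hki : k = i
      · subst hki
        rw [Pi.single_eq_same, Pi.single_eq_of_ne hij]
        ring
      · by_cases hkj : k = j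
        · subst hkj
          rw [Pi.single_eq_same, Pi.single_eq_of_ne hki]
          ring
        · rw [Pi.single_eq_of_ne hki, Pi.single_eq_of_ne hkj, hk k hki hkj]
          ring)
    (fun g h => hv0 (funext fun k => (mv_supp S.α g v k).1 (congrFun h k)))
    (fun g => S.stable v hv g) (fun g g' hgg => (S.fr hv0 hv).notMem hgg) (Or.inl rfl)
  omega

variable {S : Sit ℂ G n} {c : ℕ} {f : Fin c → MvPolynomial (Fin n) ℂ} {d : Fin c → ℕ}

/-- the condition for very ampleness in degree `e` -/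
def Cases (S : Sit ℂ G n) (c : ℕ) (d : Fin c → ℕ) (e : ℕ) : Prop :=
  c ≤ 2 ∨ (∀ v : Fin n → ℂ, v ≠ 0 → (∀ p ∈ S.I, eval v p = 0) →
    {i | v i ≠ 0}.ncard ≤ 2 ∨ c < {i | v i ≠ 0}.ncard) ∨
  ∃ D, (∀ j, d j ≤ D) ∧ (c * (D - 1) + 1 ≤ e ∨ ∑ j, (d j - 1) + D ≤ e)

theorem cases_cond {e : ℕ} (h : Cases S c d e)
    (h2 : ∀ v : Fin n → ℂ, v ≠ 0 → (∀ p ∈ S.I, eval v p = 0) → ¬ {i | v i ≠ 0}.ncard ≤ 2)
    (y : Fin n → ℂ) : Cond S c d e y := by
  rcases h with h | h | h
  · left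
    intro v hv0 hv _
    have := h2 v hv0 hv
    omega
  · left
    intro v hv0 hv _
    exact (h v hv0 hv).resolve_left (h2 v hv0 hv)
  · exact Or.inr h

theorem sit_points (hf : ∀ j, (f j).IsHomogeneous (d j)) (hd : ∀ j, 0 < d j)
    (hI : S.I = Ideal.span (Set.range f)) (hst : ∀ g, ∀ p ∈ S.I, act S.α g p ∈ S.I)
    {e : ℕ} (he : ∑ j, (d j - 1) + 1 ≤ e) (hcase : Cases S c d e) {y y' : Fin n → ℂ} (hy0 : y ≠ 0)
    (hy : ∀ p ∈ S.I, eval y p = 0) (hy'0 : y' ≠ 0) (hy' : ∀ p ∈ S.I, eval y' p = 0)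
    (hne : ∀ g, mv S.α g y' ∉ Submodule.span ℂ {y}) (χ : G →* ℂˣ) :
    ∃ F, Typ S.α χ e F ∧ eval y F ≠ 0 ∧ eval y' F = 0 := by
  have E := eqs_of hf hd hI hst
  by_cases h2 : ∃ v : Fin n → ℂ, v ≠ 0 ∧ (∀ p ∈ S.I, eval v p = 0) ∧ {i | v i ≠ 0}.ncard ≤ 2
  · obtain ⟨v, hv0, hv, hv2⟩ := h2
    exact S.points E.top hy0 hy hy'0 hy' hne χ he ((card_le_two S E.top hv0 hv hv2).trans he)
  · push Not at h2
    exact E.points hy0 hy hy'0 hy' hne χ he
      (cases_cond hcase (fun v hv0 hv => not_le.2 (h2 v hv0 hv)) y)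

theorem sit_tangents (hf : ∀ j, (f j).IsHomogeneous (d j)) (hd : ∀ j, 0 < d j)
    (hI : S.I = Ideal.span (Set.range f)) (hst : ∀ g, ∀ p ∈ S.I, act S.α g p ∈ S.I)
    {e : ℕ} (he : ∑ j, (d j - 1) + 1 ≤ e) (hcase : Cases S c d e) {y u : Fin n → ℂ} (hy0 : y ≠ 0)
    (hy : ∀ p ∈ S.I, eval y p = 0) (hu : ∀ p ∈ S.I, dv p y u = 0)
    (hne : u ∉ Submodule.span ℂ {y}) (χ : G →* ℂˣ) :
    ∃ F, Typ S.α χ e F ∧ eval y F = 0 ∧ dv F y u ≠ 0 := by
  have E := eqs_of hf hd hI hst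
  by_cases h2 : ∃ v : Fin n → ℂ, v ≠ 0 ∧ (∀ p ∈ S.I, eval v p = 0) ∧ {i | v i ≠ 0}.ncard ≤ 2
  · obtain ⟨v, hv0, hv, hv2⟩ := h2
    exact S.tangents hst E.top hy0 hy hu hne χ he ((card_le_two S E.top hv0 hv hv2).trans he)
  · push Not at h2
    exact E.tangents hy0 hy hu hne χ he
      (cases_cond hcase (fun v hv0 hv => not_le.2 (h2 v hv0 hv)) y)

end

end Pool.Agent.J6H82.CIQ
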