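import Pool.Agent.J6H82.CIQ.Gen
import Pool.Agent.J6H82.CIQ.Two

/-!
# Separation on finite coordinate sections
-/

set_option autoImplicit false

namespace Pool.Agent.J6H82.CIQ

open MvPolynomial Module Pool.Agent.TH144.MB

section
variable {n : ℕ}

/-- the linear form `l` does not vanish at the points of the zero set of `I` which vanish where
`y` vanishes -/
def Av (I : Ideal (MvPolynomial (Fin n) ℂ)) (y l : Fin n → ℂ) : Prop :=
  ∀ v : Fin n → ℂ, v ≠ 0 → (∀ p ∈ I, eval v p = 0) → (∀ i, y i = 0 → v i = 0) →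
    eval v (lin l) ≠ 0

theorem reduce {I : Ideal (MvPolynomial (Fin n) ℂ)} (hI : Hom I) {ρ : ℕ} (hρ : TopBound I ρ)
    {y l : Fin n → ℂ} (hy0 : y ≠ 0) (hl : Av I y l) {e : ℕ} (he : ρ ≤ e) (k : ℕ) :
    ∀ p : MvPolynomial (Fin n) ℂ, p.IsHomogeneous (e + k) → ∃ q : MvPolynomial (Fin n) ℂ,
      q.IsHomogeneous e ∧ p - lin l ^ k * q ∈ I ⊔ Ideal.span (X '' {i | y i = 0}) := by
  classical
  induction k with
  | zero =>
    intro p hp
    exact ⟨p, hp, by rw [pow_zero, one_mul, sub_self]; exact Ideal.zero_mem _⟩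
  | succ k ih =>
    intro p hp
    obtain ⟨i0, hi0⟩ : ∃ i, y i ≠ 0 := by
      by_contra hc
      push Not at hc
      exact hy0 (funext hc)
    let L : Fin n → Fin n → ℂ := fun i => if y i = 0 then Pi.single i 1 else l
    have hlin : ∀ i : Fin n, lin (Pi.single i 1) = (X i : MvPolynomial (Fin n) ℂ) :=
      fun i => lin_single' i
    have hv : ∀ v : Fin n → ℂ, (∀ p ∈ I, eval v p = 0) → (∀ i, eval v (lin (L i)) = 0) →
        v = 0 := by
      intro v hv1 hv2
      by_contra hv0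
      refine hl v hv0 hv1 (fun i hi => ?_) ?_
      · have h3 := hv2 i
        simp only [L, if_pos hi, hlin, eval_X] at h3
        exact h3
      · have h3 := hv2 i0
        simp only [L, if_neg hi0] at h3
        exact h3
    have hle : I ⊔ Ideal.span (Set.range fun i => lin (L i)) ≤
        I ⊔ Ideal.span (X '' {i | y i = 0}) ⊔ Ideal.span {lin l} := by
      refine sup_le (le_sup_left.trans le_sup_left) ?_
      rw [Ideal.span_le]
      rintro _ ⟨i, rfl⟩
      by_cases hi : y i = 0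
      · simp only [L, if_pos hi, hlin]
        exact Ideal.mem_sup_left (Ideal.mem_sup_right (Ideal.subset_span ⟨i, hi, rfl⟩))
      · simp only [L, if_neg hi]
        exact Ideal.mem_sup_right (Ideal.mem_span_singleton_self _)
    have hp' : p.IsHomogeneous (1 + (e + k)) := by
      rwa [show 1 + (e + k) = e + (k + 1) by omega]
    obtain ⟨q1, hq1, h1⟩ := mem_sup_hom (Hom1 hI y) (lin_hom l) hp'
      (hle (hρ n L hv (1 + (e + k)) (by omega) p hp'))
    obtain ⟨q, hq, h2⟩ := ih q1 hq1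
    refine ⟨q, hq, ?_⟩
    have h3 : p - lin l ^ (k + 1) * q = (p - lin l * q1) + lin l * (q1 - lin l ^ k * q) := by
      ring
    rw [h3]
    exact Ideal.add_mem _ h1 (Ideal.mul_mem_left _ _ h2)

theorem ker2 {I : Ideal (MvPolynomial (Fin n) ℂ)} {y z : Fin n → ℂ}
    (hz : ∀ p ∈ I, eval z p = 0) (hzy : ∀ i, y i = 0 → z i = 0) :
    ∀ p ∈ I ⊔ Ideal.span (X '' {i | y i = 0}), eval z p = 0 := by
  intro p hp
  have h2 : I ⊔ Ideal.span (X '' {i | y i = 0}) ≤ RingHom.ker (eval z) := by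
    refine sup_le (fun p hp => RingHom.mem_ker.2 (hz p hp)) ?_
    rw [Ideal.span_le]
    rintro _ ⟨i, hi, rfl⟩
    refine RingHom.mem_ker.2 ?_
    rw [eval_X]
    exact hzy i hi
  exact RingHom.mem_ker.1 (h2 hp)

end

section
variable {G : Type} [Group G] [Fintype G] {n : ℕ} (S : Sit ℂ G n)

theorem mv_ne_zero (α : Fin n → G →* ℂˣ) (g : G) {v : Fin n → ℂ} (hv : v ≠ 0) :
    mv α g v ≠ 0 := fun h => hv (funext fun i => (mv_supp α g v i).1 (congrFun h i))

/-- linear forms which vanish at the translates of `y`, and not at `y` -/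
theorem exists_L {y : Fin n → ℂ} (hy0 : y ≠ 0) (hy : ∀ p ∈ S.I, eval y p = 0) (g : G) :
    ∃ L : MvPolynomial (Fin n) ℂ, L.IsHomogeneous 1 ∧ eval y L ≠ 0 ∧
      (g ≠ 1 → eval (mv S.α g y) L = 0) := by
  by_cases hg : g = 1
  · obtain ⟨a, ha⟩ := exists_avoid {y} fun v hv => by rwa [Finset.mem_singleton.1 hv]
    exact ⟨lin a, lin_hom a, ha y (Finset.mem_singleton_self y), fun h => absurd hg h⟩
  · have h1 := (S.fr hy0 hy).notMem (g := g) (g' := 1) hg
    rw [mv_one] at h1
    obtain ⟨a, ha1, ha2⟩ := exists_lin_of_notMem h1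
    exact ⟨lin a, lin_hom a, ha1, fun _ => ha2 _ (Submodule.mem_span_singleton_self _)⟩

/-- points on a finite coordinate section -/
theorem fin_points {ρ : ℕ} (hρ : TopBound S.I ρ) {y y' l : Fin n → ℂ} (hy0 : y ≠ 0)
    (hy : ∀ p ∈ S.I, eval y p = 0) (hy' : ∀ p ∈ S.I, eval y' p = 0)
    (hs : ∀ i, y' i = 0 ↔ y i = 0) (hne : ∀ g, mv S.α g y' ∉ Submodule.span ℂ {y})
    (hl : Av S.I y l) (χ : G →* ℂˣ) {e : ℕ} (he : ρ ≤ e) :
    ∃ F, Typ S.α χ e F ∧ eval y F ≠ 0 ∧ eval y' F = 0 := by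
  classical
  have hL : ∀ g : G, ∃ L : MvPolynomial (Fin n) ℂ, L.IsHomogeneous 1 ∧
      eval y L ≠ 0 ∧ eval (mv S.α g y') L = 0 := by
    intro g
    have h1 : y ∉ Submodule.span ℂ {mv S.α g y'} := by
      intro h1
      obtain ⟨b, hb⟩ := Submodule.mem_span_singleton.1 h1
      have hb0 : b ≠ 0 := by
        rintro rfl
        rw [zero_smul] at hb
        exact hy0 hb.symm
      refine hne g (Submodule.mem_span_singleton.2 ⟨b⁻¹, ?_⟩)
      rw [← hb, smul_smul, inv_mul_cancel₀ hb0, one_smul]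
    obtain ⟨a, ha1, ha2⟩ := exists_lin_of_notMem h1
    exact ⟨lin a, lin_hom a, ha1, ha2 _ (Submodule.mem_span_singleton_self _)⟩
  choose L hL1 hL2 hL3 using hL
  choose L' hL1' hL2' hL3' using exists_L S hy0 hy
  set k := Fintype.card G + Fintype.card G with hk
  set F : MvPolynomial (Fin n) ℂ := lin l ^ e * ((∏ g, L g) * ∏ g, L' g) with hF
  have hprod : ∀ N : G → MvPolynomial (Fin n) ℂ, (∀ g, (N g).IsHomogeneous 1) →
      (∏ g, N g).IsHomogeneous (Fintype.card G) := by
    intro N hN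
    have h1 := IsHomogeneous.prod Finset.univ N (fun _ => 1) fun g _ => hN g
    rwa [Finset.sum_const, smul_eq_mul, mul_one, Finset.card_univ] at h1
  have hFh : F.IsHomogeneous (e + k) := by
    have h1 := ((lin_hom l).pow e).mul ((hprod L hL1).mul (hprod L' hL1'))
    rwa [one_mul] at h1
  obtain ⟨q, hq, hFq⟩ := reduce S.hom hρ hy0 hl he k F hFh
  -- the values at the points of the section
  have hval : ∀ z : Fin n → ℂ, z ≠ 0 → (∀ p ∈ S.I, eval z p = 0) → (∀ i, y i = 0 → z i = 0) →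
      (eval z q = 0 ↔ eval z ((∏ g, L g) * ∏ g, L' g) = 0) := by
    intro z hz0 hz hzy
    have h1 := ker2 hz hzy _ hFq
    have h2 := hl z hz0 hz hzy
    rw [map_sub, sub_eq_zero, hF, map_mul, map_mul (eval z) (lin l ^ k), map_pow, map_pow] at h1
    constructor
    · intro h3
      rw [h3, mul_zero] at h1
      exact (mul_eq_zero.1 h1).resolve_left (pow_ne_zero _ h2)
    · intro h3
      rw [h3, mul_zero] at h1
      exact (mul_eq_zero.1 h1.symm).resolve_left (pow_ne_zero _ h2)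
  have hy'0 : y' ≠ 0 := by
    rintro rfl
    exact hy0 (funext fun i => (hs i).1 rfl)
  have h1 : eval y q ≠ 0 := by
    intro h
    have h2 := (hval y hy0 hy fun _ h => h).1 h
    rw [map_mul, map_prod, map_prod] at h2
    rcases mul_eq_zero.1 h2 with h3 | h3
    · obtain ⟨g, -, hg⟩ := Finset.prod_eq_zero_iff.1 h3
      exact hL2 g hg
    · obtain ⟨g, -, hg⟩ := Finset.prod_eq_zero_iff.1 h3
      exact hL2' g hg
  have h2 : ∀ g, g ≠ 1 → eval (mv S.α g y) q = 0 := by
    intro g hg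
    refine (hval _ (mv_ne_zero S.α g hy0) (S.stable y hy g)
      fun i hi => (mv_supp S.α g y i).2 hi).2 ?_
    have h5 : eval (mv S.α g y) (∏ g, L' g) = 0 := by
      rw [map_prod, Finset.prod_eq_zero (Finset.mem_univ g) (hL3' g hg)]
    rw [map_mul, h5, mul_zero]
  have h3 : ∀ g, eval (mv S.α g y') q = 0 := by
    intro g
    refine (hval _ (mv_ne_zero S.α g hy'0) (S.stable y' hy' g)
      fun i hi => (mv_supp S.α g y' i).2 ((hs i).2 hi)).2 ?_
    rw [map_mul, map_prod, Finset.prod_eq_zero (Finset.mem_univ g) (hL3 g), zero_mul]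
  obtain ⟨F', hF', h4⟩ := exists_typ S.α χ hq
  have hc : (Fintype.card G : ℂ) ≠ 0 := Nat.cast_ne_zero.2 Fintype.card_ne_zero
  refine ⟨F', hF', ?_, ?_⟩
  · intro h5
    have h6 := h4 y
    rw [h5, mul_zero] at h6
    unfold Lam at h6
    rw [Finset.sum_eq_single 1] at h6
    · rw [mv_one] at h6
      rcases mul_eq_zero.1 h6 with h7 | h7
      · exact (Units.ne_zero _) h7
      · exact h1 h7
    · intro g _ hg
      rw [h2 g hg, mul_zero]
    · intro h; exact absurd (Finset.mem_univ _) h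
  · have h6 := h4 y'
    unfold Lam at h6
    rw [Finset.sum_eq_zero fun g _ => by rw [h3 g, mul_zero]] at h6
    exact (mul_eq_zero.1 h6.symm).resolve_left hc

theorem dv_lin_pow_mul (p q : MvPolynomial (Fin n) ℂ) {z w : Fin n → ℂ} (h : eval z q = 0) :
    dv (p * q) z w = eval z p * dv q z w := by
  rw [dv_mul, h, zero_mul, add_zero]

/-- tangent vectors on a finite coordinate section -/
theorem fin_tangents (hst : ∀ g, ∀ p ∈ S.I, act S.α g p ∈ S.I) {ρ : ℕ} (hρ : TopBound S.I ρ)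
    {y u l : Fin n → ℂ} (hy0 : y ≠ 0)
    (hy : ∀ p ∈ S.I, eval y p = 0) (hu : ∀ p ∈ S.I, dv p y u = 0)
    (hu0 : ∀ i, y i = 0 → u i = 0) (hne : u ∉ Submodule.span ℂ {y})
    (hl : Av S.I y l) (χ : G →* ℂˣ) {e : ℕ} (he : ρ ≤ e) :
    ∃ F, Typ S.α χ e F ∧ eval y F = 0 ∧ dv F y u ≠ 0 := by
  classical
  obtain ⟨a, ha1, ha2⟩ := exists_lin_of_notMem hne
  have ha3 : eval y (lin a) = 0 := ha2 _ (Submodule.mem_span_singleton_self _)
  have ha4 : dv (lin a) y u ≠ 0 := by
    have h1 : dv (lin a) y u = eval u (lin a) := by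
      rw [eval_lin]
      unfold dv
      refine Finset.sum_congr rfl fun i _ => ?_
      have h2 : pderiv i (lin a) = C (a i) := by
        unfold lin
        rw [map_sum, Finset.sum_eq_single i]
        · rw [Derivation.leibniz, pderiv_C, pderiv_X_self, smul_zero, add_zero, smul_eq_mul,
            mul_one]
        · intro j _ hj
          rw [Derivation.leibniz, pderiv_C, pderiv_X_of_ne hj, smul_zero, smul_zero, add_zero]
        · intro h; exact absurd (Finset.mem_univ _) h
      rw [h2, eval_C]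
    rw [h1]
    exact ha1
  choose L' hL1' hL2' hL3' using exists_L S hy0 hy
  set k := 1 + Fintype.card G * 2 with hk
  set R : MvPolynomial (Fin n) ℂ := lin l ^ e * ∏ g, L' g ^ 2 with hR
  set F : MvPolynomial (Fin n) ℂ := lin a * R with hF
  have hFh : F.IsHomogeneous (e + k) := by
    have h1 := IsHomogeneous.prod Finset.univ (fun g => L' g ^ 2) (fun _ => 2) fun g _ => by
      have := (hL1' g).pow 2
      rwa [one_mul] at this
    rw [Finset.sum_const, smul_eq_mul, Finset.card_univ] at h1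
    have h2 := (lin_hom a).mul (((lin_hom l).pow e).mul h1)
    rwa [one_mul, show 1 + (e + Fintype.card G * 2) = e + k by rw [hk]; omega] at h2
  obtain ⟨q, hq, hFq⟩ := reduce S.hom hρ hy0 hl he k F hFh
  obtain ⟨ξ, hξ⟩ : ∃ ξ : Fin n → ℂ, u = fun i => ξ i * y i := by
    refine ⟨fun i => u i / y i, funext fun i => ?_⟩
    by_cases hi : y i = 0
    · rw [hu0 i hi, hi, mul_zero]
    · rw [div_mul_cancel₀ _ hi]
  have hly := hl y hy0 hy fun _ h => h
  have hlg : ∀ g, eval (mv S.α g y) (lin l) ≠ 0 := fun g =>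
    hl _ (mv_ne_zero S.α g hy0) (S.stable y hy g) fun i hi => (mv_supp S.α g y i).2 hi
  have hker : ∀ g, ∀ p ∈ S.I ⊔ Ideal.span (X '' {i | y i = 0}),
      eval (mv S.α g y) p = 0 ∧ dv p (mv S.α g y) (mv S.α g u) = 0 := by
    intro g p hp
    have h1 : {i | y i = 0} = {i | mv S.α g y i = 0} := by
      ext i
      exact (mv_supp S.α g y i).symm
    rw [h1] at hp
    have h2 : (fun i => ξ i * mv S.α g y i) = mv S.α g u := by
      funext i
      rw [hξ]
      show ξ i * ((S.α i g : ℂ) * y i) = (S.α i g : ℂ) * (ξ i * y i)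
      ring
    have h3 := (Fn.der ξ).sup_le (w := mv S.α g y) (I := S.I) (S.stable y hy g) (by
      intro p hp
      show dv p (mv S.α g y) (fun i => ξ i * mv S.α g y i) = 0
      rw [h2, ← dv_act]
      exact hu _ (hst g p hp)) hp
    obtain ⟨h4, h5⟩ := (Fn.der ξ).mem_ker.1 h3
    refine ⟨h4, ?_⟩
    have h6 : dv p (mv S.α g y) (fun i => ξ i * mv S.α g y i) = 0 := h5
    rwa [h2] at h6
  -- the values and derivatives of `q`
  have hFy : eval y F = 0 := by rw [hF, map_mul, ha3, zero_mul]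
  have hFg : ∀ g, g ≠ 1 → eval (mv S.α g y) F = 0 ∧ dv F (mv S.α g y) (mv S.α g u) = 0 := by
    intro g hg
    have h1 : F = (lin a * lin l ^ e * (∏ h ∈ Finset.univ.erase g, L' h ^ 2) * L' g) * L' g := by
      rw [hF, hR, ← Finset.mul_prod_erase Finset.univ (fun g => L' g ^ 2) (Finset.mem_univ g)]
      ring
    have h2 := hL3' g hg
    refine ⟨by rw [h1, map_mul, h2, mul_zero], ?_⟩
    rw [h1, dv_lin_pow_mul _ _ h2, map_mul, h2, mul_zero, zero_mul]
  have hq0 : ∀ g, eval (mv S.α g y) q = 0 := by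
    intro g
    have h1 := (hker g _ hFq).1
    have h2 : eval (mv S.α g y) F = 0 := by
      by_cases hg : g = 1
      · rw [hg, mv_one]; exact hFy
      · exact (hFg g hg).1
    rw [map_sub, h2, zero_sub, neg_eq_zero, map_mul, map_pow] at h1
    exact (mul_eq_zero.1 h1).resolve_left (pow_ne_zero _ (hlg g))
  have hq1 : ∀ g, dv F (mv S.α g y) (mv S.α g u) =
      eval (mv S.α g y) (lin l) ^ k * dv q (mv S.α g y) (mv S.α g u) := by
    intro g
    have h1 := (hker g _ hFq).2
    rw [dv_sub, dv_lin_pow_mul _ _ (hq0 g), map_pow, sub_eq_zero] at h1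
    exact h1
  have hq2 : ∀ g, g ≠ 1 → dv q (mv S.α g y) (mv S.α g u) = 0 := by
    intro g hg
    have h1 := hq1 g
    rw [(hFg g hg).2] at h1
    exact (mul_eq_zero.1 h1.symm).resolve_left (pow_ne_zero _ (hlg g))
  have hq3 : dv q y u ≠ 0 := by
    intro h
    have h1 := hq1 1
    rw [mv_one, mv_one, h, mul_zero, hF, dv_mul, ha3, zero_mul, zero_add] at h1
    rcases mul_eq_zero.1 h1 with h2 | h2
    · rw [hR, map_mul, map_pow, map_prod] at h2
      rcases mul_eq_zero.1 h2 with h3 | h3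
      · exact pow_ne_zero _ hly h3
      · obtain ⟨g, -, hg⟩ := Finset.prod_eq_zero_iff.1 h3
        rw [map_pow] at hg
        exact pow_ne_zero _ (hL2' g) hg
    · exact ha4 h2
  obtain ⟨F', hF', h4⟩ := exists_typ S.α χ hq
  have hc : (Fintype.card G : ℂ) ≠ 0 := Nat.cast_ne_zero.2 Fintype.card_ne_zero
  have h5 : C (Fintype.card G : ℂ) * F' = ∑ g, C ((((χ g)⁻¹ : ℂˣ) : ℂ)) * act S.α g q := by
    refine MvPolynomial.funext fun v => ?_
    rw [map_mul, eval_C, ← h4, map_sum]
    unfold Lam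
    exact Finset.sum_congr rfl fun g _ => by rw [map_mul, eval_C, eval_act]
  refine ⟨F', hF', ?_, ?_⟩
  · have h6 := h4 y
    unfold Lam at h6
    rw [Finset.sum_eq_zero fun g _ => by rw [hq0 g, mul_zero]] at h6
    exact (mul_eq_zero.1 h6.symm).resolve_left hc
  · intro h6
    have h7 : der y u (C (Fintype.card G : ℂ) * F') =
        der y u (∑ g, C ((((χ g)⁻¹ : ℂˣ) : ℂ)) * act S.α g q) := by rw [h5]
    rw [map_sum, der_apply, dv_C_mul, h6, mul_zero, Finset.sum_eq_single 1] at h7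
    · rw [der_apply, dv_C_mul, dv_act, mv_one, mv_one] at h7
      rcases mul_eq_zero.1 h7.symm with h8 | h8
      · exact (Units.ne_zero _) h8
      · exact hq3 h8
    · intro g _ hg
      rw [der_apply, dv_C_mul, dv_act, hq2 g hg, mul_zero]
    · intro h; exact absurd (Finset.mem_univ _) h

end

end Pool.Agent.J6H82.CIQ
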