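import Pool.Agent.J6H82.CIQ.Wt

/-!
# Relations between monomials of the same degree and weight
-/

set_option autoImplicit false

namespace Pool.Agent.J6H82.CIQ

open MvPolynomial Module Pool.Agent.TH144.MB

variable {σ : Type} {K : Type} [Field K] {M : Type} [AddCommGroup M]

/-- `m` are the exponents of a monomial of degree `s` and weight `φ` without variables in `Z` -/
def U (w : σ → M) (Z : Set σ) (s : ℕ) (φ : M) (m : σ →₀ ℕ) : Prop :=
  m.degree = s ∧ Finsupp.weight w m = φ ∧ ∀ i ∈ Z, m i = 0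

theorem U.add {w : σ → M} {Z : Set σ} {s s' : ℕ} {φ φ' : M} {m m' : σ →₀ ℕ}
    (h : U w Z s φ m) (h' : U w Z s' φ' m') : U w Z (s + s') (φ + φ') (m + m') :=
  ⟨by rw [map_add, h.1, h'.1], by rw [map_add, h.2.1, h'.2.1], fun i hi => by
    rw [Finsupp.add_apply, h.2.2 i hi, h'.2.2 i hi]⟩

theorem U_single {w : σ → M} {Z : Set σ} {j : σ} (hj : j ∉ Z) :
    U w Z 1 (w j) (Finsupp.single j 1) := by
  classical
  refine ⟨Finsupp.degree_single j 1, ?_, fun i hi => ?_⟩
  · rw [Finsupp.weight_single, one_smul]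
  · rw [Finsupp.single_apply, if_neg]
    rintro rfl
    exact hj hi

theorem U.split {w : σ → M} {Z : Set σ} {s : ℕ} {φ : M} {m : σ →₀ ℕ} (h : U w Z s φ m) {k : ℕ}
    (hk : k ≤ s) : ∃ m1 m2 φ1 φ2, m = m1 + m2 ∧ φ = φ1 + φ2 ∧ U w Z k φ1 m1 ∧
      U w Z (s - k) φ2 m2 := by
  classical
  induction k with
  | zero =>
    exact ⟨0, m, 0, φ, (zero_add m).symm, (zero_add φ).symm, ⟨map_zero _, map_zero _,
      fun _ _ => rfl⟩, by rwa [Nat.sub_zero]⟩
  | succ k ih =>
    obtain ⟨m1, m2, φ1, φ2, e1, e2, h1, h2⟩ := ih (by omega)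
    obtain ⟨i, hi⟩ : ∃ i, m2 i ≠ 0 := by
      by_contra hcon
      push Not at hcon
      have h3 : m2 = 0 := Finsupp.ext hcon
      have h4 := h2.1
      rw [h3, map_zero] at h4
      omega
    have hiZ : i ∉ Z := fun h => hi (h2.2.2 i h)
    have h3 : (m2 - Finsupp.single i 1) + Finsupp.single i 1 = m2 := by
      rw [tsub_add_cancel_of_le]
      rw [Finsupp.single_le_iff]
      omega
    have h4 := Finsupp.weight_sub_single_add (w := w) hi
    refine ⟨m1 + Finsupp.single i 1, m2 - Finsupp.single i 1, φ1 + w i, φ2 - w i, ?_, ?_,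
      h1.add (U_single hiZ), ?_, ?_, ?_⟩
    · rw [e1, add_assoc, add_comm (Finsupp.single i 1), h3]
    · rw [e2]; abel
    · have := congrArg Finsupp.degree h3
      rw [map_add, Finsupp.degree_single, h2.1] at this
      omega
    · rw [← h2.2.1, ← h4, add_sub_cancel_right]
    · intro j hj
      rw [Finsupp.tsub_apply, h2.2.2 j hj, Nat.zero_sub]

/-- `r` has the same value on all monomials of the same degree and weight if it has this
property for one degree `e` and one weight, and all weights occur in all degrees `s ≥ t`,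
where `2 t + 1 ≤ e`. -/
theorem path {w : σ → M} {Z : Set σ} (r : (σ →₀ ℕ) → K)
    (hadd : ∀ m m' τ : σ →₀ ℕ, (∀ i ∈ Z, m i = 0) → (∀ i ∈ Z, m' i = 0) → (∀ i ∈ Z, τ i = 0) →
      (r (m + τ) = r (m' + τ) ↔ r m = r m'))
    {t e : ℕ} (hte : 2 * t + 1 ≤ e) (hex : ∀ s, t ≤ s → ∀ φ, ∃ m, U w Z s φ m) {j : σ}
    (hj : j ∉ Z) {χ : M} (h : ∀ m m', U w Z e χ m → U w Z e χ m' → r m = r m') (s : ℕ) :
    ∀ φ m m', U w Z s φ m → U w Z s φ m' → r m = r m' := by
  have hlow : ∀ s, s + t ≤ e → ∀ φ m m', U w Z s φ m → U w Z s φ m' → r m = r m' := by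
    intro s hs φ m m' hm hm'
    obtain ⟨τ, hτ⟩ := hex (e - s) (by omega) (χ - φ)
    have h1 := hm.add hτ
    have h2 := hm'.add hτ
    rw [Nat.add_sub_cancel' (by omega), add_sub_cancel] at h1 h2
    exact (hadd m m' τ hm.2.2 hm'.2.2 hτ.2.2).1 (h _ _ h1 h2)
  by_cases hs : s ≤ t + 1
  · exact hlow s (by omega)
  · obtain ⟨k, rfl⟩ := Nat.exists_eq_add_of_le (show t + 1 ≤ s by omega)
    clear hs
    induction k with
    | zero => exact hlow _ (by omega)
    | succ k ih =>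
      intro φ
      obtain ⟨m0, hm0⟩ := hex (t + 1 + k) (by omega) (φ - w j)
      have key : ∀ m, U w Z (t + 1 + (k + 1)) φ m → r m = r (m0 + Finsupp.single j 1) := by
        intro m hm
        obtain ⟨m1, m2, φ1, φ2, e1, e2, h1, h2⟩ := hm.split (k := t + 1) (by omega)
        obtain ⟨q, hq⟩ := hex t le_rfl (φ1 - w j)
        have h3 := hq.add (U_single hj (w := w))
        rw [sub_add_cancel] at h3
        have h4 : r m1 = r (q + Finsupp.single j 1) := hlow _ (by omega) _ _ _ h1 h3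
        have h5 : r (m1 + m2) = r (q + Finsupp.single j 1 + m2) :=
          (hadd _ _ m2 h1.2.2 h3.2.2 h2.2.2).2 h4
        have h6 := hq.add h2
        rw [show t + (t + 1 + (k + 1) - (t + 1)) = t + 1 + k by omega,
          show φ1 - w j + φ2 = φ - w j by rw [e2]; abel] at h6
        have h7 := ih (φ - w j) _ _ h6 hm0
        have h8 := (hadd _ _ (Finsupp.single j 1) h6.2.2 hm0.2.2
          (U_single hj (w := w)).2.2).2 h7
        rw [e1, h5, ← h8]
        congr 1
        rw [add_assoc, add_assoc, add_comm m2]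
      intro m m' hm hm'
      rw [key m hm, key m' hm']

/-- the step in the finite case -/
theorem ascend [Finite σ] {w : σ → M} {Z : Set σ} (E0 E1 : MvPolynomial σ K →ₗ[K] K)
    {I : Ideal (MvPolynomial σ K)} (h0 : ∀ p ∈ I, E0 p = 0) (h1 : ∀ p ∈ I, E1 p = 0)
    (hI : Hom I) (hW : WH w I) (r : (σ →₀ ℕ) → K)
    (hr : ∀ m : σ →₀ ℕ, (∀ i ∈ Z, m i = 0) → E1 (monomial m 1) = r m * E0 (monomial m 1))
    (hne : ∀ m : σ →₀ ℕ, (∀ i ∈ Z, m i = 0) → E0 (monomial m 1) ≠ 0)
    (hadd : ∀ m m' τ : σ →₀ ℕ, (∀ i ∈ Z, m i = 0) → (∀ i ∈ Z, m' i = 0) → (∀ i ∈ Z, τ i = 0) →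
      (r (m + τ) = r (m' + τ) ↔ r m = r m'))
    (hZ : ∀ i ∈ Z, (X i : MvPolynomial σ K) ∈ I) {i0 : σ} (hi0 : i0 ∉ Z) {s : ℕ} {φ : M}
    (htop : ∀ p : MvPolynomial σ K, p.IsHomogeneous (1 + s) → p ∈ I ⊔ Ideal.span {X i0})
    (hex : ∃ μ, U w Z s φ μ) (h : ∀ m m', U w Z s φ m → U w Z s φ m' → r m = r m') :
    ∀ m m', U w Z (s + 1) (φ + w i0) m → U w Z (s + 1) (φ + w i0) m' → r m = r m' := by
  obtain ⟨μ0, hμ0⟩ := hex
  have key : ∀ m, U w Z (s + 1) (φ + w i0) m → r m = r (μ0 + Finsupp.single i0 1) := by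
    intro m hm
    set κ := r (μ0 + Finsupp.single i0 1) with hκ
    have hmh : (monomial m (1 : K)).IsHomogeneous (1 + s) :=
      isHomogeneous_monomial _ (by rw [hm.1, add_comm])
    obtain ⟨q, hq, hmq⟩ := mem_sup_hom hI (isHomogeneous_X K i0) hmh (htop _ hmh)
    have h2 := hW _ hmq (φ + w i0)
    have h3 : IsWeightedHomogeneous w (monomial m (1 : K)) (φ + w i0) :=
      isWeightedHomogeneous_monomial w m 1 hm.2.1
    rw [map_sub, comp_X_mul, h3.weightedHomogeneousComponent_same] at h2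
    set q' := weightedHomogeneousComponent w φ q with hq'
    have hqh : q'.IsHomogeneous s := comp_hom w φ hq
    have hqw : IsWeightedHomogeneous w q' φ :=
      weightedHomogeneousComponent_isWeightedHomogeneous φ q
    have h4 : E1 (X i0 * q') = κ * E0 (X i0 * q') := by
      have h5 : X i0 * q' = ∑ μ ∈ q'.support, coeff μ q' •
          (monomial (μ + Finsupp.single i0 1) 1 : MvPolynomial σ K) := by
        conv_lhs => rw [q'.as_sum, Finset.mul_sum]
        refine Finset.sum_congr rfl fun μ _ => ?_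
        rw [X, monomial_mul, one_mul, smul_monomial, smul_eq_mul, mul_one, add_comm]
      rw [h5, map_sum, map_sum, Finset.mul_sum]
      refine Finset.sum_congr rfl fun μ hμ => ?_
      have h6 := mem_support_iff.1 hμ
      rw [map_smul, map_smul, smul_eq_mul, smul_eq_mul]
      by_cases hP : ∀ i ∈ Z, μ i = 0
      · have hU : U w Z s φ μ := ⟨by
          by_contra h
          exact h6 (hqh.coeff_eq_zero h), hqw h6, hP⟩
        have hU1 := hU.add (U_single hi0 (w := w))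
        rw [hr _ hU1.2.2, (hadd _ _ _ hU.2.2 hμ0.2.2 (U_single hi0 (w := w)).2.2).2
          (h _ _ hU hμ0)]
        ring
      · push Not at hP
        obtain ⟨i, hi, hμi⟩ := hP
        have hmem : (monomial (μ + Finsupp.single i0 1) 1 : MvPolynomial σ K) ∈ I := by
          have h7 : (monomial (μ + Finsupp.single i0 1) 1 : MvPolynomial σ K) =
              X i * monomial (μ + Finsupp.single i0 1 - Finsupp.single i 1) 1 := by
            rw [X, monomial_mul, one_mul, add_tsub_cancel_of_le]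
            rw [Finsupp.single_le_iff, Finsupp.add_apply]
            omega
          rw [h7]
          exact Ideal.mul_mem_right _ _ (hZ i hi)
        rw [h0 _ hmem, h1 _ hmem]
        ring
    have h5 : E1 (monomial m 1) = E1 (X i0 * q') := by
      rw [← sub_eq_zero, ← map_sub]; exact h1 _ h2
    have h6 : E0 (monomial m 1) = E0 (X i0 * q') := by
      rw [← sub_eq_zero, ← map_sub]; exact h0 _ h2
    have h7 := hr m hm.2.2
    rw [h5, h4, ← h6] at h7
    exact (mul_right_cancel₀ (hne m hm.2.2) h7).symm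
  intro m m' hm hm'
  rw [key m hm, key m' hm']

theorem climb {w : σ → M} {Z : Set σ} (r : (σ →₀ ℕ) → K)
    (hadd : ∀ m m' τ : σ →₀ ℕ, (∀ i ∈ Z, m i = 0) → (∀ i ∈ Z, m' i = 0) → (∀ i ∈ Z, τ i = 0) →
      (r (m + τ) = r (m' + τ) ↔ r m = r m'))
    {i0 : σ} {ρ e : ℕ} {χ : M} (he : ρ ≤ e)
    (hex : ∀ s, ρ ≤ s → ∀ φ, ∃ m, U w Z s φ m)
    (hstep : ∀ s, ρ ≤ s → ∀ φ, (∀ m m', U w Z s φ m → U w Z s φ m' → r m = r m') →
      ∀ m m', U w Z (s + 1) (φ + w i0) m → U w Z (s + 1) (φ + w i0) m' → r m = r m')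
    (h : ∀ m m', U w Z e χ m → U w Z e χ m' → r m = r m') (s : ℕ) :
    ∀ φ m m', U w Z s φ m → U w Z s φ m' → r m = r m' := by
  have h1 : ∀ k, ∃ φ, ∀ m m', U w Z (e + k) φ m → U w Z (e + k) φ m' → r m = r m' := by
    intro k
    induction k with
    | zero => exact ⟨χ, h⟩
    | succ k ih =>
      obtain ⟨φ, hφ⟩ := ih
      exact ⟨φ + w i0, hstep (e + k) (by omega) φ hφ⟩
  intro φ m m' hm hm'
  obtain ⟨χ', hχ'⟩ := h1 (s + ρ)
  obtain ⟨τ, hτ⟩ := hex (e + ρ) (by omega) (χ' - φ)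
  have h2 := hm.add hτ
  have h3 := hm'.add hτ
  rw [show s + (e + ρ) = e + (s + ρ) by omega, add_sub_cancel] at h2 h3
  exact (hadd m m' τ hm.2.2 hm'.2.2 hτ.2.2).1 (hχ' _ _ h2 h3)

end Pool.Agent.J6H82.CIQ
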