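import Pool.Agent.J6H82.CIQ.Zero
import Pool.Agent.J6H82.CIQ.Path
import Pool.Agent.TH144.MB.Tan

/-!
# Functions on the monomials of a given degree and weight at a point of the cone
-/

set_option autoImplicit false

namespace Pool.Agent.J6H82.CIQ

open MvPolynomial Module Pool.Agent.TH144.MB

section
variable {n : ℕ}

theorem mon_ne {m : Fin n →₀ ℕ} {v : Fin n → ℂ} (h : mon m v ≠ 0) {i : Fin n} (hi : m i ≠ 0) :
    v i ≠ 0 := by
  intro h1
  have h2 := (Finset.prod_ne_zero_iff.1 h) i (Finset.mem_univ i)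
  rw [h1, zero_pow hi] at h2
  exact h2 rfl

theorem mon_ne_zero {m : Fin n →₀ ℕ} {v : Fin n → ℂ} (h : ∀ i, v i = 0 → m i = 0) :
    mon m v ≠ 0 := by
  unfold mon
  rw [Finset.prod_ne_zero_iff]
  intro i _
  by_cases hi : v i = 0
  · rw [h i hi, pow_zero]; exact one_ne_zero
  · exact pow_ne_zero _ hi

theorem exists_sub {c : ℕ} {y : Fin n → ℂ} (hy : c + 2 ≤ {i | y i ≠ 0}.ncard) :
    ∃ J : Finset (Fin n), J.card = c + 2 ∧ ∀ i ∈ J, y i ≠ 0 := by
  classical
  have h1 : {i | y i ≠ 0}.ncard = (Finset.univ.filter fun i => y i ≠ 0).card := by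
    rw [← Set.ncard_coe_finset]
    congr 1
    ext i
    simp
  rw [h1] at hy
  obtain ⟨J, hJ1, hJ2⟩ := Finset.exists_subset_card_eq hy
  exact ⟨J, hJ2, fun i hi => (Finset.mem_filter.1 (hJ1 hi)).2⟩

/-- a function on monomials given by a translation or a vector field -/
structure Fn (n : ℕ) where
  r : (Fin n →₀ ℕ) → ℂ
  E : (Fin n → ℂ) → MvPolynomial (Fin n) ℂ →ₗ[ℂ] ℂ
  mono : ∀ w m, E w (monomial m 1) = r m * mon m w
  ideal : ∀ w a p, eval w p = 0 → E w p = 0 → E w (a * p) = 0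
  cancel : ∀ w m p, mon m w ≠ 0 → eval w p = 0 → E w (monomial m 1 * p) = 0 → E w p = 0
  add : ∀ m m' τ, r (m + τ) = r (m' + τ) ↔ r m = r m'

/-- the ideal of the polynomials on which both functionals vanish -/
def Fn.ker (F : Fn n) (w : Fin n → ℂ) : Ideal (MvPolynomial (Fin n) ℂ) where
  carrier := {p | eval w p = 0 ∧ F.E w p = 0}
  add_mem' := by
    rintro p q ⟨h1, h2⟩ ⟨h3, h4⟩
    exact ⟨by rw [map_add, h1, h3, add_zero], by rw [map_add, h2, h4, add_zero]⟩
  zero_mem' := ⟨map_zero _, map_zero _⟩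
  smul_mem' := by
    rintro a p ⟨h1, h2⟩
    exact ⟨by rw [smul_eq_mul, map_mul, h1, mul_zero], by
      rw [smul_eq_mul]; exact F.ideal w a p h1 h2⟩

theorem Fn.mem_ker (F : Fn n) {w : Fin n → ℂ} {p : MvPolynomial (Fin n) ℂ} :
    p ∈ F.ker w ↔ eval w p = 0 ∧ F.E w p = 0 := Iff.rfl

theorem Fn.sup_le (F : Fn n) {w : Fin n → ℂ} {I : Ideal (MvPolynomial (Fin n) ℂ)}
    (h0 : ∀ p ∈ I, eval w p = 0) (h1 : ∀ p ∈ I, F.E w p = 0) :
    I ⊔ Ideal.span (X '' {i | w i = 0}) ≤ F.ker w := by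
  refine _root_.sup_le (fun p hp => F.mem_ker.2 ⟨h0 p hp, h1 p hp⟩) ?_
  rw [Ideal.span_le]
  rintro _ ⟨i, hi, rfl⟩
  have hi' : w i = 0 := hi
  refine F.mem_ker.2 ⟨by rw [eval_X, hi'], ?_⟩
  have h2 := F.mono w (Finsupp.single i 1)
  have h3 : mon (Finsupp.single i 1) w = 0 := by
    by_contra h
    exact mon_ne h (i := i) (by simp) hi'
  rw [h3, mul_zero] at h2
  exact h2

/-- a weight form with one value of `r` on its monomials -/
theorem Fn.two (F : Fn n) {M : Type} [AddCommGroup M] {x : Fin n → M} {w : Fin n → ℂ} {s : ℕ}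
    {φ : M} (hc : ∀ m m', U x {i | w i = 0} s φ m → U x {i | w i = 0} s φ m' → F.r m = F.r m')
    {q : MvPolynomial (Fin n) ℂ} (hq : q.IsHomogeneous s) (hqw : IsWeightedHomogeneous x q φ)
    (h0 : eval w q = 0) : F.E w q = 0 := by
  classical
  have hE : F.E w q = ∑ m ∈ q.support, coeff m q * (F.r m * mon m w) := by
    conv_lhs => rw [q.as_sum, map_sum]
    refine Finset.sum_congr rfl fun m _ => ?_
    rw [show (monomial m (coeff m q) : MvPolynomial (Fin n) ℂ) = coeff m q • monomial m 1 by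
      rw [smul_monomial, smul_eq_mul, mul_one], map_smul, smul_eq_mul, F.mono]
  have hZ : ∀ m, mon m w ≠ 0 → ∀ i ∈ {i | w i = 0}, m i = 0 := by
    intro m h i hi
    by_contra h4
    exact mon_ne h h4 hi
  by_cases hex : ∃ m0, U x {i | w i = 0} s φ m0
  · obtain ⟨m0, hm0⟩ := hex
    have h1 : F.E w q = F.r m0 * eval w q := by
      rw [hE, eval_eq_mon, Finset.mul_sum]
      refine Finset.sum_congr rfl fun m hm => ?_
      have hm' := mem_support_iff.1 hm
      by_cases h : mon m w = 0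
      · rw [h]; ring
      · have hU : U x {i | w i = 0} s φ m := ⟨by
          by_contra h
          exact hm' (hq.coeff_eq_zero h), hqw hm', hZ m h⟩
        rw [hc m m0 hU hm0]
        ring
    rw [h1, h0, mul_zero]
  · rw [hE]
    refine Finset.sum_eq_zero fun m hm => ?_
    have hm' := mem_support_iff.1 hm
    have h3 : mon m w = 0 := by
      by_contra h
      exact hex ⟨m, by
        by_contra h
        exact hm' (hq.coeff_eq_zero h), hqw hm', hZ m h⟩
    rw [h3]; ring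

/-- the extension from a smaller set of variables -/
theorem extend {M : Type} [AddCommGroup M] {x : Fin n → M} {Z Z' : Set (Fin n)} (hZ : Z ⊆ Z')
    (F : Fn n) {e : ℕ} {χ : M} (he : 1 ≤ e) (h1 : ∀ φ, ∃ m, U x Z' (e - 1) φ m)
    (h2 : ∃ m, U x Z' e χ m)
    (hc : ∀ m m', U x Z e χ m → U x Z e χ m' → F.r m = F.r m')
    (hc' : ∀ s φ m m', U x Z' s φ m → U x Z' s φ m' → F.r m = F.r m') (s : ℕ) :
    ∀ φ m m', U x Z s φ m → U x Z s φ m' → F.r m = F.r m' := by
  have hmono : ∀ {s φ m}, U x Z' s φ m → U x Z s φ m := fun h =>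
    ⟨h.1, h.2.1, fun i hi => h.2.2 i (hZ hi)⟩
  obtain ⟨m2, hm2⟩ := h2
  have key : ∀ s φ m, U x Z s φ m → ∃ a α τ τ', U x Z' a α τ ∧ U x Z' (s + a) (φ + α) τ' ∧
      F.r (m + τ) = F.r τ' := by
    intro s
    induction s with
    | zero =>
      intro φ m hm
      have h3 : m = 0 := by
        ext i
        have h4 := hm.1
        rw [Finsupp.degree_eq_zero_iff] at h4
        rw [h4]
      subst h3
      have h4 := hm.2.1
      rw [map_zero] at h4
      subst h4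
      exact ⟨e, χ, m2, m2, hm2, by rwa [zero_add, zero_add], by rw [zero_add]⟩
    | succ s ih =>
      intro φ m hm
      obtain ⟨m1, m3, φ1, φ3, e1, e2, h3, h4⟩ := hm.split (k := s) (by omega)
      obtain ⟨a, α, τ, τ', h5, h6, h7⟩ := ih φ1 m1 h3
      obtain ⟨μ, hμ⟩ := h1 (χ - φ3)
      have h8 := h4.add (hmono hμ)
      rw [show s + 1 - s + (e - 1) = e by omega, add_sub_cancel] at h8
      have h9 := hc _ _ h8 (hmono hm2)
      refine ⟨a + (e - 1), α + (χ - φ3), τ + μ, τ' + m2, h5.add hμ, ?_, ?_⟩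
      · have h10 := h6.add hm2
        rw [show s + a + e = s + 1 + (a + (e - 1)) by omega,
          show φ1 + α + χ = φ + (α + (χ - φ3)) by rw [e2]; abel] at h10
        exact h10
      · rw [e1, show m1 + m3 + (τ + μ) = (m3 + μ) + (m1 + τ) by abel, (F.add _ _ _).2 h9,
          show m2 + (m1 + τ) = (m1 + τ) + m2 by abel, (F.add _ _ _).2 h7]
  intro φ m m' hm hm'
  obtain ⟨a, α, τ, τ', h3, h4, h5⟩ := key s φ m hm
  obtain ⟨b, β, σ, σ', h6, h7, h8⟩ := key s φ m' hm'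
  have h9 := h4.add h6
  have h10 := h7.add h3
  rw [show s + b + a = s + a + b by omega, show φ + β + α = φ + α + β by abel] at h10
  have h11 := hc' _ _ _ _ h9 h10
  rw [← F.add m m' (τ + σ), ← add_assoc, (F.add _ _ _).2 h5, h11,
    show m' + (τ + σ) = (m' + σ) + τ by abel, (F.add _ _ _).2 h8]

end

section
variable {n : ℕ} {M : Type} [AddCommGroup M]

/-- the hypotheses on the equations and on the weights -/
structure Eqs (x : Fin n → M) (I : Ideal (MvPolynomial (Fin n) ℂ)) (c : ℕ)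
    (f : Fin c → MvPolynomial (Fin n) ℂ) (d : Fin c → ℕ) : Prop where
  hf : ∀ j, (f j).IsHomogeneous (d j)
  hd : ∀ j, 0 < d j
  hI : I = Ideal.span (Set.range f)
  wh : WH x I
  ex : ∀ y : Fin n → ℂ, y ≠ 0 → (∀ p ∈ I, eval y p = 0) → ∀ s, ∑ j, (d j - 1) ≤ s → ∀ φ,
    ∃ m, U x {i | y i = 0} s φ m

variable {x : Fin n → M} {I : Ideal (MvPolynomial (Fin n) ℂ)} {c : ℕ}
  {f : Fin c → MvPolynomial (Fin n) ℂ} {d : Fin c → ℕ}

theorem Eqs.top (h : Eqs x I c f d) : TopBound I (∑ j, (d j - 1)) := by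
  rw [h.hI]
  exact topBound_forms f d h.hf h.hd

theorem Eqs.hom (h : Eqs x I c f d) : Hom I := by
  rw [h.hI]
  refine hom_span ?_
  rintro _ ⟨j, rfl⟩
  exact ⟨_, h.hf j⟩

theorem Eqs.zero (h : Eqs x I c f d) (v : Fin n → ℂ) :
    (∀ p ∈ I, eval v p = 0) ↔ ∀ j, eval v (f j) = 0 := by
  rw [h.hI]
  constructor
  · intro h1 j
    exact h1 _ (Ideal.subset_span ⟨j, rfl⟩)
  · intro h1 p hp
    have h2 : Ideal.span (Set.range f) ≤ RingHom.ker (eval v) := by
      rw [Ideal.span_le]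
      rintro _ ⟨j, rfl⟩
      exact RingHom.mem_ker.2 (h1 j)
    exact RingHom.mem_ker.1 (h2 hp)

/-- no point of the cone vanishes at `i0` and where `y` vanishes -/
def Min (I : Ideal (MvPolynomial (Fin n) ℂ)) (y : Fin n → ℂ) (i0 : Fin n) : Prop :=
  ∀ v : Fin n → ℂ, (∀ p ∈ I, eval v p = 0) → (∀ i, y i = 0 → v i = 0) → v i0 = 0 → v = 0

theorem Eqs.htop (h : Eqs x I c f d) {y : Fin n → ℂ} {i0 : Fin n} (hi0 : y i0 ≠ 0)
    (hmin : Min I y i0) {s : ℕ} (hs : ∑ j, (d j - 1) ≤ s)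
    (p : MvPolynomial (Fin n) ℂ) (hp : p.IsHomogeneous (1 + s)) :
    p ∈ I ⊔ Ideal.span (X '' {i | y i = 0}) ⊔ Ideal.span {X i0} := by
  classical
  let L : Fin n → Fin n → ℂ := fun i => if y i = 0 then Pi.single i 1 else Pi.single i0 1
  have hlin : ∀ i : Fin n, lin (Pi.single i 1) = (X i : MvPolynomial (Fin n) ℂ) :=
    fun i => lin_single' i
  have hv : ∀ v : Fin n → ℂ, (∀ p ∈ I, eval v p = 0) → (∀ i, eval v (lin (L i)) = 0) →
      v = 0 := by
    intro v hv1 hv2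
    refine hmin v hv1 (fun i hi => ?_) ?_
    · have h3 := hv2 i
      simp only [L, if_pos hi, hlin, eval_X] at h3
      exact h3
    · have h3 := hv2 i0
      simp only [L, if_neg hi0, hlin, eval_X] at h3
      exact h3
  have hle : I ⊔ Ideal.span (Set.range fun i => lin (L i)) ≤
      I ⊔ Ideal.span (X '' {i | y i = 0}) ⊔ Ideal.span {X i0} := by
    refine sup_le (le_sup_left.trans le_sup_left) ?_
    rw [Ideal.span_le]
    rintro _ ⟨i, rfl⟩
    by_cases hi : y i = 0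
    · simp only [L, if_pos hi, hlin]
      exact Ideal.mem_sup_left (Ideal.mem_sup_right (Ideal.subset_span ⟨i, hi, rfl⟩))
    · simp only [L, if_neg hi, hlin]
      exact Ideal.mem_sup_right (Ideal.mem_span_singleton_self _)
  exact hle (h.top n L hv (1 + s) (by omega) p hp)

theorem coe_zeros (y : Fin n → ℂ) [DecidablePred fun i => y i = 0] : {i | y i = 0} =
    ((Finset.univ.filter fun i => y i = 0 : Finset (Fin n)) : Set (Fin n)) := by
  ext i; simp

theorem WH1 (h : WH x I) (y : Fin n → ℂ) : WH x (I ⊔ Ideal.span (X '' {i | y i = 0})) := by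
  classical
  rw [coe_zeros]; exact WH_union h _

theorem Hom1 (h : Hom I) (y : Fin n → ℂ) : Hom (I ⊔ Ideal.span (X '' {i | y i = 0})) := by
  classical
  rw [coe_zeros]; exact Hom_union h _

theorem ker1 {w : Fin n → ℂ} (hw : ∀ p ∈ I, eval w p = 0) :
    ∀ p ∈ I ⊔ Ideal.span (X '' {i | w i = 0}), eval w p = 0 := by
  intro p hp
  have h2 : I ⊔ Ideal.span (X '' {i | w i = 0}) ≤ RingHom.ker (eval w) := by
    refine sup_le (fun p hp => RingHom.mem_ker.2 (hw p hp)) ?_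
    rw [Ideal.span_le]
    rintro _ ⟨i, hi, rfl⟩
    refine RingHom.mem_ker.2 ?_
    rw [eval_X]
    exact hi
  exact RingHom.mem_ker.1 (h2 hp)

theorem Eqs.hmon (h : Eqs x I c f d) {J : Finset (Fin n)} (hJ : J.card = c + 2) {a : Fin n}
    (ha : a ∈ J) (φ : M) : ∃ m : Fin n →₀ ℕ, m.degree = ∑ j, (d j - 1) ∧
      Finsupp.weight x m = φ ∧ ∀ i, m i ≠ 0 → i ∈ J ∧ i ≠ a := by
  obtain ⟨v, hv0, hv, hvJ⟩ := exists_zero f d h.hf h.hd (J.erase a) (by
    rw [Finset.card_erase_of_mem ha, hJ]; rfl)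
  obtain ⟨m, hm1, hm2, hm3⟩ := h.ex v hv0 ((h.zero v).2 hv) _ le_rfl φ
  refine ⟨m, hm1, hm2, fun i hi => ?_⟩
  by_contra h2
  apply hi
  refine hm3 i (hvJ i ?_)
  rw [Finset.mem_erase]
  rintro ⟨h3, h4⟩
  exact h2 ⟨h4, h3⟩

/-- all points of the cone which vanish where `y` vanishes have more than `c` nonzero coordinates -/
def Pos (I : Ideal (MvPolynomial (Fin n) ℂ)) (c : ℕ) (y : Fin n → ℂ) : Prop :=
  ∀ v : Fin n → ℂ, v ≠ 0 → (∀ p ∈ I, eval v p = 0) → (∀ i, y i = 0 → v i = 0) →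
    c < {i | v i ≠ 0}.ncard

/-- all weights occur at a point with at least `c + 2` nonzero coordinates -/
theorem Eqs.hex (h : Eqs x I c f d) [Fintype M] {y : Fin n → ℂ}
    (hy : c + 2 ≤ {i | y i ≠ 0}.ncard) (hpos : Pos I c y) {s : ℕ}
    (hs : ∑ j, (d j - 1) ≤ 2 * s + 1) (φ : M) : ∃ m, U x {i | y i = 0} s φ m := by
  obtain ⟨J, hJ2, hJ1⟩ := exists_sub hy
  obtain ⟨m, h2, h3, h4⟩ := key f d h.hf h.hd (w := x) (by rw [← h.hI]; exact h.wh) J hJ2
    (fun v hv0 hv hvJ => hpos v hv0 ((h.zero v).2 hv) fun i hi => hvJ i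
      fun hiJ => hJ1 i hiJ hi) (fun a ha φ => h.hmon hJ2 ha φ) hs φ
  exact ⟨m, h2, h3, fun i hi => h4 i fun hiJ => hJ1 i hiJ hi⟩

/-- the case of a point of minimal support -/
theorem Eqs.constA (h : Eqs x I c f d) (F : Fn n) {y : Fin n → ℂ} (hy0 : y ≠ 0)
    (hy : ∀ p ∈ I, eval y p = 0) (hE : ∀ p ∈ I, F.E y p = 0) {i0 : Fin n} (hi0 : y i0 ≠ 0)
    (hmin : Min I y i0) {e : ℕ} (he : ∑ j, (d j - 1) ≤ e) {χ : M}
    (hc : ∀ m m', U x {i | y i = 0} e χ m → U x {i | y i = 0} e χ m' →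
      F.r m = F.r m') (s : ℕ) : ∀ φ m m', U x {i | y i = 0} s φ m →
      U x {i | y i = 0} s φ m' → F.r m = F.r m' := by
  have hadd : ∀ m m' τ : Fin n →₀ ℕ, (∀ i ∈ {i | y i = 0}, m i = 0) →
      (∀ i ∈ {i | y i = 0}, m' i = 0) → (∀ i ∈ {i | y i = 0}, τ i = 0) →
      (F.r (m + τ) = F.r (m' + τ) ↔ F.r m = F.r m') := fun m m' τ _ _ _ => F.add m m' τ
  refine climb (ρ := ∑ j, (d j - 1)) (e := e) (χ := χ) (i0 := i0) F.r hadd he
    (fun s hs φ => h.ex y hy0 hy s hs φ) ?_ hc s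
  intro s hs φ hc'
  have hker := F.sup_le hy hE
  refine ascend (w := x) (Z := {i | y i = 0}) (I := I ⊔ Ideal.span (X '' {i | y i = 0}))
    (aeval y : MvPolynomial (Fin n) ℂ →ₐ[ℂ] ℂ).toLinearMap (F.E y) ?_
    (fun p hp => (F.mem_ker.1 (hker hp)).2) (Hom1 h.hom y) (WH1 h.wh y) F.r ?_ ?_ hadd ?_
    (i0 := i0) hi0 (s := s) (φ := φ) (fun p hp => h.htop hi0 hmin hs p hp)
    (h.ex y hy0 hy s hs φ) hc'
  · intro p hp
    exact (F.mem_ker.1 (hker hp)).1
  · intro m _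
    rw [F.mono, ← eval_mono]
    rfl
  · intro m hm
    have := mon_ne_zero hm
    rw [← eval_mono] at this
    exact this
  · intro i hi
    exact Ideal.mem_sup_right (Ideal.subset_span ⟨i, hi, rfl⟩)

/-- the case where all points have enough nonzero coordinates -/
theorem Eqs.constB (h : Eqs x I c f d) [Fintype M] (F : Fn n) {y : Fin n → ℂ} (hy0 : y ≠ 0)
    (hy : c + 2 ≤ {i | y i ≠ 0}.ncard) (hpos : Pos I c y) {e : ℕ}
    (he : ∑ j, (d j - 1) + 1 ≤ e) {χ : M}
    (hc : ∀ m m', U x {i | y i = 0} e χ m → U x {i | y i = 0} e χ m' →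
      F.r m = F.r m') (s : ℕ) : ∀ φ m m', U x {i | y i = 0} s φ m →
      U x {i | y i = 0} s φ m' → F.r m = F.r m' := by
  obtain ⟨i0, hi0⟩ : ∃ i, y i ≠ 0 := by
    by_contra hc
    push Not at hc
    exact hy0 (funext hc)
  exact path (w := x) (Z := {i | y i = 0}) F.r (fun m m' τ _ _ _ => F.add m m' τ)
    (t := (∑ j, (d j - 1)) / 2) (e := e) (by omega)
    (fun s hs φ => h.hex hy hpos (by omega) φ) (j := i0) hi0 hc s

/-- the case of a point with few nonzero coordinates -/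
theorem Eqs.constC (h : Eqs x I c f d) [Fintype M] (F : Fn n) {w : Fin n → ℂ} (hw0 : w ≠ 0)
    (hw : ∀ p ∈ I, eval w p = 0) {i0 : Fin n} (hi0 : w i0 ≠ 0)
    (hmin : Min I w i0) {ρ e : ℕ} (hN : ∀ k, ρ ≤ k → ∀ φ, ∃ m, U x {i | w i = 0} k φ m)
    (hρ : ∀ j, ρ + d j ≤ e) (hρ1 : ρ + 1 ≤ e) (he : ∑ j, (d j - 1) ≤ e) {Z : Set (Fin n)}
    (hZ : Z ⊆ {i | w i = 0}) {χ : M}
    (hc : ∀ m m', U x Z e χ m → U x Z e χ m' → F.r m = F.r m') (s : ℕ) :
    ∀ φ m m', U x Z s φ m → U x Z s φ m' → F.r m = F.r m' := by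
  classical
  have hmono : ∀ {s φ m}, U x {i | w i = 0} s φ m → U x Z s φ m := fun h =>
    ⟨h.1, h.2.1, fun i hi => h.2.2 i (hZ hi)⟩
  have hc' : ∀ m m', U x {i | w i = 0} e χ m → U x {i | w i = 0} e χ m' →
      F.r m = F.r m' := fun m m' h1 h2 => hc m m' (hmono h1) (hmono h2)
  -- the functional vanishes on the equations
  have hj : ∀ j, F.E w (f j) = 0 := by
    intro j
    rw [← sum_comp x (f j), map_sum]
    refine Finset.sum_eq_zero fun μ _ => ?_
    have hqI : weightedHomogeneousComponent x μ (f j) ∈ I :=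
      h.wh _ (by rw [h.hI]; exact Ideal.subset_span ⟨j, rfl⟩) μ
    have hqh : (weightedHomogeneousComponent x μ (f j)).IsHomogeneous (d j) :=
      comp_hom _ _ (h.hf j)
    have hqw : IsWeightedHomogeneous x (weightedHomogeneousComponent x μ (f j)) μ :=
      weightedHomogeneousComponent_isWeightedHomogeneous μ (f j)
    have h0 := hρ j
    obtain ⟨m, hm⟩ := hN (e - d j) (by omega) (χ - μ)
    have hmw : mon m w ≠ 0 := mon_ne_zero hm.2.2
    refine F.cancel w m _ hmw (hw _ hqI) ?_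
    refine F.two hc' (x := x) ?_ ?_ ?_
    · have h1 := (isHomogeneous_monomial (1 : ℂ) hm.1).mul hqh
      rwa [show e - d j + d j = e by omega] at h1
    · have h1 := (isWeightedHomogeneous_monomial x m (1 : ℂ) hm.2.1).mul hqw
      rwa [sub_add_cancel] at h1
    · rw [map_mul, hw _ hqI, mul_zero]
  have hE : ∀ p ∈ I, F.E w p = 0 := by
    intro p hp
    have h1 : I ≤ F.ker w := by
      rw [h.hI, Ideal.span_le]
      rintro _ ⟨j, rfl⟩
      exact F.mem_ker.2 ⟨(h.zero w).1 hw j, hj j⟩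
    exact (F.mem_ker.1 (h1 hp)).2
  have hA := fun s => h.constA F hw0 hw hE hi0 hmin he hc' s
  exact extend hZ F (by omega) (fun φ => hN (e - 1) (by omega) φ) (hN e (by omega) χ) hc hA s

/-- all weights occur in small degrees at a point of minimal support -/
theorem Eqs.weights_of_top (h : Eqs x I c f d) {w : Fin n → ℂ} (hw0 : w ≠ 0)
    (hw : ∀ p ∈ I, eval w p = 0) {i0 : Fin n} {ρ : ℕ}
    (htop : ∀ t, ρ < t → ∀ p : MvPolynomial (Fin n) ℂ, p.IsHomogeneous t →
      p ∈ I ⊔ Ideal.span (X '' {i | w i = 0}) ⊔ Ideal.span {X i0}) (k : ℕ) (hk : ρ ≤ k)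
    (φ : M) : ∃ m, U x {i | w i = 0} k φ m := by
  classical
  have key : ∀ b k, ρ ≤ k → ∑ j, (d j - 1) ≤ k + b → ∀ φ,
      ∃ m, U x {i | w i = 0} k φ m := by
    intro b
    induction b with
    | zero =>
      intro k _ h2 φ
      exact h.ex w hw0 hw k h2 φ
    | succ b ih =>
      intro k hk h2 φ
      obtain ⟨m, hm⟩ := ih (k + 1) (by omega) (by omega) (φ + x i0)
      have hmh : (monomial m (1 : ℂ)).IsHomogeneous (1 + k) :=
        isHomogeneous_monomial _ (by rw [hm.1, add_comm])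
      obtain ⟨q, hq, hmq⟩ := mem_sup_hom (Hom1 h.hom w) (isHomogeneous_X ℂ i0) hmh
        (htop _ (by omega) _ hmh)
      have h3 := WH1 h.wh w _ hmq (φ + x i0)
      have h4 : IsWeightedHomogeneous x (monomial m (1 : ℂ)) (φ + x i0) :=
        isWeightedHomogeneous_monomial _ m 1 hm.2.1
      rw [map_sub, comp_X_mul, h4.weightedHomogeneousComponent_same] at h3
      set q' := weightedHomogeneousComponent x φ q with hq'
      have hqh : q'.IsHomogeneous k := comp_hom _ φ hq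
      have hqw : IsWeightedHomogeneous x q' φ :=
        weightedHomogeneousComponent_isWeightedHomogeneous φ q
      have h5 := ker1 hw _ h3
      rw [map_sub, map_mul, eval_mono, sub_eq_zero] at h5
      have h6 : eval w q' ≠ 0 := by
        intro h6
        rw [h6, mul_zero] at h5
        exact mon_ne_zero hm.2.2 h5
      rw [eval_eq_mon] at h6
      obtain ⟨μ, hμ, hμ2⟩ := Finset.exists_ne_zero_of_sum_ne_zero h6
      have hμ' := mem_support_iff.1 hμ
      have hμw : mon μ w ≠ 0 := fun h => hμ2 (by rw [h, mul_zero])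
      refine ⟨μ, ?_, hqw hμ', fun i hi => ?_⟩
      · by_contra h
        exact hμ' (hqh.coeff_eq_zero h)
      · by_contra h1
        exact mon_ne hμw h1 hi
  exact key (∑ j, (d j - 1)) k hk (by omega) φ

end

end Pool.Agent.J6H82.CIQ
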