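import Pool.Agent.J6H82.CIQ.Key2
import Pool.Agent.J6H82.CIQ.Mon

/-!
# All weights occur in small degrees on infinite coordinate sections
-/

set_option autoImplicit false

namespace Pool.Agent.J6H82.CIQ

open MvPolynomial Module Pool.Agent.TH144.MB

section
variable {n : ℕ}

/-- the points (as lines) of the zero set of `I` in the coordinate subspace of `J` -/
def Ln (I : Ideal (MvPolynomial (Fin n) ℂ)) (J : Finset (Fin n)) :
    Set (Submodule ℂ (Fin n → ℂ)) :=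
  {L | ∃ v, v ≠ 0 ∧ (∀ p ∈ I, eval v p = 0) ∧ (∀ i, i ∉ J → v i = 0) ∧
    L = Submodule.span ℂ {v}}

variable {I : Ideal (MvPolynomial (Fin n) ℂ)} {J : Finset (Fin n)}

theorem exists_rep (h : (Ln I J).Finite) : ∃ P : Finset (Fin n → ℂ),
    (∀ v ∈ P, v ≠ 0 ∧ (∀ p ∈ I, eval v p = 0) ∧ ∀ i, i ∉ J → v i = 0) ∧
    ∀ v : Fin n → ℂ, v ≠ 0 → (∀ p ∈ I, eval v p = 0) → (∀ i, i ∉ J → v i = 0) →
      ∃ w ∈ P, ∃ b : ℂ, b ≠ 0 ∧ v = b • w := by
  classical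
  have h1 : ∀ L : h.toFinset, ∃ v : Fin n → ℂ, v ≠ 0 ∧ (∀ p ∈ I, eval v p = 0) ∧
      (∀ i, i ∉ J → v i = 0) ∧ L.1 = Submodule.span ℂ {v} := by
    intro L
    exact (h.mem_toFinset).1 L.2
  choose r hr1 hr2 hr3 hr4 using h1
  refine ⟨Finset.univ.image r, ?_, ?_⟩
  · intro v hv
    obtain ⟨L, -, rfl⟩ := Finset.mem_image.1 hv
    exact ⟨hr1 L, hr2 L, hr3 L⟩
  · intro v hv0 hv hvJ
    have h2 : Submodule.span ℂ {v} ∈ h.toFinset := (h.mem_toFinset).2 ⟨v, hv0, hv, hvJ, rfl⟩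
    refine ⟨r ⟨_, h2⟩, Finset.mem_image_of_mem _ (Finset.mem_univ _), ?_⟩
    have h3 : v ∈ Submodule.span ℂ {r ⟨_, h2⟩} := by
      rw [← hr4 ⟨_, h2⟩]
      exact Submodule.mem_span_singleton_self v
    obtain ⟨b, hb⟩ := Submodule.mem_span_singleton.1 h3
    refine ⟨b, ?_, hb.symm⟩
    rintro rfl
    rw [zero_smul] at hb
    exact hv0 hb.symm

theorem eval_rep {u : MvPolynomial (Fin n) ℂ} {k : ℕ} (hu : u.IsHomogeneous k) {b : ℂ} (hb : b ≠ 0)
    {w : Fin n → ℂ} (h : eval w u ≠ 0) : eval (b • w) u ≠ 0 := by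
  have h1 : (b • w) = fun i => b * w i := rfl
  rw [h1, eval_smul' hu]
  exact mul_ne_zero (pow_ne_zero _ hb) h

theorem exists_linear (h : (Ln I J).Finite) : ∃ l : Fin n → ℂ, ∀ v : Fin n → ℂ, v ≠ 0 →
    (∀ p ∈ I, eval v p = 0) → (∀ i, i ∉ J → v i = 0) → eval v (lin l) ≠ 0 := by
  obtain ⟨P, hP1, hP2⟩ := exists_rep h
  obtain ⟨l, hl⟩ := exists_avoid P fun v hv => (hP1 v hv).1
  refine ⟨l, fun v hv0 hv hvJ => ?_⟩
  obtain ⟨w, hw, b, hb, rfl⟩ := hP2 v hv0 hv hvJ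
  exact eval_rep (lin_hom l) hb (hl w hw)

theorem exists_wform {M : Type} [AddCommGroup M] (h : (Ln I J).Finite) (x : Fin n → M) (k : ℕ)
    (ψ : M) (hm : ∀ v : Fin n → ℂ, v ≠ 0 → (∀ p ∈ I, eval v p = 0) →
      ∃ m, U x {i | v i = 0} k ψ m) :
    ∃ u : MvPolynomial (Fin n) ℂ, u.IsHomogeneous k ∧ IsWeightedHomogeneous x u ψ ∧
      ∀ v : Fin n → ℂ, v ≠ 0 → (∀ p ∈ I, eval v p = 0) → (∀ i, i ∉ J → v i = 0) →
        eval v u ≠ 0 := by
  obtain ⟨P, hP1, hP2⟩ := exists_rep h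
  obtain ⟨u, hu, hu2⟩ := Module.Dual.exists_forall_mem_ne_zero_of_forall_exists (T ℂ x k ψ)
    (fun v : P => ((aeval v.1 : MvPolynomial (Fin n) ℂ →ₐ[ℂ] ℂ).toLinearMap :
      Module.Dual ℂ (MvPolynomial (Fin n) ℂ))) (by
      intro v
      obtain ⟨h1, h2, h3⟩ := hP1 v.1 v.2
      obtain ⟨m, hm1⟩ := hm v.1 h1 h2
      refine ⟨monomial m 1, mem_T.2 ⟨isHomogeneous_monomial _ hm1.1,
        isWeightedHomogeneous_monomial _ m 1 hm1.2.1⟩, ?_⟩
      have h4 := mon_ne_zero hm1.2.2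
      rw [← eval_mono] at h4
      exact h4)
  obtain ⟨h1, h2⟩ := mem_T.1 hu
  refine ⟨u, h1, h2, fun v hv0 hv hvJ => ?_⟩
  obtain ⟨w, hw, b, hb, rfl⟩ := hP2 v hv0 hv hvJ
  exact eval_rep h1 hb (hu2 ⟨w, hw⟩)

end

section
variable {n : ℕ} {M : Type} [AddCommGroup M] {x : Fin n → M}
  {I : Ideal (MvPolynomial (Fin n) ℂ)} {c : ℕ}
  {f : Fin c → MvPolynomial (Fin n) ℂ} {d : Fin c → ℕ}

theorem coe_compl (J : Finset (Fin n)) : {i | i ∉ J} = ((Jᶜ : Finset (Fin n)) : Set (Fin n)) := by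
  ext i; simp

/-- `|J| - 2` forms of small degrees define on the coordinate subspace of `J` a subset of the zero
set of `I` -/
def Gens (x : Fin n → M) (I : Ideal (MvPolynomial (Fin n) ℂ)) (ρ : ℕ) (J : Finset (Fin n)) :
    Prop :=
  ∃ fs : List (MvPolynomial (Fin n) ℂ × ℕ), (∀ y ∈ fs, y.1.IsHomogeneous y.2 ∧ 0 < y.2) ∧
    J.card = fs.length + 2 ∧ (fs.map fun y => y.2 - 1).sum ≤ ρ ∧
    WH x (Ideal.span {g | g ∈ fs.map Prod.fst} ⊔ Ideal.span (X '' {i | i ∉ J})) ∧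
    ∀ v : Fin n → ℂ, (∀ y ∈ fs, eval v y.1 = 0) → (∀ i, i ∉ J → v i = 0) → ∀ p ∈ I, eval v p = 0

/-- all weights occur in small degrees on an infinite coordinate section of minimal dimension -/
theorem Eqs.hexE_min (h : Eqs x I c f d) [Fintype M] {J : Finset (Fin n)}
    (hJ : ¬ (Ln I J).Finite) (hmin : ∀ a ∈ J, (Ln I (J.erase a)).Finite)
    (hE : Gens x I (∑ j, (d j - 1)) J) {s : ℕ} (hs : ∑ j, (d j - 1) ≤ 2 * s + 1)
    (φ : M) : ∃ m : Fin n →₀ ℕ, m.degree = s ∧ Finsupp.weight x m = φ ∧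
      ∀ i, i ∉ J → m i = 0 := by
  classical
  obtain ⟨fs, hfs1, hlen, hsum, hAW, hz⟩ := hE
  have hPt : ∀ a v, Pt fs J a v → v ≠ 0 ∧ (∀ p ∈ I, eval v p = 0) ∧
      ∀ i, i ∉ J.erase a → v i = 0 := by
    rintro a v ⟨h1, h2, h3, h4⟩
    refine ⟨h1, hz v h2 h3, fun i hi => ?_⟩
    by_cases hia : i = a
    · rw [hia, h4]
    · refine h3 i fun hiJ => hi ?_
      exact Finset.mem_erase.2 ⟨hia, hiJ⟩
  obtain ⟨v, hv0, hv, hvJ⟩ : ∃ v : Fin n → ℂ, v ≠ 0 ∧ (∀ p ∈ I, eval v p = 0) ∧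
      ∀ i, i ∉ J → v i = 0 := by
    by_contra hcon
    apply hJ
    have h1 : Ln I J = ∅ := by
      rw [Set.eq_empty_iff_forall_notMem]
      rintro L ⟨v, h1, h2, h3, -⟩
      exact hcon ⟨v, h1, h2, h3⟩
    rw [h1]
    exact Set.finite_empty
  have hAH : Hom (Ideal.span {g | g ∈ fs.map Prod.fst} ⊔ Ideal.span (X '' {i | i ∉ J})) := by
    rw [coe_compl]
    refine Hom_union (hom_span ?_) _
    rintro g hg
    obtain ⟨y, hy, rfl⟩ := List.mem_map.1 hg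
    exact ⟨_, (hfs1 y hy).1⟩
  exact key2 fs hfs1 (w := x) J hlen rfl hAH hAW
    (N0 := ∑ j, (d j - 1) + 1) (Nat.succ_pos _)
    (fun a ha => by
      obtain ⟨l, hl⟩ := exists_linear (hmin a ha)
      refine ⟨l, fun v hv => ?_⟩
      obtain ⟨h1, h2, h3⟩ := hPt a v hv
      exact hl v h1 h2 h3)
    (fun a ha k hk ψ => by
      obtain ⟨u, hu1, hu2, hu3⟩ := exists_wform (hmin a ha) x k ψ
        (fun v hv0 hv => h.ex v hv0 hv k (by omega) ψ)
      refine ⟨u, hu1, hu2, fun v hv => ?_⟩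
      obtain ⟨h1, h2, h3⟩ := hPt a v hv
      exact hu3 v h1 h2 h3)
    (fun φ => by
      obtain ⟨m, hm⟩ := h.ex v hv0 hv (∑ j, (d j - 1) + 1) (by omega) φ
      refine ⟨m, hm.1, hm.2.1, fun i hi => ?_⟩
      by_contra h1
      exact hi (hm.2.2 i (hvJ i h1)))
    (hsum.trans hs) φ

/-- the condition on the minimal infinite coordinate sections -/
def Good (x : Fin n → M) (I : Ideal (MvPolynomial (Fin n) ℂ)) (ρ : ℕ) : Prop :=
  ∀ J : Finset (Fin n), ¬ (Ln I J).Finite → (∀ a ∈ J, (Ln I (J.erase a)).Finite) → Gens x I ρ J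

theorem Eqs.hexE (h : Eqs x I c f d) [Fintype M]
    (hE : Good x I (∑ j, (d j - 1))) {s : ℕ}
    (hs : ∑ j, (d j - 1) ≤ 2 * s + 1) (φ : M) (J : Finset (Fin n)) (hJ : ¬ (Ln I J).Finite) :
    ∃ m : Fin n →₀ ℕ, m.degree = s ∧ Finsupp.weight x m = φ ∧ ∀ i, i ∉ J → m i = 0 := by
  classical
  induction J using Finset.strongInduction with
  | H J ih =>
    by_cases h1 : ∀ a ∈ J, (Ln I (J.erase a)).Finite
    · exact h.hexE_min hJ h1 (hE J hJ h1) hs φ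
    · push Not at h1
      obtain ⟨a, ha, h2⟩ := h1
      obtain ⟨m, hm1, hm2, hm3⟩ := ih (J.erase a) (Finset.erase_ssubset ha) h2
      exact ⟨m, hm1, hm2, fun i hi => hm3 i fun h3 => hi (Finset.mem_of_mem_erase h3)⟩

/-- coordinate sections of dimension at least one are defined by the given forms -/
theorem Eqs.gens_full (h : Eqs x I c f d) {J : Finset (Fin n)} (hJ : c + 2 ≤ J.card) :
    Gens x I (∑ j, (d j - 1)) J := by
  classical
  set fs : List (MvPolynomial (Fin n) ℂ × ℕ) :=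
    List.ofFn (fun j => (f j, d j)) ++ List.replicate (J.card - 2 - c) (0, 1) with hfs
  have hmem : ∀ y ∈ fs, (∃ j, y = (f j, d j)) ∨ y = (0, 1) := by
    intro y hy
    rw [hfs, List.mem_append, List.mem_ofFn] at hy
    rcases hy with ⟨j, rfl⟩ | hy
    · exact Or.inl ⟨j, rfl⟩
    · exact Or.inr (List.eq_of_mem_replicate hy)
  have hmem2 : ∀ j, (f j, d j) ∈ fs := by
    intro j
    rw [hfs, List.mem_append, List.mem_ofFn]
    exact Or.inl ⟨j, rfl⟩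
  have hA : Ideal.span {g | g ∈ fs.map Prod.fst} = I := by
    apply le_antisymm
    · rw [Ideal.span_le]
      intro g hg
      obtain ⟨y, hy, rfl⟩ := List.mem_map.1 hg
      rcases hmem y hy with ⟨j, rfl⟩ | rfl
      · rw [h.hI]
        exact Ideal.subset_span ⟨j, rfl⟩
      · exact Ideal.zero_mem _
    · rw [h.hI, Ideal.span_le]
      rintro _ ⟨j, rfl⟩
      exact Ideal.subset_span (List.mem_map.2 ⟨_, hmem2 j, rfl⟩)
  refine ⟨fs, ?_, ?_, ?_, ?_, ?_⟩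
  · intro y hy
    rcases hmem y hy with ⟨j, rfl⟩ | rfl
    · exact ⟨h.hf j, h.hd j⟩
    · exact ⟨isHomogeneous_zero _ _ _, one_pos⟩
  · rw [hfs, List.length_append, List.length_ofFn, List.length_replicate]
    omega
  · rw [hfs, List.map_append, List.sum_append, List.map_ofFn, List.map_replicate,
      List.sum_replicate, List.sum_ofFn]
    simp
  · rw [hA, coe_compl]
    exact WH_union h.wh _
  · intro v hv _
    exact (h.zero v).2 fun j => hv _ (hmem2 j)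

/-- functions on monomials on infinite coordinate sections -/
theorem Eqs.constE (h : Eqs x I c f d) [Fintype M] (hE : Good x I (∑ j, (d j - 1))) (F : Fn n) {y : Fin n → ℂ}
    (hy0 : y ≠ 0) {J : Finset (Fin n)} (hyJ : ∀ i ∈ J, y i ≠ 0) (hJ : ¬ (Ln I J).Finite) {e : ℕ}
    (he : ∑ j, (d j - 1) + 1 ≤ e) {χ : M}
    (hc : ∀ m m', U x {i | y i = 0} e χ m → U x {i | y i = 0} e χ m' →
      F.r m = F.r m') (s : ℕ) : ∀ φ m m', U x {i | y i = 0} s φ m →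
      U x {i | y i = 0} s φ m' → F.r m = F.r m' := by
  obtain ⟨i0, hi0⟩ : ∃ i, y i ≠ 0 := by
    by_contra hc
    push Not at hc
    exact hy0 (funext hc)
  refine path (w := x) (Z := {i | y i = 0}) F.r (fun m m' τ _ _ _ => F.add m m' τ)
    (t := (∑ j, (d j - 1)) / 2) (e := e) (by omega)
    (fun s hs φ => ?_) (j := i0) hi0 hc s
  obtain ⟨m, h1, h2, h3⟩ := h.hexE hE (s := s) (by omega) φ J hJ
  exact ⟨m, h1, h2, fun i hi => h3 i fun hiJ => hyJ i hiJ hi⟩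

end

end Pool.Agent.J6H82.CIQ
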