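import Pool.Agent.J6H82.CIQ.Wt
import Pool.Agent.TH144.MB.Tan

/-!
# Weights by the characters of a finite group
-/

set_option autoImplicit false

namespace Pool.Agent.J6H82.CIQ

open MvPolynomial Module Pool.Agent.TH144.MB

variable {G : Type} [Group G] {n : ℕ}

/-- the weights of the coordinates -/
def wt (α : Fin n → G →* ℂˣ) (i : Fin n) : Additive (G →* ℂˣ) := Additive.ofMul (α i)

theorem weight_wt (α : Fin n → G →* ℂˣ) (m : Fin n →₀ ℕ) :
    Finsupp.weight (wt α) m = Additive.ofMul (chr α m) := by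
  rw [Finsupp.weight_apply, Finsupp.sum_fintype _ _ (by simp)]
  simp only [wt, chr, ofMul_prod]
  rfl

theorem weight_wt_iff {α : Fin n → G →* ℂˣ} {m : Fin n →₀ ℕ} {χ : G →* ℂˣ} :
    Finsupp.weight (wt α) m = Additive.ofMul χ ↔ chr α m = χ := by
  rw [weight_wt]
  exact Additive.ofMul.injective.eq_iff

theorem finite_chars (G : Type) [Group G] [Finite G] : Finite (Additive (G →* ℂˣ)) := by
  have := Fintype.ofFinite G
  have h1 : Finite (G →* ℂ) := by
    have h2 := linearIndependent_monoidHom G ℂ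
    exact h2.finite_of_isNoetherian
  have h3 : Function.Injective fun χ : G →* ℂˣ => (Units.coeHom ℂ).comp χ := by
    intro χ ψ h
    ext g
    exact DFunLike.congr_fun h g
  have := Finite.of_injective _ h3
  exact inferInstanceAs (Finite (G →* ℂˣ))

theorem act_monomial (α : Fin n → G →* ℂˣ) (g : G) (m : Fin n →₀ ℕ) (c : ℂ) :
    act α g (monomial m c) = monomial m ((chr α m g : ℂ) * c) := by
  classical
  unfold act
  rw [bind₁_monomial, chr_apply]
  rw [monomial_eq (s := m) (a := _ * c), Finsupp.prod]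
  simp only [mul_pow, Finset.prod_mul_distrib, ← C_pow]
  rw [← map_prod, map_mul, Units.coe_prod]
  have h1 : ∏ i ∈ m.support, (α i g : ℂ) ^ m i = ∏ i, (((α i g) ^ m i : ℂˣ) : ℂ) := by
    refine Finset.prod_subset (Finset.subset_univ _) fun i _ hi => ?_
    rw [Finsupp.notMem_support_iff.1 hi]
    simp
  rw [h1]
  ring

theorem coeff_act (α : Fin n → G →* ℂˣ) (g : G) (m : Fin n →₀ ℕ) (p : MvPolynomial (Fin n) ℂ) :
    coeff m (act α g p) = (chr α m g : ℂ) * coeff m p := by
  classical
  induction p using MvPolynomial.induction_on' with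
  | monomial u a =>
    rw [act_monomial, coeff_monomial, coeff_monomial]
    split_ifs with h
    · rw [h]
    · rw [mul_zero]
  | add p q hp hq => rw [map_add, coeff_add, coeff_add, hp, hq, mul_add]

theorem comp_eq [Fintype G] (α : Fin n → G →* ℂˣ) (χ : G →* ℂˣ) (p : MvPolynomial (Fin n) ℂ) :
    C (Fintype.card G : ℂ) * weightedHomogeneousComponent (wt α) (Additive.ofMul χ) p =
      ∑ g, C ((((χ g)⁻¹ : ℂˣ) : ℂ)) * act α g p := by
  classical
  ext m
  rw [coeff_C_mul, coeff_weightedHomogeneousComponent, coeff_sum]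
  simp only [coeff_C_mul, coeff_act, ← mul_assoc]
  rw [← Finset.sum_mul, sum_char]
  by_cases h : chr α m = χ
  · rw [if_pos h, if_pos (weight_wt_iff.2 h)]
  · rw [if_neg h, if_neg fun h' => h (weight_wt_iff.1 h'), mul_zero, zero_mul]

theorem WH_of_stable [Finite G] {α : Fin n → G →* ℂˣ} {I : Ideal (MvPolynomial (Fin n) ℂ)}
    (hst : ∀ g, ∀ p ∈ I, act α g p ∈ I) : WH (wt α) I := by
  classical
  have := Fintype.ofFinite G
  intro p hp φ
  have h1 := comp_eq α φ.toMul p
  have h2 : (Fintype.card G : ℂ) ≠ 0 := Nat.cast_ne_zero.2 Fintype.card_ne_zero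
  have h3 : C (Fintype.card G : ℂ) * weightedHomogeneousComponent (wt α) φ p ∈ I := by
    have h4 : Additive.ofMul (Additive.toMul φ) = φ := rfl
    rw [h4] at h1
    rw [h1]
    exact Ideal.sum_mem _ fun g _ => I.mul_mem_left _ (hst g p hp)
  have h4 := I.mul_mem_left (C ((Fintype.card G : ℂ)⁻¹)) h3
  rwa [← mul_assoc, ← C_mul, inv_mul_cancel₀ h2, C_1, one_mul] at h4

/-- the values of the weight components at a point -/
theorem eval_comp [Fintype G] (α : Fin n → G →* ℂˣ) (χ : G →* ℂˣ) (p : MvPolynomial (Fin n) ℂ)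
    (v : Fin n → ℂ) : (Fintype.card G : ℂ) *
      eval v (weightedHomogeneousComponent (wt α) (Additive.ofMul χ) p) = Lam α χ v p := by
  have h1 := congrArg (eval v) (comp_eq α χ p)
  rw [map_mul, eval_C, map_sum] at h1
  rw [h1]
  unfold Lam
  exact Finset.sum_congr rfl fun g _ => by rw [map_mul, eval_C, eval_act]

end Pool.Agent.J6H82.CIQ
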