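import Pool.Agent.J6H82.CIQ.Dim

/-!
# Weight spaces
-/

set_option autoImplicit false

namespace Pool.Agent.J6H82.CIQ

open MvPolynomial Module Pool.Agent.TH144.MB

variable {σ : Type} {K : Type} [Field K] {M : Type} [AddCommGroup M]

/-- the ideal contains the weight components of its elements -/
def WH (w : σ → M) (I : Ideal (MvPolynomial σ K)) : Prop :=
  ∀ p ∈ I, ∀ φ, weightedHomogeneousComponent w φ p ∈ I

theorem comp_X_mul (w : σ → M) (a : σ) (φ : M) (q : MvPolynomial σ K) :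
    weightedHomogeneousComponent w (φ + w a) (X a * q) =
      X a * weightedHomogeneousComponent w φ q := by
  classical
  ext m
  rw [coeff_weightedHomogeneousComponent, coeff_X_mul', coeff_X_mul']
  by_cases ha : a ∈ m.support
  · rw [if_pos ha, if_pos ha, coeff_weightedHomogeneousComponent]
    have h1 := Finsupp.weight_sub_single_add (w := w) (Finsupp.mem_support_iff.1 ha)
    by_cases h2 : Finsupp.weight w (m - Finsupp.single a 1) = φ
    · rw [if_pos h2, if_pos (by rw [← h1, h2])]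
    · rw [if_neg h2, if_neg]
      intro h3
      apply h2
      rw [← h1] at h3
      exact add_right_cancel h3
  · rw [if_neg ha, if_neg ha, ite_self]

theorem comp_hom (w : σ → M) (φ : M) {p : MvPolynomial σ K} {s : ℕ} (hp : p.IsHomogeneous s) :
    (weightedHomogeneousComponent w φ p).IsHomogeneous s := by
  classical
  intro m hm
  rw [coeff_weightedHomogeneousComponent] at hm
  apply hp
  intro h
  apply hm
  rw [h, ite_self]

theorem WH_sup {w : σ → M} {I : Ideal (MvPolynomial σ K)} (hI : WH w I) (a : σ) :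
    WH w (I ⊔ Ideal.span {X a}) := by
  intro p hp φ
  obtain ⟨q, hq⟩ := mem_sup_iff.1 hp
  refine mem_sup_iff.2 ⟨weightedHomogeneousComponent w (φ - w a) q, ?_⟩
  have h1 := hI _ hq φ
  rw [map_sub] at h1
  have h2 := comp_X_mul w a (φ - w a) q
  rw [sub_add_cancel] at h2
  rwa [h2] at h1

/-- the forms of degree `s` and weight `φ` -/
noncomputable def T (K : Type) [Field K] (w : σ → M) (s : ℕ) (φ : M) : Submodule K (MvPolynomial σ K) :=
  homogeneousSubmodule σ K s ⊓ weightedHomogeneousSubmodule K w φ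

theorem mem_T {w : σ → M} {s : ℕ} {φ : M} {p : MvPolynomial σ K} :
    p ∈ T K w s φ ↔ p.IsHomogeneous s ∧ IsWeightedHomogeneous w p φ := by
  rw [T, Submodule.mem_inf, mem_homogeneousSubmodule, mem_weightedHomogeneousSubmodule]

/-- the forms of degree `s` and weight `φ` modulo `I` -/
noncomputable def V (w : σ → M) (I : Ideal (MvPolynomial σ K)) (s : ℕ) (φ : M) :
    Submodule K (MvPolynomial σ K ⧸ I) :=
  (T K w s φ).map (Ideal.Quotient.mkₐ K I).toLinearMap

theorem mem_V {w : σ → M} {I : Ideal (MvPolynomial σ K)} {s : ℕ} {φ : M}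
    {x : MvPolynomial σ K ⧸ I} :
    x ∈ V w I s φ ↔ ∃ p : MvPolynomial σ K, (p.IsHomogeneous s ∧ IsWeightedHomogeneous w p φ) ∧
      Ideal.Quotient.mk I p = x := by
  constructor
  · rintro ⟨p, hp, rfl⟩
    exact ⟨p, mem_T.1 hp, rfl⟩
  · rintro ⟨p, hp, rfl⟩
    exact ⟨p, mem_T.2 hp, rfl⟩

theorem V_le (w : σ → M) (I : Ideal (MvPolynomial σ K)) (s : ℕ) (φ : M) : V w I s φ ≤ W I s := by
  intro x hx
  obtain ⟨p, hp, rfl⟩ := mem_V.1 hx
  exact mem_W.2 ⟨p, hp.1, rfl⟩

instance [Finite σ] (w : σ → M) (I : Ideal (MvPolynomial σ K)) (s : ℕ) (φ : M) :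
    FiniteDimensional K (V w I s φ) :=
  Submodule.finiteDimensional_of_le (V_le w I s φ)

theorem V_map_le (w : σ → M) (I : Ideal (MvPolynomial σ K)) (a : σ) (s : ℕ) (φ : M) :
    (V w I s φ).map (mu (X a) I) ≤ V w I (s + 1) (φ + w a) := by
  rintro _ ⟨x, hx, rfl⟩
  obtain ⟨p, hp, rfl⟩ := mem_V.1 hx
  rw [mu_mk]
  refine mem_V.2 ⟨_, ⟨?_, ?_⟩, rfl⟩
  · rw [add_comm]; exact (isHomogeneous_X K a).mul hp.1
  · rw [add_comm]; exact (isWeightedHomogeneous_X K w a).mul hp.2

theorem V_mono [Finite σ] (w : σ → M) {I : Ideal (MvPolynomial σ K)} {a : σ} (h : NZ (X a) I)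
    (s : ℕ) (φ : M) : finrank K (V w I s φ) ≤ finrank K (V w I (s + 1) (φ + w a)) := by
  rw [(Submodule.equivMapOfInjective (mu (X a) I) h.inj (V w I s φ)).finrank_eq]
  exact Submodule.finrank_mono (V_map_le w I a s φ)

theorem V_exact [Finite σ] {w : σ → M} {I : Ideal (MvPolynomial σ K)} (hI : Hom I) (hw : WH w I)
    {a : σ} (h : NZ (X a) I) (s : ℕ) (φ : M) :
    finrank K (V w I (s + 1) (φ + w a)) =
      finrank K (V w I s φ) + finrank K (V w (I ⊔ Ideal.span {X a}) (s + 1) (φ + w a)) := by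
  have h1 : ∀ x ∈ V w I (s + 1) (φ + w a),
      (Ideal.Quotient.factorₐ K (le_sup_left : I ≤ I ⊔ Ideal.span {X a})).toLinearMap x
        ∈ V w (I ⊔ Ideal.span {X a}) (s + 1) (φ + w a) := by
    intro x hx
    obtain ⟨p, hp, rfl⟩ := mem_V.1 hx
    exact mem_V.2 ⟨p, hp, rfl⟩
  set θ := (Ideal.Quotient.factorₐ K
    (le_sup_left : I ≤ I ⊔ Ideal.span {X a})).toLinearMap.restrict h1 with hθ
  have h2 := LinearMap.finrank_range_add_finrank_ker θ
  have h3 : LinearMap.range θ = ⊤ := by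
    rw [LinearMap.range_eq_top]
    rintro ⟨x, hx⟩
    obtain ⟨p, hp, rfl⟩ := mem_V.1 hx
    exact ⟨⟨_, mem_V.2 ⟨p, hp, rfl⟩⟩, Subtype.ext rfl⟩
  have h4 : (LinearMap.ker θ).map (V w I (s + 1) (φ + w a)).subtype =
      (V w I s φ).map (mu (X a) I) := by
    apply le_antisymm
    · rintro _ ⟨⟨x, hx⟩, hk, rfl⟩
      obtain ⟨p, hp, rfl⟩ := mem_V.1 hx
      have h6 : Ideal.Quotient.mk (I ⊔ Ideal.span {X a}) p = 0 := congrArg Subtype.val hk
      rw [Ideal.Quotient.eq_zero_iff_mem] at h6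
      obtain ⟨q, hq, hpq⟩ := mem_sup_hom hI (isHomogeneous_X K a)
        (by rw [add_comm]; exact hp.1) h6
      refine ⟨Ideal.Quotient.mk I (weightedHomogeneousComponent w φ q),
        mem_V.2 ⟨_, ⟨comp_hom w φ hq, weightedHomogeneousComponent_isWeightedHomogeneous φ q⟩,
        rfl⟩, ?_⟩
      rw [mu_mk, eq_comm]
      refine Ideal.Quotient.eq.2 ?_
      have h7 := hw _ hpq (φ + w a)
      rwa [map_sub, comp_X_mul, hp.2.weightedHomogeneousComponent_same] at h7
    · rintro _ ⟨x, hx, rfl⟩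
      have hx' := V_map_le w I a s φ ⟨x, hx, rfl⟩
      obtain ⟨q, hq, rfl⟩ := mem_V.1 hx
      rw [mu_mk] at hx' ⊢
      refine ⟨⟨Ideal.Quotient.mk I (X a * q), hx'⟩, ?_, rfl⟩
      show θ _ = 0
      refine Subtype.ext ?_
      show Ideal.Quotient.mk (I ⊔ Ideal.span {X a}) (X a * q) = 0
      rw [Ideal.Quotient.eq_zero_iff_mem]
      exact Ideal.mul_mem_right _ _ (Ideal.mem_sup_right (Ideal.mem_span_singleton_self _))
  have h5 : finrank K (LinearMap.ker θ) = finrank K (V w I s φ) := by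
    rw [(Submodule.equivMapOfInjective _ (Submodule.injective_subtype _)
      (LinearMap.ker θ)).finrank_eq, h4]
    exact (Submodule.equivMapOfInjective (mu (X a) I) h.inj (V w I s φ)).finrank_eq.symm
  rw [h3, finrank_top, h5] at h2
  omega

theorem sum_comp [Fintype M] (w : σ → M) (p : MvPolynomial σ K) :
    ∑ φ, weightedHomogeneousComponent w φ p = p := by
  classical
  ext m
  rw [coeff_sum]
  simp only [coeff_weightedHomogeneousComponent]
  rw [Finset.sum_ite_eq, if_pos (Finset.mem_univ _)]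

/-- the dimension of a homogeneous part is the sum of the dimensions of the weight spaces -/
theorem V_total [Finite σ] [Fintype M] {w : σ → M} {I : Ideal (MvPolynomial σ K)} (hw : WH w I)
    (s : ℕ) : ∑ φ, finrank K (V w I s φ) = finrank K (W I s) := by
  classical
  rw [← finrank_pi_fintype]
  let θ : (∀ φ : M, V w I s φ) →ₗ[K] W I s :=
    LinearMap.codRestrict (W I s)
      (∑ φ, (V w I s φ).subtype ∘ₗ LinearMap.proj φ) (by
        intro x
        rw [LinearMap.sum_apply]
        exact Submodule.sum_mem _ fun φ _ => V_le w I s φ (x φ).2)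
  refine (LinearEquiv.ofBijective θ ⟨?_, ?_⟩).finrank_eq
  · rw [← LinearMap.ker_eq_bot, LinearMap.ker_eq_bot']
    intro x hx
    have h1 : ∀ φ, ∃ p : MvPolynomial σ K, (p.IsHomogeneous s ∧ IsWeightedHomogeneous w p φ) ∧
        Ideal.Quotient.mk I p = x φ := fun φ => mem_V.1 (x φ).2
    choose p hp hpx using h1
    have h2 : ∑ φ, p φ ∈ I := by
      rw [← Ideal.Quotient.eq_zero_iff_mem, map_sum]
      have h3 := congrArg Subtype.val hx
      have h4 : (θ x : MvPolynomial σ K ⧸ I) = ∑ φ, (x φ : MvPolynomial σ K ⧸ I) := by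
        show (∑ φ, (V w I s φ).subtype ∘ₗ LinearMap.proj φ) x = _
        rw [LinearMap.sum_apply]
        rfl
      rw [h4] at h3
      rw [← show (∑ φ, (x φ : MvPolynomial σ K ⧸ I)) = ∑ φ, Ideal.Quotient.mk I (p φ) from
        Finset.sum_congr rfl fun φ _ => (hpx φ).symm]
      exact h3
    funext φ
    refine Subtype.ext ?_
    rw [← hpx φ]
    refine Ideal.Quotient.eq_zero_iff_mem.2 ?_
    have h3 := hw _ h2 φ
    rw [map_sum, Finset.sum_eq_single φ] at h3
    · rwa [(hp φ).2.weightedHomogeneousComponent_same] at h3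
    · intro ψ _ hψ
      exact (hp ψ).2.weightedHomogeneousComponent_ne _ (Ne.symm hψ)
    · intro h; exact absurd (Finset.mem_univ _) h
  · rintro ⟨x, hx⟩
    obtain ⟨p, hp, rfl⟩ := mem_W.1 hx
    refine ⟨fun φ => ⟨Ideal.Quotient.mk I (weightedHomogeneousComponent w φ p),
      mem_V.2 ⟨_, ⟨comp_hom w φ hp, weightedHomogeneousComponent_isWeightedHomogeneous φ p⟩,
      rfl⟩⟩, Subtype.ext ?_⟩
    show (∑ φ, (V w I s φ).subtype ∘ₗ LinearMap.proj φ) _ = _
    rw [LinearMap.sum_apply]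
    show ∑ φ, Ideal.Quotient.mk I (weightedHomogeneousComponent w φ p) = _
    rw [← map_sum, sum_comp]

/-- a nonzero weight space contains a monomial -/
theorem exists_of_V {w : σ → M} {I : Ideal (MvPolynomial σ K)} {s : ℕ} {φ : M}
    (h : finrank K (V w I s φ) ≠ 0) {Z : Set σ} (hZ : ∀ i ∈ Z, (X i : MvPolynomial σ K) ∈ I) :
    ∃ m : σ →₀ ℕ, m.degree = s ∧ Finsupp.weight w m = φ ∧ ∀ i ∈ Z, m i = 0 := by
  by_contra hcon
  push Not at hcon
  apply h
  have h1 : V w I s φ = ⊥ := by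
    rw [eq_bot_iff]
    intro x hx
    obtain ⟨p, hp, rfl⟩ := mem_V.1 hx
    rw [Submodule.mem_bot]
    refine Ideal.Quotient.eq_zero_iff_mem.2 ?_
    rw [p.as_sum]
    refine Ideal.sum_mem _ fun m hm => ?_
    have h2 := mem_support_iff.1 hm
    have h3 : m.degree = s := by
      by_contra h
      exact h2 (hp.1.coeff_eq_zero h)
    obtain ⟨i, hi, hmi⟩ := hcon m h3 (hp.2 h2)
    have h4 : monomial m (coeff m p) = X i * monomial (m - Finsupp.single i 1) (coeff m p) := by
      rw [X, monomial_mul, one_mul, add_tsub_cancel_of_le]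
      rw [Finsupp.single_le_iff]
      omega
    rw [h4]
    exact Ideal.mul_mem_right _ _ (hZ i hi)
  rw [h1, finrank_bot]

end Pool.Agent.J6H82.CIQ
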