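import Pool.Agent.J6H82.CIQ.Num
import Pool.Agent.J6H82.CIQ.Wt
import Pool.Agent.J6H82.CIQ.Ci

/-!
# All weights occur in small degrees
-/

set_option autoImplicit false

namespace Pool.Agent.J6H82.CIQ

open MvPolynomial Module Pool.Agent.TH144.MB

variable {σ : Type} {K : Type} [Field K] {M : Type} [AddCommGroup M]

theorem ext_eq (L : List (MvPolynomial σ K)) : ∀ I : Ideal (MvPolynomial σ K),
    Pool.Agent.TH144.MB.ext I L = I ⊔ Ideal.span {f | f ∈ L} := by
  induction L with
  | nil => intro I; simp [Pool.Agent.TH144.MB.ext]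
  | cons f L ih =>
    intro I
    show Pool.Agent.TH144.MB.ext (I ⊔ Ideal.span {f}) L = _
    rw [ih, sup_assoc, ← Ideal.span_union]
    congr 2
    ext g
    simp

theorem WH_union {w : σ → M} {I : Ideal (MvPolynomial σ K)} (hI : WH w I) (s : Finset σ) :
    WH w (I ⊔ Ideal.span (X '' (s : Set σ))) := by
  classical
  induction s using Finset.induction_on with
  | empty => rwa [Finset.coe_empty, Set.image_empty, Ideal.span_empty, sup_bot_eq]
  | insert i s _ ih =>
    have h3 := WH_sup ih i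
    rwa [sup_assoc, ← Ideal.span_union, ← Set.image_singleton, ← Set.image_union,
      Set.union_singleton, ← Finset.coe_insert] at h3

theorem Hom_union {I : Ideal (MvPolynomial σ K)} (hI : Hom I) (s : Finset σ) :
    Hom (I ⊔ Ideal.span (X '' (s : Set σ))) := by
  classical
  induction s using Finset.induction_on with
  | empty => rwa [Finset.coe_empty, Set.image_empty, Ideal.span_empty, sup_bot_eq]
  | insert i s _ ih =>
    have h3 := hom_sup ih (isHomogeneous_X K i)
    rwa [sup_assoc, ← Ideal.span_union, ← Set.image_singleton, ← Set.image_union,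
      Set.union_singleton, ← Finset.coe_insert] at h3

theorem lin_single' [Fintype σ] [DecidableEq σ] (i : σ) :
    lin (Pi.single i (1 : K)) = (X i : MvPolynomial σ K) := by
  unfold lin
  rw [Finset.sum_eq_single i]
  · simp
  · intro j _ hj
    rw [Pi.single_eq_of_ne hj, map_zero, zero_mul]
  · intro h; exact absurd (Finset.mem_univ i) h

set_option maxHeartbeats 400000 in
/-- the algebraic facts on the coordinate subspace of `J`, for two of its coordinates -/
theorem facts [Fintype σ] [IsAlgClosed K] {c : ℕ} (f : Fin c → MvPolynomial σ K)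
    (d : Fin c → ℕ) (hf : ∀ j, (f j).IsHomogeneous (d j)) (hd : ∀ j, 0 < d j)
    (J : Finset σ) (hJ : J.card = c + 2)
    (hpos : ∀ v : σ → K, v ≠ 0 → (∀ j, eval v (f j) = 0) → (∀ i, i ∉ J → v i = 0) →
      c < {i | v i ≠ 0}.ncard)
    {a b : σ} (ha : a ∈ J) (hb : b ∈ J) (hab : a ≠ b) :
    NZ (X a) (Ideal.span (Set.range f) ⊔ Ideal.span (X '' {i | i ∉ J})) ∧
    NZ (X b) (Ideal.span (Set.range f) ⊔ Ideal.span (X '' {i | i ∉ J}) ⊔ Ideal.span {X a}) ∧
    HS (Ideal.span (Set.range f) ⊔ Ideal.span (X '' {i | i ∉ J}) ⊔ Ideal.span {X a} ⊔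
      Ideal.span {X b}) = (pol (List.ofFn d) : PowerSeries ℤ) := by
  classical
  set zl : List (σ → K) := Jᶜ.toList.map fun i => Pi.single i 1 with hzl
  set fs : List (MvPolynomial σ K × ℕ) := List.ofFn fun j => (f j, d j) with hfs
  have hfst : fs.map Prod.fst = List.ofFn f := by rw [hfs, List.map_ofFn]; rfl
  have hsnd : fs.map Prod.snd = List.ofFn d := by rw [hfs, List.map_ofFn]; rfl
  have hfs1 : ∀ x ∈ fs, x.1.IsHomogeneous x.2 ∧ 0 < x.2 := by
    intro x hx
    rw [hfs, List.mem_ofFn] at hx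
    obtain ⟨j, rfl⟩ := hx
    exact ⟨hf j, hd j⟩
  have hfs2 : ∀ g ∈ fs.map Prod.fst, ∃ d, g.IsHomogeneous d := by
    intro g hg
    rw [List.mem_map] at hg
    obtain ⟨x, hx, rfl⟩ := hg
    exact ⟨_, (hfs1 x hx).1⟩
  have hcard := Finset.card_add_card_compl J
  have hlen : (zl ++ [Pi.single a 1, Pi.single b 1]).length + fs.length = Fintype.card σ := by
    rw [List.length_append, hzl, List.length_map, Finset.length_toList, hfs, List.length_ofFn]
    simp only [List.length_cons, List.length_nil]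
    omega
  have hlin : ∀ i : σ, lin (Pi.single i (1 : K)) = X i := fun i => lin_single' i
  have hzmem : ∀ g : MvPolynomial σ K, g ∈ zl.map lin ↔ g ∈ (X '' {i | i ∉ J} : Set _) := by
    intro g
    rw [hzl, List.map_map, List.mem_map]
    constructor
    · rintro ⟨i, hi, rfl⟩
      refine ⟨i, by simpa using hi, ?_⟩
      exact (hlin i).symm
    · rintro ⟨i, hi, rfl⟩
      exact ⟨i, by simpa using hi, hlin i⟩
  have hv : ∀ v : σ → K, (∀ x ∈ zl ++ [Pi.single a 1, Pi.single b 1], eval v (lin x) = 0) →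
      (∀ x ∈ fs, eval v x.1 = 0) → v = 0 := by
    intro v h1 h2
    by_contra hv0
    have h3 : ∀ j, eval v (f j) = 0 := fun j => h2 (f j, d j) (by
      rw [hfs, List.mem_ofFn]; exact ⟨j, rfl⟩)
    have h4 := hpos v hv0 h3 (by
      intro i hiJ
      have := h1 (Pi.single i 1) (by
        rw [List.mem_append]
        left
        rw [hzl, List.mem_map]
        exact ⟨i, by simpa using hiJ, rfl⟩)
      rwa [hlin, eval_X] at this)
    have h5 : {i | v i ≠ 0} ⊆ (((J.erase a).erase b : Finset σ) : Set σ) := by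
      intro i hi
      have hi' : v i ≠ 0 := hi
      rw [Finset.mem_coe, Finset.mem_erase, Finset.mem_erase]
      refine ⟨?_, ?_, ?_⟩
      · rintro rfl
        apply hi'
        have := h1 (Pi.single i 1) (by simp)
        rwa [hlin, eval_X] at this
      · rintro rfl
        apply hi'
        have := h1 (Pi.single i 1) (by simp)
        rwa [hlin, eval_X] at this
      · by_contra hiJ
        apply hi'
        have := h1 (Pi.single i 1) (by
          rw [List.mem_append]
          left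
          rw [hzl, List.mem_map]
          exact ⟨i, by simpa using hiJ, rfl⟩)
        rwa [hlin, eval_X] at this
    have h6 := Set.ncard_le_ncard h5 (Finset.finite_toSet _)
    rw [Set.ncard_coe_finset, Finset.card_erase_of_mem (Finset.mem_erase.2 ⟨hab.symm, hb⟩),
      Finset.card_erase_of_mem ha] at h6
    omega
  obtain ⟨hreg, -⟩ := square fs (zl ++ [Pi.single a 1, Pi.single b 1]) hfs1 hlen hv
  have hHS := HS_square fs (zl ++ [Pi.single a 1, Pi.single b 1]) hfs1 hlen hv
  rw [hsnd] at hHS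
  have hmap : (zl ++ [Pi.single a 1, Pi.single b 1]).map lin ++ fs.map Prod.fst =
      zl.map lin ++ (X a :: X b :: fs.map Prod.fst) := by
    rw [List.map_append, List.map_cons, List.map_cons, List.map_nil, hlin, hlin,
      List.append_assoc]
    rfl
  rw [hmap] at hreg hHS
  rw [reg_append] at hreg
  obtain ⟨-, hr1, hr2⟩ := hreg
  have hZhom : Hom (Pool.Agent.TH144.MB.ext ⊥ (zl.map (lin (K := K)))) :=
    hom_ext _ _ hom_bot fun g hg => ⟨1, hom_lin_map zl g hg⟩
  -- `X b` to the end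
  obtain ⟨hr3, hr4⟩ := reg_rotate (isHomogeneous_X K b) _ _ (hom_sup hZhom (isHomogeneous_X K a))
    hfs2 hr2
  -- `X a` to the end
  obtain ⟨-, hr5⟩ := reg_rotate (isHomogeneous_X K a) _ _ hZhom hfs2 ⟨hr1, hr3⟩
  have e1 : Pool.Agent.TH144.MB.ext (Pool.Agent.TH144.MB.ext ⊥ (zl.map lin)) (fs.map Prod.fst) =
      Ideal.span (Set.range f) ⊔ Ideal.span (X '' {i | i ∉ J}) := by
    rw [ext_eq, ext_eq, bot_sup_eq, sup_comm]
    congr 2
    · ext g
      rw [hfst]
      simp [List.mem_ofFn]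
    · ext g
      exact hzmem g
  have e2 : Pool.Agent.TH144.MB.ext (Pool.Agent.TH144.MB.ext ⊥ (zl.map lin) ⊔ Ideal.span {X a})
      (fs.map Prod.fst) =
      Ideal.span (Set.range f) ⊔ Ideal.span (X '' {i | i ∉ J}) ⊔ Ideal.span {X a} := by
    rw [ext_sup, e1]
  have e3 : Pool.Agent.TH144.MB.ext ⊥ (zl.map lin ++ (X a :: X b :: fs.map Prod.fst)) =
      Ideal.span (Set.range f) ⊔ Ideal.span (X '' {i | i ∉ J}) ⊔ Ideal.span {X a} ⊔
        Ideal.span {X b} := by
    rw [ext_append]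
    show Pool.Agent.TH144.MB.ext (Pool.Agent.TH144.MB.ext ⊥ (zl.map lin) ⊔ Ideal.span {X a} ⊔
      Ideal.span {X b}) (fs.map Prod.fst) = _
    rw [ext_sup, e2]
  rw [e1] at hr5
  rw [e2] at hr4
  rw [e3] at hHS
  exact ⟨hr5, hr4, hHS⟩

/-- **The key lemma.** All weights occur in all degrees `t` with `∑ (d j - 1) ≤ 2 t + 1`. -/
theorem key [Fintype σ] [IsAlgClosed K] [Fintype M] {c : ℕ} (f : Fin c → MvPolynomial σ K)
    (d : Fin c → ℕ) (hf : ∀ j, (f j).IsHomogeneous (d j)) (hd : ∀ j, 0 < d j)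
    {w : σ → M} (hw : WH w (Ideal.span (Set.range f)))
    (J : Finset σ) (hJ : J.card = c + 2)
    (hpos : ∀ v : σ → K, v ≠ 0 → (∀ j, eval v (f j) = 0) → (∀ i, i ∉ J → v i = 0) →
      c < {i | v i ≠ 0}.ncard)
    (hmon : ∀ a ∈ J, ∀ φ, ∃ m : σ →₀ ℕ, m.degree = ∑ j, (d j - 1) ∧ Finsupp.weight w m = φ ∧
      ∀ i, m i ≠ 0 → i ∈ J ∧ i ≠ a) {t : ℕ} (ht : ∑ j, (d j - 1) ≤ 2 * t + 1) (ψ : M) :
    ∃ m : σ →₀ ℕ, m.degree = t ∧ Finsupp.weight w m = ψ ∧ ∀ i, i ∉ J → m i = 0 := by
  classical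
  set A : Ideal (MvPolynomial σ K) := Ideal.span (Set.range f) ⊔ Ideal.span (X '' {i | i ∉ J})
    with hA
  have hcoe : {i | i ∉ J} = ((Jᶜ : Finset σ) : Set σ) := by ext i; simp
  have hI : Hom (Ideal.span (Set.range f)) := hom_span (by
    rintro _ ⟨j, rfl⟩
    exact ⟨_, hf j⟩)
  have hAH : Hom A := by rw [hA, hcoe]; exact Hom_union hI _
  have hAW : WH w A := by rw [hA, hcoe]; exact WH_union hw _
  obtain ⟨a0, ha0, b0, hb0, hab⟩ := Finset.one_lt_card.1 (show 1 < J.card by omega)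
  have hsum : ((List.ofFn d).map fun d => d - 1).sum = ∑ j, (d j - 1) := by
    rw [List.map_ofFn, List.sum_ofFn]
    rfl
  have hdpos : ∀ x ∈ List.ofFn d, 0 < x := by
    intro x hx
    rw [List.mem_ofFn] at hx
    obtain ⟨j, rfl⟩ := hx
    exact hd j
  have other : ∀ a ∈ J, ∃ b ∈ J, a ≠ b := by
    intro a ha
    by_cases h : a = a0
    · exact ⟨b0, hb0, h ▸ hab⟩
    · exact ⟨a0, ha0, h⟩
  have h1 := key_num J w (fun s φ => finrank K (V w A s φ))
    (fun a s φ => finrank K (V w (A ⊔ Ideal.span {X a}) s φ)) (∑ j, (d j - 1))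
    (List.ofFn d).prod ha0 hb0 hab
    (fun a ha b hb hne s φ => V_mono w (facts f d hf hd J hJ hpos ha hb hne).2.1 s φ)
    (fun a ha s φ => by
      obtain ⟨b, hb, hne⟩ := other a ha
      exact V_exact hAH hAW (facts f d hf hd J hJ hpos ha hb hne).1 s φ)
    (fun a ha s hs => by
      obtain ⟨b, hb, hne⟩ := other a ha
      obtain ⟨g1, g2, g3⟩ := facts f d hf hd J hJ hpos ha hb hne
      have g4 := (dims hAH (isHomogeneous_X K a) (isHomogeneous_X K b) g1 g2 hdpos g3
        (s := s) (by rw [hsum]; exact hs)).1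
      show ∑ φ, finrank K (V w (A ⊔ Ideal.span {X a}) s φ) = _
      rw [V_total (WH_sup hAW a)]
      exact_mod_cast g4)
    (fun s hs => by
      obtain ⟨g1, g2, g3⟩ := facts f d hf hd J hJ hpos ha0 hb0 hab
      have g4 := (dims hAH (isHomogeneous_X K a0) (isHomogeneous_X K b0) g1 g2 hdpos g3
        (s := s) (by rw [hsum]; exact hs)).2
      show 2 * ((∑ φ, finrank K (V w A s φ) : ℕ) : ℤ) = _
      rw [V_total hAW, g4, hsum])
    hmon
    (List.prod_pos fun x hx => hdpos x hx) ht ψ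
  obtain ⟨m, hm1, hm2, hm3⟩ := exists_of_V (Z := {i | i ∉ J}) h1 fun i hi =>
    Ideal.mem_sup_right (Ideal.subset_span ⟨i, hi, rfl⟩)
  exact ⟨m, hm1, hm2, fun i hi => hm3 i hi⟩

end Pool.Agent.J6H82.CIQ
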