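import Pool.Agent.J6H82.CIQ.Key

/-!
# All weights occur in small degrees, II

The coordinate subspaces of codimension two in the coordinate subspace of `J` may contain points.
-/

set_option autoImplicit false

namespace Pool.Agent.J6H82.CIQ

open MvPolynomial Module Pool.Agent.TH144.MB

theorem key_num2 {M ι : Type} [AddCommGroup M] [Fintype M] (J : Finset ι) (w : ι → M)
    (NA : ℕ → M → ℕ) (NB : ι → ℕ → M → ℕ) (σ0 D N0 : ℕ) {a0 : ι} (ha0 : a0 ∈ J)
    (mono : ∀ a ∈ J, ∀ k, N0 ≤ k → ∀ ψ s φ, NB a s φ ≤ NB a (s + k) (φ + ψ))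
    (exact : ∀ a ∈ J, ∀ s φ, NA (s + 1) (φ + w a) = NA s φ + NB a (s + 1) (φ + w a))
    (totB : ∀ a ∈ J, ∀ s, σ0 ≤ s → ∑ φ, NB a s φ = D)
    (totA : ∀ s, σ0 ≤ s → 2 * ((∑ φ, NA s φ : ℕ) : ℤ) = D * (2 * (s + 1) - σ0))
    (mon : ∀ φ, ∃ m : ι →₀ ℕ, m.degree = N0 ∧ Finsupp.weight w m = φ ∧ ∀ i, m i ≠ 0 → i ∈ J)
    (hD : 0 < D) {t : ℕ} (ht : σ0 ≤ 2 * t + 1) (ψ : M) : NA t ψ ≠ 0 := by
  classical
  set q := Fintype.card M with hq
  have hB2 : ∀ a ∈ J, ∀ s, σ0 ≤ s → ∀ φ φ', NB a s φ = NB a s φ' := by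
    intro a ha s hs φ φ'
    have key : ∀ φ, NB a s φ = NB a (s + N0) 0 := by
      intro φ
      have h1 : ∑ φ', NB a s φ' = ∑ φ', NB a (s + N0) (φ' + -φ) := by
        rw [totB a ha s hs, ← totB a ha (s + N0) (by omega)]
        exact (Equiv.sum_comp (Equiv.addRight (-φ)) (NB a (s + N0))).symm
      have h2 := ((Finset.sum_eq_sum_iff_of_le fun φ' _ => mono a ha N0 le_rfl (-φ) s φ').1 h1) φ
        (Finset.mem_univ _)
      rwa [add_neg_cancel] at h2
    rw [key φ, key φ']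
  have hB3 : ∀ a ∈ J, ∀ s, σ0 ≤ s → ∀ φ, q * NB a s φ = D := by
    intro a ha s hs φ
    rw [← totB a ha s hs, Finset.sum_congr rfl fun φ' _ => hB2 a ha s hs φ' φ, Finset.sum_const,
      Finset.card_univ, smul_eq_mul]
  have hB4 : ∀ a ∈ J, ∀ s φ, q * NB a s φ ≤ D := by
    intro a ha s φ
    rw [← hB3 a ha (s + (N0 + σ0)) (by omega) (φ + 0)]
    exact Nat.mul_le_mul_left _ (mono a ha _ (by omega) 0 s φ)
  -- the numbers `NA`
  have hA1 : ∀ s, σ0 ≤ s → ∀ φ φ', NA s φ = NA s φ' := by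
    intro s hs φ φ'
    have hq0 : 0 < q := Fintype.card_pos
    have key : ∀ φ, q * NA (s + N0) 0 = q * NA s φ + N0 * D := by
      intro φ
      obtain ⟨m, hm1, hm2, hm3⟩ := mon (-φ)
      have h1 := along (P := fun i => i ∈ J) (w := w)
        (Q := fun s φ s' φ' => σ0 ≤ s → s ≤ s' ∧ q * NA s' φ' = q * NA s φ + (s' - s) * D)
        (fun s φ _ => ⟨le_rfl, by simp⟩)
        (fun s φ s' φ' i hi h hs => by
          obtain ⟨h2, h3⟩ := h hs
          refine ⟨by omega, ?_⟩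
          rw [exact i hi, mul_add, hB3 i hi (s' + 1) (by omega), h3,
            show s' + 1 - s = (s' - s) + 1 by omega]
          ring)
        N0 m hm1 hm3 s φ hs
      rw [hm2, add_neg_cancel, Nat.add_sub_cancel_left] at h1
      exact h1.2
    have h1 := key φ
    have h2 := key φ'
    have h3 : q * NA s φ = q * NA s φ' := by omega
    exact Nat.eq_of_mul_eq_mul_left hq0 h3
  have hA2 : ∀ s, σ0 ≤ s → ∀ φ, 2 * (q * NA s φ : ℤ) = D * (2 * (s + 1) - σ0) := by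
    intro s hs φ
    rw [← totA s hs, Finset.sum_congr rfl fun φ' _ => hA1 s hs φ' φ, Finset.sum_const,
      Finset.card_univ, smul_eq_mul]
    push_cast
    rfl
  have hA3 : ∀ k, ∃ φ', q * NA (t + k) φ' ≤ q * NA t ψ + k * D := by
    intro k
    induction k with
    | zero => exact ⟨ψ, by simp⟩
    | succ k ih =>
      obtain ⟨φ', h⟩ := ih
      refine ⟨φ' + w a0, ?_⟩
      rw [← add_assoc, exact a0 ha0, mul_add]
      have h1 := hB4 a0 ha0 (t + k + 1) (φ' + w a0)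
      have h2 : (k + 1) * D = k * D + D := by ring
      omega
  obtain ⟨φ', h1⟩ := hA3 σ0
  have h2 := hA2 (t + σ0) (by omega) φ'
  intro h3
  rw [h3, mul_zero, zero_add] at h1
  have h4 : ((q * NA (t + σ0) φ' : ℕ) : ℤ) ≤ ((σ0 * D : ℕ) : ℤ) := by exact_mod_cast h1
  push_cast at h4 h2
  have h5 : (1 : ℤ) ≤ D := by exact_mod_cast hD
  have h6 : (σ0 : ℤ) ≤ 2 * t + 1 := by exact_mod_cast ht
  nlinarith

variable {σ : Type} {K : Type} [Field K] {M : Type} [AddCommGroup M]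

theorem V_mono' [Finite σ] (w : σ → M) {I : Ideal (MvPolynomial σ K)} {u : MvPolynomial σ K}
    (h : NZ u I) {k : ℕ} {ψ : M} (hu : u.IsHomogeneous k) (hw : IsWeightedHomogeneous w u ψ)
    (s : ℕ) (φ : M) : finrank K (V w I s φ) ≤ finrank K (V w I (s + k) (φ + ψ)) := by
  rw [(Submodule.equivMapOfInjective (mu u I) h.inj (V w I s φ)).finrank_eq]
  refine Submodule.finrank_mono ?_
  rintro _ ⟨x, hx, rfl⟩
  obtain ⟨p, hp, rfl⟩ := mem_V.1 hx
  rw [mu_mk]
  refine mem_V.2 ⟨_, ⟨?_, ?_⟩, rfl⟩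
  · rw [add_comm]; exact hu.mul hp.1
  · rw [add_comm]; exact hw.mul hp.2

/-- the common zeros of the equations on the coordinate subspace of `J` where `x_a` vanishes -/
def Pt (fs : List (MvPolynomial σ K × ℕ)) (J : Finset σ) (a : σ) (v : σ → K) : Prop :=
  v ≠ 0 ∧ (∀ x ∈ fs, eval v x.1 = 0) ∧ (∀ i, i ∉ J → v i = 0) ∧ v a = 0

set_option maxHeartbeats 400000 in
/-- the algebraic facts -/
theorem facts2 [Fintype σ] [IsAlgClosed K] (fs : List (MvPolynomial σ K × ℕ))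
    (hfs : ∀ x ∈ fs, x.1.IsHomogeneous x.2 ∧ 0 < x.2) (J : Finset σ)
    (hJ : J.card = fs.length + 2) {a : σ} (ha : a ∈ J) (l : σ → K)
    (hl : ∀ v, Pt fs J a v → eval v (lin l) ≠ 0) (u : MvPolynomial σ K) {k : ℕ} (hk : 0 < k)
    (hu : u.IsHomogeneous k) (huv : ∀ v, Pt fs J a v → eval v u ≠ 0)
    {A : Ideal (MvPolynomial σ K)}
    (hA : A = Ideal.span {g | g ∈ fs.map Prod.fst} ⊔ Ideal.span (X '' {i | i ∉ J})) :
    NZ (X a) A ∧ NZ (lin l) (A ⊔ Ideal.span {X a}) ∧ NZ u (A ⊔ Ideal.span {X a}) ∧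
    HS (A ⊔ Ideal.span {X a} ⊔ Ideal.span {lin l}) = (pol (fs.map Prod.snd) : PowerSeries ℤ) := by
  classical
  set zl : List (σ → K) := Jᶜ.toList.map fun i => Pi.single i 1 with hzl
  have hfs2 : ∀ g ∈ fs.map Prod.fst, ∃ d, g.IsHomogeneous d := by
    intro g hg
    rw [List.mem_map] at hg
    obtain ⟨x, hx, rfl⟩ := hg
    exact ⟨_, (hfs x hx).1⟩
  have hcard := Finset.card_add_card_compl J
  have hzlen : zl.length = Jᶜ.card := by
    rw [hzl, List.length_map, Finset.length_toList]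
  have hlin : ∀ i : σ, lin (Pi.single i (1 : K)) = X i := fun i => lin_single' i
  have hzmem : ∀ g : MvPolynomial σ K, g ∈ zl.map lin ↔ g ∈ (X '' {i | i ∉ J} : Set _) := by
    intro g
    rw [hzl, List.map_map, List.mem_map]
    constructor
    · rintro ⟨i, hi, rfl⟩
      exact ⟨i, by simpa using hi, (hlin i).symm⟩
    · rintro ⟨i, hi, rfl⟩
      exact ⟨i, by simpa using hi, hlin i⟩
  have hz0 : ∀ v : σ → K, (∀ x ∈ zl, eval v (lin x) = 0) → ∀ i, i ∉ J → v i = 0 := by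
    intro v h1 i hi
    have := h1 (Pi.single i 1) (by
      rw [hzl, List.mem_map]
      exact ⟨i, by simpa using hi, rfl⟩)
    rwa [hlin, eval_X] at this
  have hZhom : Hom (Pool.Agent.TH144.MB.ext ⊥ (zl.map (lin (K := K)))) :=
    hom_ext _ _ hom_bot fun g hg => ⟨1, hom_lin_map zl g hg⟩
  -- the ideal `A`
  have e1 : Pool.Agent.TH144.MB.ext (Pool.Agent.TH144.MB.ext ⊥ (zl.map lin)) (fs.map Prod.fst) =
      A := by
    rw [ext_eq, ext_eq, bot_sup_eq, sup_comm, hA]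
    congr 2
    ext g
    exact hzmem g
  have e2 : Pool.Agent.TH144.MB.ext (Pool.Agent.TH144.MB.ext ⊥ (zl.map lin) ⊔ Ideal.span {X a})
      (fs.map Prod.fst) = A ⊔ Ideal.span {X a} := by
    rw [ext_sup, e1]
  -- with the linear form
  have hv1 : ∀ v : σ → K, (∀ x ∈ zl ++ [Pi.single a 1, l], eval v (lin x) = 0) →
      (∀ x ∈ fs, eval v x.1 = 0) → v = 0 := by
    intro v h1 h2
    by_contra hv0
    refine hl v ⟨hv0, h2, hz0 v fun x hx => h1 x (by simp [hx]), ?_⟩ (h1 l (by simp))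
    have := h1 (Pi.single a 1) (by simp)
    rwa [hlin, eval_X] at this
  have hlen1 : (zl ++ [Pi.single a 1, l]).length + fs.length = Fintype.card σ := by
    rw [List.length_append, hzlen]
    simp only [List.length_cons, List.length_nil]
    omega
  obtain ⟨hreg, -⟩ := square fs _ hfs hlen1 hv1
  have hHS := HS_square fs _ hfs hlen1 hv1
  have hmap : (zl ++ [Pi.single a 1, l]).map lin ++ fs.map Prod.fst =
      zl.map lin ++ (X a :: lin l :: fs.map Prod.fst) := by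
    rw [List.map_append, List.map_cons, List.map_cons, List.map_nil, hlin, List.append_assoc]
    rfl
  rw [hmap] at hreg hHS
  rw [reg_append] at hreg
  obtain ⟨-, hr1, hr2⟩ := hreg
  obtain ⟨hr3, hr4⟩ := reg_rotate (lin_hom l) _ _ (hom_sup hZhom (isHomogeneous_X K a)) hfs2 hr2
  obtain ⟨-, hr5⟩ := reg_rotate (isHomogeneous_X K a) _ _ hZhom hfs2 ⟨hr1, hr3⟩
  have e3 : Pool.Agent.TH144.MB.ext ⊥ (zl.map lin ++ (X a :: lin l :: fs.map Prod.fst)) =
      A ⊔ Ideal.span {X a} ⊔ Ideal.span {lin l} := by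
    rw [ext_append]
    show Pool.Agent.TH144.MB.ext (Pool.Agent.TH144.MB.ext ⊥ (zl.map lin) ⊔ Ideal.span {X a} ⊔
      Ideal.span {lin l}) (fs.map Prod.fst) = _
    rw [ext_sup, e2]
  rw [e1] at hr5
  rw [e2] at hr4
  rw [e3] at hHS
  refine ⟨hr5, hr4, ?_, hHS⟩
  -- with the form `u`
  have hv2 : ∀ v : σ → K, (∀ x ∈ zl ++ [Pi.single a 1], eval v (lin x) = 0) →
      (∀ x ∈ fs ++ [(u, k)], eval v x.1 = 0) → v = 0 := by
    intro v h1 h2
    by_contra hv0
    refine huv v ⟨hv0, fun x hx => h2 x (by simp [hx]),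
      hz0 v fun x hx => h1 x (by simp [hx]), ?_⟩ (h2 (u, k) (by simp))
    have := h1 (Pi.single a 1) (by simp)
    rwa [hlin, eval_X] at this
  obtain ⟨hreg2, -⟩ := square (fs ++ [(u, k)]) (zl ++ [Pi.single a 1]) (by
    intro x hx
    rw [List.mem_append, List.mem_singleton] at hx
    rcases hx with hx | rfl
    · exact hfs x hx
    · exact ⟨hu, hk⟩) (by
    rw [List.length_append, List.length_append, hzlen]
    simp only [List.length_cons, List.length_nil]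
    omega) hv2
  have hmap2 : (zl ++ [Pi.single a 1]).map lin ++ (fs ++ [(u, k)]).map Prod.fst =
      (zl.map lin ++ (X a :: fs.map Prod.fst)) ++ [u] := by
    rw [List.map_append, List.map_append, List.map_cons, List.map_nil, hlin]
    simp
  rw [hmap2, reg_append] at hreg2
  have e4 : Pool.Agent.TH144.MB.ext ⊥ (zl.map lin ++ (X a :: fs.map Prod.fst)) =
      A ⊔ Ideal.span {X a} := by
    rw [ext_append]
    exact e2
  rw [e4] at hreg2
  exact hreg2.2.1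

/-- **The key lemma, II.** -/
theorem key2 [Fintype σ] [IsAlgClosed K] [Fintype M] (fs : List (MvPolynomial σ K × ℕ))
    (hfs : ∀ x ∈ fs, x.1.IsHomogeneous x.2 ∧ 0 < x.2) {w : σ → M} (J : Finset σ)
    (hJ : J.card = fs.length + 2) {A : Ideal (MvPolynomial σ K)}
    (hA : A = Ideal.span {g | g ∈ fs.map Prod.fst} ⊔ Ideal.span (X '' {i | i ∉ J}))
    (hAH : Hom A) (hAW : WH w A) {N0 : ℕ} (hN0 : 0 < N0)
    (hl : ∀ a ∈ J, ∃ l : σ → K, ∀ v, Pt fs J a v → eval v (lin l) ≠ 0)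
    (hu : ∀ a ∈ J, ∀ k, N0 ≤ k → ∀ ψ, ∃ u : MvPolynomial σ K, u.IsHomogeneous k ∧
      IsWeightedHomogeneous w u ψ ∧ ∀ v, Pt fs J a v → eval v u ≠ 0)
    (hmon : ∀ φ, ∃ m : σ →₀ ℕ, m.degree = N0 ∧ Finsupp.weight w m = φ ∧ ∀ i, m i ≠ 0 → i ∈ J)
    {t : ℕ} (ht : (fs.map fun x => x.2 - 1).sum ≤ 2 * t + 1) (ψ : M) :
    ∃ m : σ →₀ ℕ, m.degree = t ∧ Finsupp.weight w m = ψ ∧ ∀ i, i ∉ J → m i = 0 := by
  classical
  obtain ⟨a0, ha0⟩ : J.Nonempty := by
    rw [← Finset.card_pos]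
    omega
  choose! l hl using hl
  have hdpos : ∀ x ∈ fs.map Prod.snd, 0 < x := by
    intro x hx
    rw [List.mem_map] at hx
    obtain ⟨y, hy, rfl⟩ := hx
    exact (hfs y hy).2
  have hsum : ((fs.map Prod.snd).map fun d => d - 1).sum = (fs.map fun x => x.2 - 1).sum := by
    rw [List.map_map]
    rfl
  have F : ∀ a ∈ J, ∀ k, N0 ≤ k → ∀ ψ, ∃ u : MvPolynomial σ K, u.IsHomogeneous k ∧
      IsWeightedHomogeneous w u ψ ∧ NZ (X a) A ∧ NZ (lin (l a)) (A ⊔ Ideal.span {X a}) ∧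
      NZ u (A ⊔ Ideal.span {X a}) ∧ HS (A ⊔ Ideal.span {X a} ⊔ Ideal.span {lin (l a)}) =
        (pol (fs.map Prod.snd) : PowerSeries ℤ) := by
    intro a ha k hk ψ
    obtain ⟨u, hu1, hu2, hu3⟩ := hu a ha k hk ψ
    obtain ⟨h1, h2, h3, h4⟩ := facts2 fs hfs J hJ ha (l a) (hl a ha) u (by omega) hu1 hu3 hA
    exact ⟨u, hu1, hu2, h1, h2, h3, h4⟩
  have h1 := key_num2 J w (fun s φ => finrank K (V w A s φ))
    (fun a s φ => finrank K (V w (A ⊔ Ideal.span {X a}) s φ)) ((fs.map fun x => x.2 - 1).sum)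
    (fs.map Prod.snd).prod N0 ha0
    (fun a ha k hk ψ s φ => by
      obtain ⟨u, hu1, hu2, -, -, h3, -⟩ := F a ha k hk ψ
      exact V_mono' w h3 hu1 hu2 s φ)
    (fun a ha s φ => by
      obtain ⟨u, -, -, h1, -, -, -⟩ := F a ha N0 le_rfl 0
      exact V_exact hAH hAW h1 s φ)
    (fun a ha s hs => by
      obtain ⟨u, -, -, g1, g2, -, g3⟩ := F a ha N0 le_rfl 0
      have g4 := (dims hAH (isHomogeneous_X K a) (lin_hom (l a)) g1 g2 hdpos g3
        (s := s) (by rw [hsum]; exact hs)).1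
      show ∑ φ, finrank K (V w (A ⊔ Ideal.span {X a}) s φ) = _
      rw [V_total (WH_sup hAW a)]
      exact_mod_cast g4)
    (fun s hs => by
      obtain ⟨u, -, -, g1, g2, -, g3⟩ := F a0 ha0 N0 le_rfl 0
      have g4 := (dims hAH (isHomogeneous_X K a0) (lin_hom (l a0)) g1 g2 hdpos g3
        (s := s) (by rw [hsum]; exact hs)).2
      show 2 * ((∑ φ, finrank K (V w A s φ) : ℕ) : ℤ) = _
      rw [V_total hAW, g4, hsum])
    hmon
    (List.prod_pos fun x hx => hdpos x hx) ht ψ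
  obtain ⟨m, hm1, hm2, hm3⟩ := exists_of_V (Z := {i | i ∉ J}) h1 fun i hi => by
    rw [hA]
    exact Ideal.mem_sup_right (Ideal.subset_span ⟨i, hi, rfl⟩)
  exact ⟨m, hm1, hm2, fun i hi => hm3 i hi⟩

end Pool.Agent.J6H82.CIQ
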