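import Pool.Agent.J6H82.CIQ.Mon

/-!
# Points with few nonzero coordinates
-/

set_option autoImplicit false

namespace Pool.Agent.J6H82.CIQ

open MvPolynomial Module Pool.Agent.TH144.MB

section
variable {n : ℕ}

/-- Macaulay's bound for forms of the same degree on a coordinate subspace: the number of variables
counts, and not the number of forms. -/
theorem low {D : ℕ} (hD : 0 < D) (B : Finset (Fin n)) (k : ℕ) : ∀ {ι : Type} [Fintype ι]
    (F : ι → MvPolynomial (Fin n) ℂ), (∀ j, (F j).IsHomogeneous D) →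
    Fintype.card ι = B.card + k →
    (∀ v : Fin n → ℂ, (∀ i, i ∉ B → v i = 0) → (∀ j, eval v (F j) = 0) → v = 0) →
    ∀ t, B.card * (D - 1) < t → ∀ p : MvPolynomial (Fin n) ℂ, p.IsHomogeneous t →
      p ∈ Ideal.span (Set.range F) ⊔ Ideal.span (X '' {i | i ∉ B}) := by
  classical
  induction k with
  | zero =>
    intro ι _ F hF hcard hv t ht p hp
    let F' : ι ⊕ {i // i ∉ B} → MvPolynomial (Fin n) ℂ := Sum.elim F fun i => X i.1
    have h1 := macaulay F' (Sum.elim (fun _ => D) fun _ => 1) (by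
      rintro (j | i)
      · exact hF j
      · exact isHomogeneous_X _ _) (by
      rintro (j | i)
      · exact hD
      · exact one_pos) (by
      rw [Fintype.card_sum, hcard, Fintype.card_fin]
      have h2 : Fintype.card {i // i ∉ B} = n - B.card := by
        rw [Fintype.card_subtype_compl, Fintype.card_fin]
        simp
      rw [h2]
      omega) (by
      intro v h
      refine hv v (fun i hi => ?_) fun j => h (Sum.inl j)
      have := h (Sum.inr ⟨i, hi⟩)
      simpa [F'] using this) (t := t) (by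
      rw [Fintype.sum_sum_type]
      simp only [Sum.elim_inl, Sum.elim_inr, Finset.sum_const, Finset.card_univ, hcard, smul_eq_mul,
        add_zero, Nat.sub_self, mul_zero]
      exact ht) hp
    have h2 : Ideal.span (Set.range F') ≤
        Ideal.span (Set.range F) ⊔ Ideal.span (X '' {i | i ∉ B}) := by
      rw [Ideal.span_le]
      rintro _ ⟨j | i, rfl⟩
      · exact Ideal.mem_sup_left (Ideal.subset_span ⟨j, rfl⟩)
      · exact Ideal.mem_sup_right (Ideal.subset_span ⟨i.1, i.2, rfl⟩)
    exact h2 h1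
  | succ k ih =>
    intro ι _ F hF hcard hv t ht p hp
    -- restriction to the coordinate subspace
    let ψ : MvPolynomial (Fin n) ℂ →ₐ[ℂ] MvPolynomial B ℂ :=
      aeval fun i => if h : i ∈ B then X ⟨i, h⟩ else 0
    let up : (B → ℂ) → Fin n → ℂ := fun v i => if h : i ∈ B then v ⟨i, h⟩ else 0
    have hψ : ∀ (v : B → ℂ) (q : MvPolynomial (Fin n) ℂ), eval v (ψ q) = eval (up v) q := by
      intro v q
      have h1 : ((aeval v : MvPolynomial B ℂ →ₐ[ℂ] ℂ).comp ψ) = aeval (up v) := by
        apply algHom_ext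
        intro i
        simp only [ψ, up, AlgHom.comp_apply, aeval_X]
        split_ifs
        · simp
        · simp
      exact DFunLike.congr_fun h1 q
    obtain ⟨b, hb⟩ := exists_not_mem (fun j => ψ (F j)) (by
      rw [Fintype.card_coe, hcard]; omega)
    have hz : ∀ j, eval (0 : Fin n → ℂ) (F j) = 0 := by
      intro j
      have h4 := eval_smul' (hF j) 0 (0 : Fin n → ℂ)
      simpa [zero_pow hD.ne'] using h4
    obtain ⟨j0, hj0⟩ : ∃ j, b j ≠ 0 := by
      obtain ⟨j, hj⟩ := hb 0
      refine ⟨j, fun h => hj ?_⟩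
      rw [h, hψ]
      have h1 : up 0 = 0 := by
        funext i
        simp [up]
      rw [h1, hz]
    let F' : {j // j ≠ j0} → MvPolynomial (Fin n) ℂ := fun j => F j.1 - C (b j.1 / b j0) * F j0
    have h1 := ih F' (fun j => (hF j.1).sub ((hF j0).C_mul _)) (by
      rw [Fintype.card_subtype_compl, hcard]
      simp) (by
      intro v hvB h
      by_contra hv0
      have h2 : ∀ j, eval v (F j) = (b j / b j0) * eval v (F j0) := by
        intro j
        by_cases hj : j = j0
        · rw [hj, div_self hj0, one_mul]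
        · have h3 := h ⟨j, hj⟩
          simp only [F', map_sub, map_mul, eval_C, sub_eq_zero] at h3
          exact h3
      by_cases h3 : eval v (F j0) = 0
      · exact hv0 (hv v hvB fun j => by rw [h2, h3, mul_zero])
      · obtain ⟨μ, hμ⟩ := IsAlgClosed.exists_pow_nat_eq (eval v (F j0) / b j0) hD
        have hμ0 : μ ≠ 0 := by
          rintro rfl
          rw [zero_pow hD.ne'] at hμ
          exact div_ne_zero h3 hj0 hμ.symm
        obtain ⟨j, hj⟩ := hb fun i => μ⁻¹ * v i
        apply hj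
        rw [hψ]
        have h4 : up (fun i => μ⁻¹ * v i) = fun i => μ⁻¹ * v i := by
          funext i
          simp only [up]
          split_ifs with h
          · rfl
          · rw [hvB i h, mul_zero]
        rw [h4, eval_smul' (hF j), h2 j, inv_pow, hμ]
        field_simp) t ht p hp
    have h2 : Ideal.span (Set.range F') ≤ Ideal.span (Set.range F) := by
      rw [Ideal.span_le]
      rintro _ ⟨j, rfl⟩
      exact Ideal.sub_mem _ (Ideal.subset_span ⟨_, rfl⟩)
        (Ideal.mul_mem_left _ _ (Ideal.subset_span ⟨_, rfl⟩))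
    exact sup_le_sup_right h2 _ h1

variable {M : Type} [AddCommGroup M] {x : Fin n → M} {I : Ideal (MvPolynomial (Fin n) ℂ)} {c : ℕ}
  {f : Fin c → MvPolynomial (Fin n) ℂ} {d : Fin c → ℕ}

/-- at a point of minimal support with `s + 1 ≤ c` nonzero coordinates -/
theorem Eqs.low (h : Eqs x I c f d) {D : ℕ} (hD : ∀ j, d j ≤ D) {w : Fin n → ℂ} (hw0 : w ≠ 0)
    (hw : ∀ p ∈ I, eval w p = 0) {i0 : Fin n} (hi0 : w i0 ≠ 0) (hmin : Min I w i0)
    (hs : {i | w i ≠ 0}.ncard ≤ c) (k : ℕ) (hk : (c - 1) * (D - 1) ≤ k) (φ : M) :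
    ∃ m, U x {i | w i = 0} k φ m := by
  classical
  set B : Finset (Fin n) := (Finset.univ.filter fun i => w i ≠ 0).erase i0 with hB
  have hBm : ∀ i, i ∈ B ↔ i ≠ i0 ∧ w i ≠ 0 := by
    intro i
    rw [hB, Finset.mem_erase, Finset.mem_filter]
    simp
  have h1 : {i | w i ≠ 0}.ncard = (Finset.univ.filter fun i => w i ≠ 0).card := by
    rw [← Set.ncard_coe_finset]
    congr 1
    ext i
    simp
  have hBc : B.card + 1 ≤ c := by
    rw [hB, Finset.card_erase_of_mem (by simp [hi0]), ← h1]
    have : 0 < {i | w i ≠ 0}.ncard := (Set.ncard_pos (Set.toFinite _)).2 ⟨i0, hi0⟩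
    omega
  have hc : 0 < c := by omega
  have hD0 : 0 < D := (h.hd ⟨0, hc⟩).trans_le (hD _)
  let F : Fin c × B → MvPolynomial (Fin n) ℂ := fun q => f q.1 * X q.2.1 ^ (D - d q.1)
  have hF : ∀ q, (F q).IsHomogeneous D := by
    intro q
    have h2 := (h.hf q.1).mul ((isHomogeneous_X ℂ q.2.1).pow (D - d q.1))
    rwa [one_mul, Nat.add_sub_cancel' (hD q.1)] at h2
  refine h.weights_of_top hw0 hw (i0 := i0) (ρ := B.card * (D - 1)) ?_ k ?_ φ
  · intro t ht p hp
    obtain ⟨b, hb⟩ := Nat.exists_eq_add_of_le (Nat.le_mul_of_pos_left B.card hc)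
    have h2 := Pool.Agent.J6H82.CIQ.low hD0 B b F hF (by
      rw [Fintype.card_prod, Fintype.card_fin, Fintype.card_coe]
      exact hb) (by
      intro v hvB hv
      by_contra hv0
      obtain ⟨i, hi⟩ : ∃ i, v i ≠ 0 := by
        by_contra hc
        push Not at hc
        exact hv0 (funext hc)
      have hiB : i ∈ B := by
        by_contra hiB
        exact hi (hvB i hiB)
      have h3 : ∀ j, eval v (f j) = 0 := by
        intro j
        have h4 := hv (j, ⟨i, hiB⟩)
        simp only [F, map_mul, map_pow, eval_X] at h4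
        exact (mul_eq_zero.1 h4).resolve_right (pow_ne_zero _ hi)
      refine hv0 (hmin v ((h.zero v).2 h3) (fun i' hi' => hvB i' fun hi2 => ?_)
        (hvB i0 fun hi2 => ((hBm i0).1 hi2).1 rfl))
      exact ((hBm i').1 hi2).2 hi') t ht p hp
    have h3 : Ideal.span (Set.range F) ⊔ Ideal.span (X '' {i | i ∉ B}) ≤
        I ⊔ Ideal.span (X '' {i | w i = 0}) ⊔ Ideal.span {X i0} := by
      refine sup_le ?_ ?_
      · rw [Ideal.span_le]
        rintro _ ⟨q, rfl⟩
        refine Ideal.mem_sup_left (Ideal.mem_sup_left (Ideal.mul_mem_right _ _ ?_))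
        rw [h.hI]
        exact Ideal.subset_span ⟨q.1, rfl⟩
      · rw [Ideal.span_le]
        rintro _ ⟨i, hi, rfl⟩
        by_cases h4 : i = i0
        · rw [h4]
          exact Ideal.mem_sup_right (Ideal.mem_span_singleton_self _)
        · refine Ideal.mem_sup_left (Ideal.mem_sup_right (Ideal.subset_span ⟨i, ?_, rfl⟩))
          by_contra h5
          exact hi ((hBm i).2 ⟨h4, h5⟩)
    exact h3 h2
  · exact (Nat.mul_le_mul_right _ (by omega)).trans hk

/-- the number of nonzero coordinates drops -/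
theorem ncard_lt {v w : Fin n → ℂ} (h : ∀ i, w i = 0 → v i = 0) {i0 : Fin n} (h1 : w i0 ≠ 0)
    (h2 : v i0 = 0) : {i | v i ≠ 0}.ncard < {i | w i ≠ 0}.ncard := by
  refine Set.ncard_lt_ncard ?_ (Set.toFinite _)
  have h3 : {i | v i ≠ 0} ⊆ {i | w i ≠ 0} := fun i hi hi' => hi (h i hi')
  rw [Set.ssubset_iff_of_subset h3]
  exact ⟨i0, h1, fun h3 => h3 h2⟩

theorem ncard_le {v w : Fin n → ℂ} (h : ∀ i, w i = 0 → v i = 0) :
    {i | v i ≠ 0}.ncard ≤ {i | w i ≠ 0}.ncard :=
  Set.ncard_le_ncard (fun i hi hi' => hi (h i hi')) (Set.toFinite _)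

/-- The main theorem on functions on monomials. -/
theorem Eqs.const (h : Eqs x I c f d) [Fintype M] (F : Fn n) {y : Fin n → ℂ} (hy0 : y ≠ 0)
    (hy : ∀ p ∈ I, eval y p = 0) (hE : ∀ p ∈ I, F.E y p = 0) {e : ℕ}
    (he : ∑ j, (d j - 1) + 1 ≤ e)
    (hcase : Pos I c y ∨ ∃ D, (∀ j, d j ≤ D) ∧ (c * (D - 1) + 1 ≤ e ∨ ∑ j, (d j - 1) + D ≤ e))
    {χ : M} (hc : ∀ m m', U x {i | y i = 0} e χ m → U x {i | y i = 0} e χ m' →
      F.r m = F.r m') (s : ℕ) : ∀ φ m m', U x {i | y i = 0} s φ m →
      U x {i | y i = 0} s φ m' → F.r m = F.r m' := by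
  classical
  by_cases hpos : Pos I c y
  · have h1 := hpos y hy0 hy fun _ h => h
    by_cases h2 : c + 2 ≤ {i | y i ≠ 0}.ncard
    · exact h.constB F hy0 h2 hpos he hc s
    · obtain ⟨i0, hi0⟩ : ∃ i, y i ≠ 0 := by
        by_contra hc
        push Not at hc
        exact hy0 (funext hc)
      refine h.constA F hy0 hy hE hi0 ?_ (by omega) hc s
      intro v hv hvy hvi
      by_contra hv0
      have h3 := hpos v hv0 hv hvy
      have h4 := ncard_lt hvy hi0 hvi
      omega
  · obtain ⟨D, hD, hcase⟩ := hcase.resolve_left hpos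
    -- a point of minimal support
    let P : ℕ → Prop := fun k => ∃ w : Fin n → ℂ, w ≠ 0 ∧ (∀ p ∈ I, eval w p = 0) ∧
      (∀ i, y i = 0 → w i = 0) ∧ {i | w i ≠ 0}.ncard = k
    have hP : ∃ k, P k := ⟨_, y, hy0, hy, fun _ h => h, rfl⟩
    obtain ⟨w, hw0, hw, hwy, hwk⟩ := Nat.find_spec hP
    have hle : {i | w i ≠ 0}.ncard ≤ c := by
      unfold Pos at hpos
      push Not at hpos
      obtain ⟨v, hv0, hv, hvy, hvc⟩ := hpos
      rw [hwk]
      exact (Nat.find_min' hP ⟨v, hv0, hv, hvy, rfl⟩).trans hvc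
    obtain ⟨i0, hi0⟩ : ∃ i, w i ≠ 0 := by
      by_contra hc
      push Not at hc
      exact hw0 (funext hc)
    have hmin : Min I w i0 := by
      intro v hv hvw hvi
      by_contra hv0
      have h3 := Nat.find_min' hP ⟨v, hv0, hv, fun i hi => hvw i (hwy i hi), rfl⟩
      have h4 := ncard_lt hvw hi0 hvi
      omega
    have hc0 : 0 < c := by
      have : 0 < {i | w i ≠ 0}.ncard := (Set.ncard_pos (Set.toFinite _)).2 ⟨i0, hi0⟩
      omega
    have hD0 : 0 < D := (h.hd ⟨0, hc0⟩).trans_le (hD _)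
    have hZ : {i | y i = 0} ⊆ {i | w i = 0} := fun i hi => hwy i hi
    rcases hcase with hcase | hcase
    · have h5 : (c - 1) * (D - 1) + D ≤ e := by
        obtain ⟨c', rfl⟩ : ∃ c', c = c' + 1 := ⟨c - 1, by omega⟩
        have h6 : (c' + 1) * (D - 1) = c' * (D - 1) + (D - 1) := by ring
        rw [h6] at hcase
        rw [Nat.add_sub_cancel]
        omega
      exact h.constC F hw0 hw hi0 hmin (ρ := (c - 1) * (D - 1))
        (fun k hk φ => h.low hD hw0 hw hi0 hmin hle k hk φ) (fun j => by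
          have := hD j
          omega) (by omega) (by omega) hZ hc s
    · exact h.constC F hw0 hw hi0 hmin (ρ := ∑ j, (d j - 1))
        (fun k hk φ => h.ex w hw0 hw k hk φ) (fun j => by
          have := hD j
          omega) (by omega) (by omega) hZ hc s

end

end Pool.Agent.J6H82.CIQ
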