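import Mathlib

/-!
# The counting argument
-/

set_option autoImplicit false

namespace Pool.Agent.J6H82.CIQ

variable {M ι : Type} [AddCommGroup M]

/-- induction along monomials -/
theorem along {P : ι → Prop} {w : ι → M} {Q : ℕ → M → ℕ → M → Prop}
    (h0 : ∀ s φ, Q s φ s φ)
    (h1 : ∀ s φ s' φ' i, P i → Q s φ s' φ' → Q s φ (s' + 1) (φ' + w i)) (k : ℕ) :
    ∀ (m : ι →₀ ℕ), m.degree = k → (∀ i, m i ≠ 0 → P i) → ∀ s φ,
      Q s φ (s + k) (φ + Finsupp.weight w m) := by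
  classical
  induction k with
  | zero =>
    intro m hm _ s φ
    rw [Finsupp.degree_eq_zero_iff] at hm
    rw [hm, map_zero, add_zero, add_zero]
    exact h0 s φ
  | succ k ih =>
    intro m hm hP s φ
    obtain ⟨i, hi⟩ : ∃ i, m i ≠ 0 := by
      by_contra hcon
      push Not at hcon
      have : m = 0 := Finsupp.ext hcon
      rw [this, map_zero] at hm
      omega
    have h2 := Finsupp.weight_sub_single_add (w := w) hi
    have h3 : (m - Finsupp.single i 1) + Finsupp.single i 1 = m := by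
      rw [tsub_add_cancel_of_le]
      rw [Finsupp.single_le_iff]
      omega
    have h4 : (m - Finsupp.single i 1).degree = k := by
      have := congrArg Finsupp.degree h3
      rw [map_add, Finsupp.degree_single, hm] at this
      omega
    have h5 := ih (m - Finsupp.single i 1) h4 (fun j hj => hP j (by
      intro h
      apply hj
      rw [Finsupp.tsub_apply, h, Nat.zero_sub])) s φ
    have h6 := h1 s φ _ _ i (hP i hi) h5
    rw [add_assoc φ, h2] at h6
    exact h6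

theorem key_num [Fintype M] (J : Finset ι) (w : ι → M) (NA : ℕ → M → ℕ)
    (NB : ι → ℕ → M → ℕ) (σ0 D : ℕ) {a0 b0 : ι} (ha0 : a0 ∈ J) (hb0 : b0 ∈ J) (hab : a0 ≠ b0)
    (mono : ∀ a ∈ J, ∀ b ∈ J, a ≠ b → ∀ s φ, NB a s φ ≤ NB a (s + 1) (φ + w b))
    (exact : ∀ a ∈ J, ∀ s φ, NA (s + 1) (φ + w a) = NA s φ + NB a (s + 1) (φ + w a))
    (totB : ∀ a ∈ J, ∀ s, σ0 ≤ s → ∑ φ, NB a s φ = D)
    (totA : ∀ s, σ0 ≤ s → 2 * ((∑ φ, NA s φ : ℕ) : ℤ) = D * (2 * (s + 1) - σ0))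
    (mon : ∀ a ∈ J, ∀ φ, ∃ m : ι →₀ ℕ, m.degree = σ0 ∧ Finsupp.weight w m = φ ∧
      ∀ i, m i ≠ 0 → i ∈ J ∧ i ≠ a)
    (hD : 0 < D) {t : ℕ} (ht : σ0 ≤ 2 * t + 1) (ψ : M) : NA t ψ ≠ 0 := by
  classical
  set q := Fintype.card M with hq
  -- another index
  have other : ∀ a ∈ J, ∃ b ∈ J, a ≠ b := by
    intro a ha
    by_cases h : a = a0
    · exact ⟨b0, hb0, h ▸ hab⟩
    · exact ⟨a0, ha0, h⟩
  -- the numbers `NB` do not change in large degrees
  have hB1 : ∀ a ∈ J, ∀ b ∈ J, a ≠ b → ∀ s, σ0 ≤ s → ∀ φ, NB a (s + 1) (φ + w b) = NB a s φ := by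
    intro a ha b hb hne s hs φ
    have h1 : ∑ φ, NB a s φ = ∑ φ, NB a (s + 1) (φ + w b) := by
      rw [totB a ha s hs, ← totB a ha (s + 1) (by omega)]
      exact (Equiv.sum_comp (Equiv.addRight (w b)) (NB a (s + 1))).symm
    exact (((Finset.sum_eq_sum_iff_of_le fun φ _ => mono a ha b hb hne s φ).1 h1) φ
      (Finset.mem_univ _)).symm
  have hB2 : ∀ a ∈ J, ∀ s, σ0 ≤ s → ∀ φ φ', NB a s φ = NB a s φ' := by
    intro a ha s hs φ φ'
    have key : ∀ φ, NB a (s + σ0) 0 = NB a s φ := by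
      intro φ
      obtain ⟨m, hm1, hm2, hm3⟩ := mon a ha (-φ)
      have h1 := along (P := fun i => i ∈ J ∧ i ≠ a) (w := w)
        (Q := fun s φ s' φ' => σ0 ≤ s → s ≤ s' ∧ NB a s' φ' = NB a s φ)
        (fun s φ _ => ⟨le_rfl, rfl⟩)
        (fun s φ s' φ' i hi h hs => by
          obtain ⟨h2, h3⟩ := h hs
          exact ⟨by omega, by rw [hB1 a ha i hi.1 (Ne.symm hi.2) s' (by omega), h3]⟩)
        σ0 m hm1 hm3 s φ hs
      rw [hm2, add_neg_cancel] at h1
      exact h1.2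
    rw [← key φ, key φ']
  have hB3 : ∀ a ∈ J, ∀ s, σ0 ≤ s → ∀ φ, q * NB a s φ = D := by
    intro a ha s hs φ
    rw [← totB a ha s hs, Finset.sum_congr rfl fun φ' _ => hB2 a ha s hs φ' φ, Finset.sum_const,
      Finset.card_univ, smul_eq_mul]
  have hB4 : ∀ a ∈ J, ∀ s φ, q * NB a s φ ≤ D := by
    intro a ha s φ
    obtain ⟨b, hb, hne⟩ := other a ha
    have h1 : ∀ k, ∃ φ', NB a s φ ≤ NB a (s + k) φ' := by
      intro k
      induction k with
      | zero => exact ⟨φ, le_rfl⟩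
      | succ k ih =>
        obtain ⟨φ', h⟩ := ih
        exact ⟨φ' + w b, h.trans (mono a ha b hb hne _ _)⟩
    obtain ⟨φ', h⟩ := h1 σ0
    rw [← hB3 a ha (s + σ0) (by omega) φ']
    exact Nat.mul_le_mul_left _ h
  -- the numbers `NA`
  have hA1 : ∀ s, σ0 ≤ s → ∀ φ φ', NA s φ = NA s φ' := by
    intro s hs φ φ'
    have hq0 : 0 < q := Fintype.card_pos
    have key : ∀ φ, q * NA (s + σ0) 0 = q * NA s φ + σ0 * D := by
      intro φ
      obtain ⟨m, hm1, hm2, hm3⟩ := mon a0 ha0 (-φ)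
      have h1 := along (P := fun i => i ∈ J) (w := w)
        (Q := fun s φ s' φ' => σ0 ≤ s → s ≤ s' ∧ q * NA s' φ' = q * NA s φ + (s' - s) * D)
        (fun s φ _ => ⟨le_rfl, by simp⟩)
        (fun s φ s' φ' i hi h hs => by
          obtain ⟨h2, h3⟩ := h hs
          refine ⟨by omega, ?_⟩
          rw [exact i hi, mul_add, hB3 i hi (s' + 1) (by omega), h3,
            show s' + 1 - s = (s' - s) + 1 by omega]
          ring)
        σ0 m hm1 (fun i hi => (hm3 i hi).1) s φ hs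
      rw [hm2, add_neg_cancel, Nat.add_sub_cancel_left] at h1
      exact h1.2
    have h1 := key φ
    have h2 := key φ'
    have h3 : q * NA s φ = q * NA s φ' := by omega
    exact Nat.eq_of_mul_eq_mul_left hq0 h3
  have hA2 : ∀ s, σ0 ≤ s → ∀ φ, 2 * (q * NA s φ : ℤ) = D * (2 * (s + 1) - σ0) := by
    intro s hs φ
    rw [← totA s hs, Finset.sum_congr rfl fun φ' _ => hA1 s hs φ' φ, Finset.sum_const,
      Finset.card_univ, smul_eq_mul]
    push_cast
    rfl
  have hA3 : ∀ k, ∃ φ', q * NA (t + k) φ' ≤ q * NA t ψ + k * D := by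
    intro k
    induction k with
    | zero => exact ⟨ψ, by simp⟩
    | succ k ih =>
      obtain ⟨φ', h⟩ := ih
      refine ⟨φ' + w a0, ?_⟩
      rw [← add_assoc, exact a0 ha0, mul_add]
      have h1 := hB4 a0 ha0 (t + k + 1) (φ' + w a0)
      have h2 : (k + 1) * D = k * D + D := by ring
      omega
  obtain ⟨φ', h1⟩ := hA3 σ0
  have h2 := hA2 (t + σ0) (by omega) φ'
  intro h3
  rw [h3, mul_zero, zero_add] at h1
  have h4 : ((q * NA (t + σ0) φ' : ℕ) : ℤ) ≤ ((σ0 * D : ℕ) : ℤ) := by exact_mod_cast h1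
  push_cast at h4 h2
  have h5 : (1 : ℤ) ≤ D := by exact_mod_cast hD
  have h6 : (σ0 : ℤ) ≤ 2 * t + 1 := by exact_mod_cast ht
  nlinarith

end Pool.Agent.J6H82.CIQ
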