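import Pool.Agent.J6H82.CIQ.Transfer

/-!
# Groups with many elements of order `p`
-/

set_option autoImplicit false

namespace Pool.Agent.J6H82.CIQ

open Module MvPolynomial Pool.Agent.N212.FQ

open Pool.Agent.TH144.MB (Sit mv)

/-- the elements of order dividing `p` of a group which acts freely are bounded by the number of
nonzero coordinates of a point -/
theorem torsion_le {Q : Type} [Group Q] [Finite Q] {n : ℕ} (S : Sit ℂ Q n) {v : Fin n → ℂ}
    (hv0 : v ≠ 0) (hv : ∀ p ∈ S.I, eval v p = 0) {p : ℕ} (hp : 0 < p) :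
    Nat.card {q : Q // q ^ p = 1} ≤ p ^ ({i | v i ≠ 0}.ncard - 1) := by
  classical
  haveI : NeZero p := ⟨hp.ne'⟩
  obtain ⟨i0, hi0⟩ : ∃ i, v i ≠ 0 := by
    by_contra hc
    push Not at hc
    exact hv0 (funext hc)
  let B : Type := {i : Fin n // v i ≠ 0 ∧ i ≠ i0}
  have hB : Fintype.card B = {i | v i ≠ 0}.ncard - 1 := by
    have h1 : {i | v i ≠ 0}.ncard = (Finset.univ.filter fun i => v i ≠ 0).card := by
      rw [← Set.ncard_coe_finset]
      congr 1
      ext i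
      simp
    rw [h1, ← Finset.card_erase_of_mem (a := i0) (by simp [hi0]), Fintype.card_subtype]
    congr 1
    ext i
    simp [and_comm]
  have hroot : ∀ (q : {q : Q // q ^ p = 1}) (i : Fin n),
      S.α i q.1 * (S.α i0 q.1)⁻¹ ∈ rootsOfUnity p ℂ := by
    intro q i
    rw [mem_rootsOfUnity, mul_pow, inv_pow, ← map_pow, ← map_pow, q.2, map_one, map_one, inv_one,
      one_mul]
  let Φ : {q : Q // q ^ p = 1} → B → rootsOfUnity p ℂ := fun q i => ⟨_, hroot q i.1⟩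
  have hΦ : Function.Injective Φ := by
    intro q q' h
    have h1 : ∀ i, v i ≠ 0 → S.α i q.1 * (S.α i0 q.1)⁻¹ = S.α i q'.1 * (S.α i0 q'.1)⁻¹ := by
      intro i hi
      by_cases hi1 : i = i0
      · rw [hi1, mul_inv_cancel, mul_inv_cancel]
      · exact congrArg Subtype.val (congrFun h ⟨i, hi, hi1⟩)
    have h2 : q.1⁻¹ * q'.1 = 1 := by
      refine S.free v hv0 hv _ (((S.α i0 (q.1⁻¹ * q'.1) : ℂˣ)) : ℂ) fun i => ?_
      by_cases hi : v i = 0
      · rw [hi, mul_zero, mul_zero]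
      · congr 2
        rw [map_mul, map_mul, map_inv, map_inv]
        have h3 := h1 i hi
        calc (S.α i q.1)⁻¹ * S.α i q'.1 = (S.α i q.1 * (S.α i0 q.1)⁻¹)⁻¹ *
              (S.α i q'.1 * (S.α i0 q'.1)⁻¹) * ((S.α i0 q.1)⁻¹ * S.α i0 q'.1) := by
              rw [mul_inv, inv_inv]
              have e1 : S.α i0 q.1 * (S.α i0 q.1)⁻¹ = 1 := mul_inv_cancel _
              have e2 : (S.α i0 q'.1)⁻¹ * S.α i0 q'.1 = 1 := inv_mul_cancel _
              calc (S.α i q.1)⁻¹ * S.α i q'.1 =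
                  (S.α i q.1)⁻¹ * S.α i q'.1 * ((S.α i0 q.1 * (S.α i0 q.1)⁻¹) *
                    ((S.α i0 q'.1)⁻¹ * S.α i0 q'.1)) := by rw [e1, e2, mul_one, mul_one]
                _ = _ := by
                  simp only [mul_comm, mul_left_comm, mul_assoc]
          _ = (S.α i0 q.1)⁻¹ * S.α i0 q'.1 := by rw [h3, inv_mul_cancel, one_mul]
    exact Subtype.ext (inv_mul_eq_one.1 h2)
  have h1 := Nat.card_le_card_of_injective Φ hΦ
  rw [Nat.card_fun, Nat.card_eq_fintype_card (α := B), hB, Complex.card_rootsOfUnity] at h1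
  exact h1

/-- If `G/S` has at least `p ^ c` elements of order dividing `p` then all points have more than `c`
nonzero coordinates. -/
theorem supp_of_torsion {M : ℕ} {G : Type} [Group G] {ρ : Representation ℂ G (Fin M → ℂ)}
    [Finite G] {c : ℕ} {f : Fin c → MvPolynomial (Fin M) ℂ} {d : Fin c → ℕ}
    (hf : ∀ j, (f j).IsHomogeneous (d j))
    {I : Ideal (MvPolynomial (Fin M) ℂ)} (hI : I = Ideal.span (Set.range f))
    (hst : ∀ g, ∀ p ∈ I, subst (ρ g) p ∈ I)
    (hfree : ∀ v : Fin M → ℂ, v ≠ 0 → (∀ p ∈ I, eval v p = 0) → ∀ (g : G) (μ : ℂ),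
      ρ g v = μ • v → g ∈ scalars ρ)
    (hdiag : ∀ (g : G) (i : Fin M), ∃ a : ℂ, ρ g (Pi.single i 1) = a • Pi.single i 1)
    {p : ℕ} (hp : 2 ≤ p)
    (h : p ^ c * Nat.card (scalars ρ) ≤ Nat.card {g : G // g ^ p ∈ scalars ρ})
    {v : Fin M → ℂ} (hv0 : v ≠ 0) (hv : ∀ p ∈ I, eval v p = 0) : c < {i | v i ≠ 0}.ncard := by
  classical
  obtain ⟨i0, hi0⟩ : ∃ i, v i ≠ 0 := by
    by_contra hc
    push Not at hc
    exact hv0 (funext hc)
  obtain ⟨S, γ, rfl, -, -, -⟩ := exists_sit hf hI hst hfree hdiag i0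
  have h1 := torsion_le S hv0 hv (p := p) (by omega)
  by_contra hcon
  -- the elements of `G`
  let Ψ : {g : G // g ^ p ∈ scalars ρ} → {q : G ⧸ scalars ρ // q ^ p = 1} × scalars ρ := fun g =>
    (⟨(g.1 : G ⧸ scalars ρ), by
      rw [← QuotientGroup.mk_pow, QuotientGroup.eq_one_iff]; exact g.2⟩,
     ⟨((g.1 : G ⧸ scalars ρ).out)⁻¹ * g.1, by
      rw [← QuotientGroup.eq, QuotientGroup.out_eq']⟩)
  have hΨ : Function.Injective Ψ := by
    intro g g' hgg
    have h2 : (g.1 : G ⧸ scalars ρ) = (g'.1 : G ⧸ scalars ρ) :=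
      congrArg Subtype.val (congrArg Prod.fst hgg)
    have h3 : ((g.1 : G ⧸ scalars ρ).out)⁻¹ * g.1 = ((g'.1 : G ⧸ scalars ρ).out)⁻¹ * g'.1 :=
      congrArg Subtype.val (congrArg Prod.snd hgg)
    rw [h2] at h3
    exact Subtype.ext (mul_left_cancel h3)
  have h2 := Nat.card_le_card_of_injective Ψ hΨ
  rw [Nat.card_prod] at h2
  have hpos : 0 < Nat.card (scalars ρ) := Nat.card_pos
  have h3 : p ^ c * Nat.card (scalars ρ) ≤
      p ^ ({i | v i ≠ 0}.ncard - 1) * Nat.card (scalars ρ) :=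
    h.trans (h2.trans (Nat.mul_le_mul_right _ h1))
  have h4 := Nat.le_of_mul_le_mul_right h3 hpos
  have h5 := (Nat.pow_le_pow_iff_right (by omega)).1 h4
  have h6 : 0 < {i | v i ≠ 0}.ncard := (Set.ncard_pos (Set.toFinite _)).2 ⟨i0, hi0⟩
  omega

end Pool.Agent.J6H82.CIQ
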