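import Pool.Agent.J6H82.CIQ.Low
import Pool.Agent.J6H82.CIQ.Grp

/-!
# Separation of orbits and of tangent vectors
-/

set_option autoImplicit false

namespace Pool.Agent.J6H82.CIQ

open MvPolynomial Module Pool.Agent.TH144.MB

section
variable {n : ℕ}

theorem mon_add (m m' : Fin n →₀ ℕ) (v : Fin n → ℂ) : mon (m + m') v = mon m v * mon m' v := by
  simp only [mon, Finsupp.add_apply, pow_add, Finset.prod_mul_distrib]

theorem mon_mul (m : Fin n →₀ ℕ) (a v : Fin n → ℂ) :
    mon m (fun i => a i * v i) = mon m a * mon m v := by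
  simp only [mon, mul_pow, Finset.prod_mul_distrib]

/-- the values at the translated points -/
noncomputable def Fn.mul (a : Fin n → ℂ) (ha : ∀ i, a i ≠ 0) : Fn n where
  r m := mon m a
  E w := (aeval fun i => a i * w i : MvPolynomial (Fin n) ℂ →ₐ[ℂ] ℂ).toLinearMap
  mono w m := by
    rw [← mon_mul, ← eval_mono]
    rfl
  ideal w b p _ h := by
    have h1 : (aeval fun i => a i * w i : MvPolynomial (Fin n) ℂ →ₐ[ℂ] ℂ) p = 0 := h
    show (aeval fun i => a i * w i : MvPolynomial (Fin n) ℂ →ₐ[ℂ] ℂ) (b * p) = 0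
    rw [map_mul, h1, mul_zero]
  cancel w m p hm _ h := by
    have h1 : (aeval fun i => a i * w i : MvPolynomial (Fin n) ℂ →ₐ[ℂ] ℂ)
      (monomial m 1 * p) = 0 := h
    have h2 : (aeval fun i => a i * w i : MvPolynomial (Fin n) ℂ →ₐ[ℂ] ℂ) (monomial m 1) ≠ 0 := by
      have h3 : mon m a * mon m w ≠ 0 := mul_ne_zero (mon_ne_zero fun i hi => absurd hi (ha i)) hm
      rw [← mon_mul, ← eval_mono] at h3
      exact h3
    rw [map_mul] at h1
    exact (mul_eq_zero.1 h1).resolve_left h2
  add m m' τ := by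
    rw [mon_add, mon_add]
    exact mul_left_inj' (mon_ne_zero fun i hi => absurd hi (ha i))

/-- the derivative at `y` in the direction `u` -/
noncomputable def der (y u : Fin n → ℂ) : MvPolynomial (Fin n) ℂ →ₗ[ℂ] ℂ where
  toFun p := dv p y u
  map_add' p q := by simp only [dv, map_add, add_mul, Finset.sum_add_distrib]
  map_smul' a p := by
    simp only [dv, RingHom.id_apply, smul_eq_mul, Finset.mul_sum, Derivation.map_smul]
    refine Finset.sum_congr rfl fun i _ => ?_
    rw [smul_eval, mul_assoc]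

theorem der_apply (y u : Fin n → ℂ) (p : MvPolynomial (Fin n) ℂ) : der y u p = dv p y u := rfl

theorem dv_mul (p q : MvPolynomial (Fin n) ℂ) (y u : Fin n → ℂ) :
    dv (p * q) y u = eval y p * dv q y u + eval y q * dv p y u := by
  simp only [dv, Derivation.leibniz, smul_eq_mul, map_add, map_mul, add_mul,
    Finset.sum_add_distrib, Finset.mul_sum]
  congr 1 <;> exact Finset.sum_congr rfl fun i _ => by ring

/-- the derivatives along a diagonal vector field -/
noncomputable def Fn.der (ξ : Fin n → ℂ) : Fn n where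
  r m := ∑ i, (m i : ℂ) * ξ i
  E w := CIQ.der w fun i => ξ i * w i
  mono w m := by rw [der_apply, dv_monomial]
  ideal w a p h0 h := by
    rw [der_apply] at h
    rw [der_apply, dv_mul, h0, h, mul_zero, zero_mul, add_zero]
  cancel w m p hm h0 h := by
    rw [der_apply, dv_mul, h0, zero_mul, add_zero, eval_mono] at h
    rw [der_apply]
    exact (mul_eq_zero.1 h).resolve_left hm
  add m m' τ := by
    have h2 : ∀ m m' : Fin n →₀ ℕ, ∑ i, (((m + m') i : ℕ) : ℂ) * ξ i =
        ∑ i, (m i : ℂ) * ξ i + ∑ i, (m' i : ℂ) * ξ i := by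
      intro m m'
      rw [← Finset.sum_add_distrib]
      exact Finset.sum_congr rfl fun i _ => by rw [Finsupp.add_apply]; push_cast; ring
    simp only [h2, add_left_inj]

end

section
variable {G : Type} [Group G] [Fintype G] {n : ℕ} {S : Sit ℂ G n}
variable {c : ℕ} {f : Fin c → MvPolynomial (Fin n) ℂ} {d : Fin c → ℕ}

theorem eqs_of (hf : ∀ j, (f j).IsHomogeneous (d j)) (hd : ∀ j, 0 < d j)
    (hI : S.I = Ideal.span (Set.range f)) (hst : ∀ g, ∀ p ∈ S.I, act S.α g p ∈ S.I) :
    Eqs (wt S.α) S.I c f d where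
  hf := hf
  hd := hd
  hI := hI
  wh := WH_of_stable hst
  ex y hy0 hy s hs φ := by
    have htop : TopBound S.I (∑ j, (d j - 1)) := by
      rw [hI]
      exact topBound_forms f d hf hd
    obtain ⟨m, hm, hmc, hmy⟩ := S.exists_mono htop hy0 hy φ.toMul hs
    refine ⟨m, hm, weight_wt_iff.2 hmc, fun i hi => ?_⟩
    by_contra h1
    exact mon_ne hmy h1 hi

/-- the condition for the separation at `y` in degree `e` -/
def Cond (S : Sit ℂ G n) (c : ℕ) (d : Fin c → ℕ) (e : ℕ) (y : Fin n → ℂ) : Prop :=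
  Pos S.I c y ∨ ∃ D, (∀ j, d j ≤ D) ∧ (c * (D - 1) + 1 ≤ e ∨ ∑ j, (d j - 1) + D ≤ e)

/-- points with the same nonvanishing coordinates -/
theorem Eqs.same (h : Eqs (wt S.α) S.I c f d) {y y' : Fin n → ℂ} (hy0 : y ≠ 0)
    (hy : ∀ p ∈ S.I, eval y p = 0) (hy' : ∀ p ∈ S.I, eval y' p = 0)
    (hs : ∀ i, y' i = 0 ↔ y i = 0) (hne : ∀ g, mv S.α g y' ∉ Submodule.span ℂ {y}) (χ : G →* ℂˣ)
    {e : ℕ} (he : ∑ j, (d j - 1) + 1 ≤ e) (hcase : Cond S c d e y) :
    ∃ F, Typ S.α χ e F ∧ eval y F ≠ 0 ∧ eval y' F = 0 := by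
  classical
  by_contra hcon
  push Not at hcon
  have hcon' : ∀ F, Typ S.α χ e F → eval y' F = 0 → eval y F = 0 := by
    intro F hF h1
    by_contra h2
    exact hcon F hF h2 h1
  have := finite_chars G
  have := Fintype.ofFinite (Additive (G →* ℂˣ))
  obtain ⟨a, ha0, ha⟩ : ∃ a : Fin n → ℂ, (∀ i, a i ≠ 0) ∧ y' = fun i => a i * y i := by
    refine ⟨fun i => if y i = 0 then 1 else y' i / y i, fun i => ?_, funext fun i => ?_⟩
    · show (if y i = 0 then (1 : ℂ) else y' i / y i) ≠ 0
      split_ifs with hi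
      · exact one_ne_zero
      · exact div_ne_zero (fun h => hi ((hs i).1 h)) hi
    · show y' i = (if y i = 0 then (1 : ℂ) else y' i / y i) * y i
      split_ifs with hi
      · rw [hi, mul_zero]
        exact (hs i).2 hi
      · rw [div_mul_cancel₀ _ hi]
  have hE : ∀ p, (Fn.mul a ha0).E y p = eval y' p := by
    intro p
    rw [ha]
    rfl
  have key := h.const (Fn.mul a ha0) hy0 hy (fun p hp => by rw [hE]; exact hy' p hp) he hcase
    (χ := Additive.ofMul χ) (by
      intro m m' hm hm'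
      have h4 := typ_monomial (weight_wt_iff.1 hm.2.1)
      rw [hm.1] at h4
      have h5 := typ_monomial (weight_wt_iff.1 hm'.2.1)
      rw [hm'.1] at h5
      have h6 := hcon' _ ((h4.C_mul (mon m' y')).sub (h5.C_mul (mon m y'))) (by
        rw [map_sub, map_mul, map_mul, eval_C, eval_C, eval_mono, eval_mono]; ring)
      rw [map_sub, map_mul, map_mul, eval_C, eval_C, eval_mono, eval_mono, ha, mon_mul,
        mon_mul] at h6
      have h7 := mon_ne_zero hm.2.2
      have h8 := mon_ne_zero hm'.2.2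
      show mon m a = mon m' a
      have h9 : (mon m' a - mon m a) * (mon m y * mon m' y) = 0 := by linear_combination h6
      rcases mul_eq_zero.1 h9 with h | h
      · exact (sub_eq_zero.1 h).symm
      · exact absurd h (mul_ne_zero h7 h8))
  -- a form of degree `|G|` which vanishes on the orbit of `y`, and not at `y'`
  have hl : ∀ g : G, ∃ L : MvPolynomial (Fin n) ℂ, L.IsHomogeneous 1 ∧
      eval (mv S.α g y) L = 0 ∧ eval y' L ≠ 0 := by
    intro g
    have h1 : y' ∉ Submodule.span ℂ {mv S.α g y} := by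
      intro h1
      obtain ⟨b, hb⟩ := Submodule.mem_span_singleton.1 h1
      refine hne g⁻¹ (Submodule.mem_span_singleton.2 ⟨b, ?_⟩)
      rw [← hb, mv_smul, mv_mv, inv_mul_cancel, mv_one]
    obtain ⟨a, ha1, ha2⟩ := exists_lin_of_notMem h1
    exact ⟨lin a, lin_hom a, ha2 _ (Submodule.mem_span_singleton_self _), ha1⟩
  choose L hL1 hL2 hL3 using hl
  set F : MvPolynomial (Fin n) ℂ := ∏ g, L g with hF
  have hFh : F.IsHomogeneous (Fintype.card G) := by
    have h1 := IsHomogeneous.prod Finset.univ L (fun _ => 1) fun g _ => hL1 g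
    rwa [Finset.sum_const, smul_eq_mul, mul_one, Finset.card_univ] at h1
  have hFy : ∀ g, eval (mv S.α g y) F = 0 := by
    intro g
    rw [hF, map_prod]
    exact Finset.prod_eq_zero (Finset.mem_univ g) (hL2 g)
  have hFy' : eval y' F ≠ 0 := by
    rw [hF, map_prod, Finset.prod_ne_zero_iff]
    exact fun g _ => hL3 g
  apply hFy'
  rw [← sum_comp (wt S.α) F, map_sum]
  refine Finset.sum_eq_zero fun φ _ => ?_
  rw [← hE]
  refine (Fn.mul a ha0).two (key (Fintype.card G) φ) (comp_hom _ _ hFh)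
    (weightedHomogeneousComponent_isWeightedHomogeneous φ F) ?_
  have h1 := eval_comp S.α φ.toMul F y
  have h2 : Lam S.α φ.toMul y F = 0 := by
    unfold Lam
    exact Finset.sum_eq_zero fun g _ => by rw [hFy g, mul_zero]
  rw [h2] at h1
  rcases mul_eq_zero.1 h1 with h3 | h3
  · exact absurd h3 (Nat.cast_ne_zero.2 Fintype.card_ne_zero)
  · exact h3

theorem Eqs.points (h : Eqs (wt S.α) S.I c f d) {y y' : Fin n → ℂ} (hy0 : y ≠ 0)
    (hy : ∀ p ∈ S.I, eval y p = 0) (hy'0 : y' ≠ 0) (hy' : ∀ p ∈ S.I, eval y' p = 0)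
    (hne : ∀ g, mv S.α g y' ∉ Submodule.span ℂ {y}) (χ : G →* ℂˣ)
    {e : ℕ} (he : ∑ j, (d j - 1) + 1 ≤ e) (hcase : Cond S c d e y) :
    ∃ F, Typ S.α χ e F ∧ eval y F ≠ 0 ∧ eval y' F = 0 := by
  classical
  have hρ := h.top
  by_cases h1 : ∃ i, y i ≠ 0 ∧ y' i = 0
  · obtain ⟨i, hi, hi'⟩ := h1
    obtain ⟨m, hm, hmc, hmy⟩ := S.exists_mono hρ hy0 hy (χ * (S.α i)⁻¹) (t := e - 1) (by omega)
    have h2 := (typ_monomial hmc).X_mul
    rw [hm, Nat.sub_add_cancel (by omega)] at h2
    refine ⟨_, h2, ?_, ?_⟩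
    · rw [map_mul, eval_X, eval_mono]
      exact mul_ne_zero hi hmy
    · rw [map_mul, eval_X, hi', zero_mul]
  · by_cases h2 : ∃ i, y i = 0 ∧ y' i ≠ 0
    · obtain ⟨i, hi, hi'⟩ := h2
      obtain ⟨m, hm, hmc, hmy⟩ := S.exists_mono hρ hy'0 hy' (χ * (S.α i)⁻¹) (t := e - 1) (by omega)
      have h2 := (typ_monomial hmc).X_mul
      rw [hm, Nat.sub_add_cancel (by omega)] at h2
      obtain ⟨m', hm', hmc', hmy'⟩ := S.exists_mono hρ hy0 hy χ (t := e) (by omega)
      have h3 := typ_monomial hmc'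
      rw [hm'] at h3
      have h4 : eval y' (X i * monomial m (1 : ℂ)) ≠ 0 := by
        rw [map_mul, eval_X, eval_mono]
        exact mul_ne_zero hi' hmy
      refine ⟨monomial m' 1 - C (eval y' (monomial m' (1 : ℂ))
        / eval y' (X i * monomial m (1 : ℂ))) * (X i * monomial m 1), h3.sub (h2.C_mul _), ?_, ?_⟩
      · rw [map_sub, map_mul, map_mul (eval y) (X i), eval_X, hi, zero_mul, mul_zero, sub_zero,
          eval_mono]
        exact hmy'
      · rw [map_sub, map_mul (eval y') (C _), eval_C, div_mul_cancel₀ _ h4, sub_self]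
    · have hs : ∀ i, y' i = 0 ↔ y i = 0 := by
        push Not at h1 h2
        intro i
        constructor
        · intro h
          by_contra h3
          exact h1 i h3 h
        · intro h
          exact h2 i h
      exact h.same hy0 hy hy' hs hne χ he hcase

theorem Eqs.tangents (h : Eqs (wt S.α) S.I c f d) {y u : Fin n → ℂ} (hy0 : y ≠ 0)
    (hy : ∀ p ∈ S.I, eval y p = 0) (hu : ∀ p ∈ S.I, dv p y u = 0)
    (hne : u ∉ Submodule.span ℂ {y}) (χ : G →* ℂˣ) {e : ℕ} (he : ∑ j, (d j - 1) + 1 ≤ e)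
    (hcase : Cond S c d e y) : ∃ F, Typ S.α χ e F ∧ eval y F = 0 ∧ dv F y u ≠ 0 := by
  classical
  by_contra hcon
  push Not at hcon
  have := finite_chars G
  have := Fintype.ofFinite (Additive (G →* ℂˣ))
  have hρ := h.top
  have h1 : ∀ i, y i = 0 → u i = 0 := by
    intro i hi
    obtain ⟨m, hm, hmc, hmy⟩ := S.exists_mono hρ hy0 hy (χ * (S.α i)⁻¹) (t := e - 1) (by omega)
    have h2 := (typ_monomial hmc).X_mul
    rw [hm, Nat.sub_add_cancel (by omega)] at h2
    have h3 := hcon _ h2 (by rw [map_mul, eval_X, hi, zero_mul])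
    rw [dv_X_mul, hi, zero_mul, add_zero, eval_mono] at h3
    rcases mul_eq_zero.1 h3 with h | h
    · exact absurd h hmy
    · exact h
  obtain ⟨ξ, hξ⟩ : ∃ ξ : Fin n → ℂ, u = fun i => ξ i * y i := by
    refine ⟨fun i => u i / y i, funext fun i => ?_⟩
    by_cases hi : y i = 0
    · rw [h1 i hi, hi, mul_zero]
    · rw [div_mul_cancel₀ _ hi]
  have hmon : ∀ m : Fin n →₀ ℕ, (∀ i, y i = 0 → m i = 0) → mon m y ≠ 0 := fun m hm =>
    mon_ne_zero hm
  have key := h.const (Fn.der ξ) hy0 hy (by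
      intro p hp
      show CIQ.der y (fun i => ξ i * y i) p = 0
      rw [der_apply, ← hξ]
      exact hu p hp) he hcase
      (χ := Additive.ofMul χ) (by
      intro m m' hm hm'
      have h4 := typ_monomial (weight_wt_iff.1 hm.2.1)
      rw [hm.1] at h4
      have h5 := typ_monomial (weight_wt_iff.1 hm'.2.1)
      rw [hm'.1] at h5
      have h6 := hcon _ ((h4.C_mul (mon m' y)).sub (h5.C_mul (mon m y))) (by
        rw [map_sub, map_mul, map_mul, eval_C, eval_C, eval_mono, eval_mono]; ring)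
      rw [dv_sub, dv_C_mul, dv_C_mul, hξ, dv_monomial, dv_monomial] at h6
      have h7 : (∑ i, (m i : ℂ) * ξ i - ∑ i, (m' i : ℂ) * ξ i) * (mon m y * mon m' y) = 0 := by
        linear_combination h6
      rcases mul_eq_zero.1 h7 with h | h
      · exact sub_eq_zero.1 h
      · exact absurd h (mul_ne_zero (hmon m hm.2.2) (hmon m' hm'.2.2)))
  -- the powers of the coordinates
  have hpw : ∀ i, y i ≠ 0 → U (wt S.α) {i | y i = 0} (Fintype.card G) 0
      (Finsupp.single i (Fintype.card G)) := by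
    intro i hi
    refine ⟨Finsupp.degree_single i _, ?_, fun j hj => ?_⟩
    · rw [Finsupp.weight_single]
      have h2 : S.α i ^ Fintype.card G = 1 := by
        ext g
        rw [MonoidHom.pow_apply, ← map_pow, pow_card_eq_one, map_one]
        rfl
      show Fintype.card G • Additive.ofMul (S.α i) = 0
      rw [← ofMul_pow, h2]
      rfl
    · rw [Finsupp.single_apply, if_neg]
      rintro rfl
      exact hi hj
  obtain ⟨i0, hi0⟩ : ∃ i, y i ≠ 0 := by
    by_contra hc
    push Not at hc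
    exact hy0 (funext hc)
  apply hne
  refine Submodule.mem_span_singleton.2 ⟨ξ i0, ?_⟩
  rw [hξ]
  funext i
  by_cases hi : y i = 0
  · simp [hi]
  · have h2 := key (Fintype.card G) 0 _ _ (hpw i hi) (hpw i0 hi0)
    have h3 : ∀ i, ∑ j, ((Finsupp.single i (Fintype.card G) j : ℕ) : ℂ) * ξ j =
        (Fintype.card G : ℂ) * ξ i := by
      intro i
      rw [Finset.sum_eq_single i]
      · simp
      · intro j _ hj
        simp [Finsupp.single_apply, hj.symm]
      · intro h; exact absurd (Finset.mem_univ i) h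
    have h2' : ∑ j, ((Finsupp.single i (Fintype.card G) j : ℕ) : ℂ) * ξ j =
      ∑ j, ((Finsupp.single i0 (Fintype.card G) j : ℕ) : ℂ) * ξ j := h2
    rw [h3, h3] at h2'
    have h4 := mul_left_cancel₀ (Nat.cast_ne_zero.2 Fintype.card_ne_zero) h2'
    rw [h4]
    rfl

end

end Pool.Agent.J6H82.CIQ
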