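import Pool.Agent.J6H82.CIQ.Two
import Pool.Agent.J6H82.Fuj.Order

/-!
# Groups of diagonal matrices with scalars
-/

set_option autoImplicit false

namespace Pool.Agent.J6H82.CIQ

open Module MvPolynomial Pool.Agent.N212.FQ

open Pool.Agent.TH144.MB (Sit mv Typ chr act TopBound)

variable {M : ℕ} {G : Type} [Group G] {ρ : Representation ℂ G (Fin M → ℂ)}

set_option maxHeartbeats 1000000 in
/-- a diagonal group modulo scalars as a group with characters -/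
theorem exists_sit {c : ℕ} {f : Fin c → MvPolynomial (Fin M) ℂ} {d : Fin c → ℕ}
    (hf : ∀ j, (f j).IsHomogeneous (d j))
    {I : Ideal (MvPolynomial (Fin M) ℂ)} (hI : I = Ideal.span (Set.range f))
    (hst : ∀ g, ∀ p ∈ I, subst (ρ g) p ∈ I)
    (hfree : ∀ v : Fin M → ℂ, v ≠ 0 → (∀ p ∈ I, eval v p = 0) → ∀ (g : G) (μ : ℂ),
      ρ g v = μ • v → g ∈ scalars ρ)
    (hdiag : ∀ (g : G) (i : Fin M), ∃ a : ℂ, ρ g (Pi.single i 1) = a • Pi.single i 1)
    (i0 : Fin M) :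
    ∃ (S : Sit ℂ (G ⧸ scalars ρ) M) (γ : G →* ℂˣ), S.I = I ∧
      (∀ (g : G) (v : Fin M → ℂ), ρ g v = (γ g : ℂ) • mv S.α (g : G ⧸ scalars ρ) v) ∧
      (∀ (g : G) (c : ℂ), (∀ x, ρ g x = c • x) → (γ g : ℂ) = c) ∧
      (∀ q, ∀ p ∈ S.I, act S.α q p ∈ S.I) := by
  classical
  choose a ha using hdiag
  have hs0 : ∀ i : Fin M, (Pi.single i (1 : ℂ) : Fin M → ℂ) ≠ 0 := fun i => by simp
  have ha0 : ∀ g i, a g i ≠ 0 := by
    intro g i h
    refine Pool.Agent.N212.FQ.rep_ne_zero (ρ := ρ) (hs0 i) g ?_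
    rw [ha, h, zero_smul]
  have haeq : ∀ (b c : ℂ) (i : Fin M), b • (Pi.single i (1 : ℂ) : Fin M → ℂ) =
      c • Pi.single i 1 → b = c := fun b c i h => smul_left_injective ℂ (hs0 i) h
  let α : Fin M → G →* ℂˣ := fun i =>
    { toFun := fun g => Units.mk0 (a g i) (ha0 g i)
      map_one' := by
        refine Units.ext (haeq _ _ i ?_)
        show a 1 i • _ = (1 : ℂ) • _
        rw [← ha, map_one, one_smul, Module.End.one_apply]
      map_mul' := by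
        intro g h
        refine Units.ext (haeq _ _ i ?_)
        show a (g * h) i • _ = (a g i * a h i) • _
        rw [← ha, map_mul, Module.End.mul_apply, ha, map_smul, ha, smul_smul, mul_comm] }
  have hα : ∀ g i, (α i g : ℂ) = a g i := fun g i => rfl
  -- the matrices are diagonal
  have hρ : ∀ g x i, ρ g x i = (α i g : ℂ) * x i := by
    intro g x i
    have h1 : x = ∑ j, x j • (Pi.single j (1 : ℂ) : Fin M → ℂ) := by
      ext k
      simp [Finset.sum_apply, Pi.single_apply]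
    conv_lhs => rw [h1]
    rw [map_sum, Finset.sum_apply, Finset.sum_eq_single i]
    · rw [map_smul, ha, hα]
      simp
      ring
    · intro j _ hj
      rw [map_smul, ha]
      simp [Pi.single_apply, hj.symm]
    · intro h
      exact absurd (Finset.mem_univ i) h
  have hscal : ∀ g ∈ scalars ρ, ∀ i, α i g = α i0 g := by
    rintro g ⟨c, hc⟩ i
    have h1 : ∀ j, (α j g : ℂ) = c := by
      intro j
      refine haeq _ _ j ?_
      rw [hα, ← ha, hc]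
    exact Units.ext ((h1 i).trans (h1 i0).symm)
  -- the quotient group
  let β : Fin M → (G ⧸ scalars ρ) →* ℂˣ := fun i =>
    QuotientGroup.lift (scalars ρ) (α i * (α i0)⁻¹) (fun g hg => by
      rw [MonoidHom.mem_ker, MonoidHom.mul_apply, MonoidHom.inv_apply, hscal g hg i,
        mul_inv_cancel])
  have hβ : ∀ i (g : G), (β i (g : G ⧸ scalars ρ) : ℂ) = (α i g : ℂ) * ((α i0 g)⁻¹ : ℂˣ) := by
    intro i g
    show ((QuotientGroup.lift _ _ _ (QuotientGroup.mk g) : ℂˣ) : ℂ) = _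
    rw [QuotientGroup.lift_mk]
    rfl
  have hmv : ∀ (g : G) (v : Fin M → ℂ), mv β (g : G ⧸ scalars ρ) v =
      (((α i0 g)⁻¹ : ℂˣ) : ℂ) • ρ g v := by
    intro g v
    ext i
    show (β i _ : ℂ) * v i = _
    rw [hβ, Pi.smul_apply, hρ, smul_eq_mul]
    ring
  have hhom : Pool.Agent.TH144.MB.Hom I := by
    rw [hI]
    refine Pool.Agent.TH144.MB.hom_span ?_
    rintro _ ⟨j, rfl⟩
    exact ⟨_, hf j⟩
  have hzero : ∀ v, (∀ j, eval v (f j) = 0) ↔ ∀ p ∈ I, eval v p = 0 := zero_iff hI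
  -- the action on polynomials
  have hact : ∀ q, ∀ p ∈ I, act β q p ∈ I := by
    intro q
    obtain ⟨g, rfl⟩ := QuotientGroup.mk_surjective q
    have h1 : ∀ j, act β (g : G ⧸ scalars ρ) (f j) =
        C ((((α i0 g)⁻¹ : ℂˣ) : ℂ) ^ d j) * subst (ρ g) (f j) := by
      intro j
      refine MvPolynomial.funext fun x => ?_
      rw [Pool.Agent.TH144.MB.eval_act, hmv, eval_smul_of_isHomogeneous (hf j), map_mul, eval_C,
        eval_subst]
    have h2 : I ≤ I.comap (act β (g : G ⧸ scalars ρ)).toRingHom := by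
      conv_lhs => rw [hI]
      rw [Ideal.span_le]
      rintro _ ⟨j, rfl⟩
      show act β (g : G ⧸ scalars ρ) (f j) ∈ I
      rw [h1]
      exact I.mul_mem_left _ (hst g _ (by rw [hI]; exact Ideal.subset_span ⟨j, rfl⟩))
    exact fun p hp => h2 hp
  refine ⟨{ I := I
            hom := hhom
            α := β
            stable := ?_
            free := ?_ }, α i0, rfl, ?_, ?_, hact⟩
  · intro v hv q p hp
    rw [← Pool.Agent.TH144.MB.eval_act]
    exact hv _ (hact q p hp)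
  · intro v hv0 hv q μ h
    obtain ⟨g, rfl⟩ := QuotientGroup.mk_surjective q
    rw [QuotientGroup.eq_one_iff]
    refine hfree v hv0 hv g ((α i0 g : ℂ) * μ) ?_
    ext i
    have h1 := h i
    rw [hβ] at h1
    rw [hρ, Pi.smul_apply, smul_eq_mul, mul_assoc, ← h1]
    have h2 : (α i0 g : ℂ) * (((α i0 g)⁻¹ : ℂˣ) : ℂ) = 1 := by
      rw [← Units.val_mul, mul_inv_cancel, Units.val_one]
    calc (α i g : ℂ) * v i = (α i g : ℂ) * ((α i0 g : ℂ) * (((α i0 g)⁻¹ : ℂˣ) : ℂ)) * v i := by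
          rw [h2, mul_one]
      _ = _ := by ring
  · intro g v
    show ρ g v = (α i0 g : ℂ) • mv β (g : G ⧸ scalars ρ) v
    rw [hmv, smul_smul, ← Units.val_mul, mul_inv_cancel, Units.val_one, one_smul]
  · intro g c hc
    refine haeq _ _ i0 ?_
    rw [hα, ← ha, hc]

/-- a character of `G` as a character of the quotient -/
theorem exists_char (γ χ : G →* ℂˣ) {e : ℕ}
    (hγ : ∀ (g : G) (c : ℂ), (∀ x, ρ g x = c • x) → (γ g : ℂ) = c)
    (hχ : ∀ (g : G) (c : ℂ), (∀ x, ρ g x = c • x) → (χ g : ℂ) = c ^ e) :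
    ∃ ψ : (G ⧸ scalars ρ) →* ℂˣ, ∀ g : G, (χ g : ℂ) = (γ g : ℂ) ^ e * (ψ (g : G ⧸ scalars ρ) : ℂ) := by
  refine ⟨QuotientGroup.lift (scalars ρ) (χ * γ⁻¹ ^ e) (fun g hg => ?_), fun g => ?_⟩
  · obtain ⟨c, hc⟩ := hg
    have h2 : χ g = γ g ^ e := by
      refine Units.ext ?_
      rw [hχ g c hc, Units.val_pow_eq_pow_val, hγ g c hc]
    rw [MonoidHom.mem_ker, MonoidHom.mul_apply, MonoidHom.pow_apply, MonoidHom.inv_apply, h2,
      ← mul_pow, mul_inv_cancel, one_pow]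
  · rw [QuotientGroup.lift_mk, MonoidHom.mul_apply, MonoidHom.pow_apply, MonoidHom.inv_apply,
      ← Units.val_pow_eq_pow_val, ← Units.val_mul, mul_left_comm, ← mul_pow, mul_inv_cancel,
      one_pow, mul_one]

/-- **Very ampleness for diagonal groups.** -/
theorem very_ample [Finite G] {c : ℕ} {f : Fin c → MvPolynomial (Fin M) ℂ} {d : Fin c → ℕ}
    (hf : ∀ j, (f j).IsHomogeneous (d j)) (hd : ∀ j, 0 < d j)
    {I : Ideal (MvPolynomial (Fin M) ℂ)} (hI : I = Ideal.span (Set.range f))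
    (hst : ∀ g, ∀ p ∈ I, subst (ρ g) p ∈ I)
    (hfree : ∀ v : Fin M → ℂ, v ≠ 0 → (∀ p ∈ I, eval v p = 0) → ∀ (g : G) (μ : ℂ),
      ρ g v = μ • v → g ∈ scalars ρ)
    (hdiag : ∀ (g : G) (i : Fin M), ∃ a : ℂ, ρ g (Pi.single i 1) = a • Pi.single i 1)
    (i0 : Fin M) {e : ℕ} (he : ∑ j, (d j - 1) + 1 ≤ e)
    (hcase : c ≤ 2 ∨ (∀ v : Fin M → ℂ, v ≠ 0 → (∀ p ∈ I, eval v p = 0) →
      {i | v i ≠ 0}.ncard ≤ 2 ∨ c < {i | v i ≠ 0}.ncard) ∨
      ∃ D, (∀ j, d j ≤ D) ∧ (c * (D - 1) + 1 ≤ e ∨ ∑ j, (d j - 1) + D ≤ e))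
    (χ : G →* ℂˣ) (hχ : ∀ (g : G) (c : ℂ), (∀ x, ρ g x = c • x) → (χ g : ℂ) = c ^ e) :
    (∀ y : Fin M → ℂ, y ≠ 0 → (∀ p ∈ I, eval y p = 0) →
      ∃ F : MvPolynomial (Fin M) ℂ, (F.IsHomogeneous e ∧
        ∀ (g : G) (x : Fin M → ℂ), eval (ρ g x) F = χ g * eval x F) ∧ eval y F ≠ 0) ∧
    (∀ y z : Fin M → ℂ, y ≠ 0 → z ≠ 0 → (∀ p ∈ I, eval y p = 0) → (∀ p ∈ I, eval z p = 0) →
      (¬ ∃ (g : G) (c : ℂ), z = c • ρ g y) →
      ∃ F : MvPolynomial (Fin M) ℂ, (F.IsHomogeneous e ∧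
        ∀ (g : G) (x : Fin M → ℂ), eval (ρ g x) F = χ g * eval x F) ∧
        eval y F = 0 ∧ eval z F ≠ 0) ∧
    (∀ y u : Fin M → ℂ, y ≠ 0 → (∀ p ∈ I, eval y p = 0) →
      (∀ p ∈ I, ∑ i, eval y (pderiv i p) * u i = 0) → (¬ ∃ c : ℂ, u = c • y) →
      ∃ F : MvPolynomial (Fin M) ℂ, (F.IsHomogeneous e ∧
        ∀ (g : G) (x : Fin M → ℂ), eval (ρ g x) F = χ g * eval x F) ∧
        eval y F = 0 ∧ ∑ i, eval y (pderiv i F) * u i ≠ 0) := by
  classical
  obtain ⟨S, γ, rfl, hρ, hγ, hact⟩ := exists_sit hf hI hst hfree hdiag i0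
  obtain ⟨ψ, hψ⟩ := exists_char γ χ hγ hχ
  have := Fintype.ofFinite (G ⧸ scalars ρ)
  have hsec : ∀ F, Typ S.α ψ e F → (F.IsHomogeneous e ∧
      ∀ (g : G) (x : Fin M → ℂ), eval (ρ g x) F = χ g * eval x F) := by
    intro F hF
    refine ⟨hF.1, fun g x => ?_⟩
    rw [hρ, eval_smul_of_isHomogeneous hF.1, hF.2, hψ]
    ring
  have htop : TopBound S.I (∑ j, (d j - 1)) := by
    rw [hI]
    exact Pool.Agent.TH144.MB.topBound_forms f d hf hd
  refine ⟨fun y hy0 hy => ?_, fun y z hy0 hz0 hy hz hyz => ?_, fun y u hy0 hy hu hne => ?_⟩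
  · obtain ⟨m, hm, hmc, hmy⟩ := S.exists_mono htop hy0 hy ψ (t := e) (by omega)
    have h1 := Pool.Agent.TH144.MB.typ_monomial hmc
    rw [hm] at h1
    exact ⟨_, hsec _ h1, by rw [Pool.Agent.TH144.MB.eval_mono]; exact hmy⟩
  · obtain ⟨F, hF, h1, h2⟩ := sit_points hf hd hI hact he hcase (y := z) (y' := y) hz0 hz hy0 hy
      (by
        intro q h
        obtain ⟨g, rfl⟩ := QuotientGroup.mk_surjective q
        obtain ⟨b, hb⟩ := Submodule.mem_span_singleton.1 h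
        have hb0 : b ≠ 0 := by
          rintro rfl
          rw [zero_smul] at hb
          exact hy0 (funext fun i =>
            (Pool.Agent.TH144.MB.mv_supp S.α _ y i).1 (congrFun hb i).symm)
        refine hyz ⟨g, b⁻¹ * ((γ g)⁻¹ : ℂˣ), ?_⟩
        have h3 : (((γ g)⁻¹ : ℂˣ) : ℂ) * (γ g : ℂ) = 1 := Units.inv_mul _
        have h4 : b⁻¹ * ((γ g)⁻¹ : ℂˣ) * (γ g : ℂ) = b⁻¹ := by rw [mul_assoc, h3, mul_one]
        rw [hρ, ← show b • z = mv S.α (g : G ⧸ scalars ρ) y from hb, smul_smul, smul_smul, h4,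
          inv_mul_cancel₀ hb0, one_smul]) ψ
    exact ⟨F, hsec F hF, h2, h1⟩
  · obtain ⟨F, hF, h1, h2⟩ := sit_tangents hf hd hI hact he hcase hy0 hy hu (by
      intro h
      obtain ⟨b, hb⟩ := Submodule.mem_span_singleton.1 h
      exact hne ⟨b, hb.symm⟩) ψ
    exact ⟨F, hsec F hF, h1, h2⟩

end Pool.Agent.J6H82.CIQ
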