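import Pool.Agent.J6H82.CIQ.GenSep
import Pool.Agent.J6H82.CIQ.Few
import Pool.Agent.J6H82.CIQ.Transfer

/-!
# Very ampleness for diagonal groups, II
-/

set_option autoImplicit false

namespace Pool.Agent.J6H82.CIQ

open Module MvPolynomial Pool.Agent.N212.FQ

open Pool.Agent.TH144.MB (Sit mv Typ chr act TopBound dv)

section
variable {G : Type} [Group G] [Fintype G] {n : ℕ}
variable {S : Sit ℂ G n} {c : ℕ} {f : Fin c → MvPolynomial (Fin n) ℂ} {d : Fin c → ℕ}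

/-- the condition on the minimal infinite coordinate sections -/
def Good4 (S : Sit ℂ G n) (c ρ : ℕ) : Prop :=
  ∀ J : Finset (Fin n), 4 ≤ J.card → J.card ≤ c + 1 → ¬ (Ln S.I J).Finite →
    (∀ a ∈ J, (Ln S.I (J.erase a)).Finite) → Gens (wt S.α) S.I ρ J

theorem good_of (E : Eqs (wt S.α) S.I c f d) (hcase : Good4 S c (∑ j, (d j - 1)))
    (h2 : ∀ v : Fin n → ℂ, v ≠ 0 → (∀ p ∈ S.I, eval v p = 0) → 2 < {i | v i ≠ 0}.ncard) :
    Good (wt S.α) S.I (∑ j, (d j - 1)) := by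
  intro J hJ1 hJ2
  by_cases hJ : 4 ≤ J.card
  · by_cases hJc : J.card ≤ c + 1
    · exact hcase J hJ hJc hJ1 hJ2
    · exact E.gens_full (by omega)
  · exact absurd (finite_small S.hom h2 (by omega)) hJ1

theorem sit_points2 (hf : ∀ j, (f j).IsHomogeneous (d j)) (hd : ∀ j, 0 < d j)
    (hI : S.I = Ideal.span (Set.range f)) (hst : ∀ g, ∀ p ∈ S.I, act S.α g p ∈ S.I)
    {e : ℕ} (he : ∑ j, (d j - 1) + 1 ≤ e)
    (hcase : Good4 S c (∑ j, (d j - 1)))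
    {y y' : Fin n → ℂ} (hy0 : y ≠ 0)
    (hy : ∀ p ∈ S.I, eval y p = 0) (hy'0 : y' ≠ 0) (hy' : ∀ p ∈ S.I, eval y' p = 0)
    (hne : ∀ g, mv S.α g y' ∉ Submodule.span ℂ {y}) (χ : G →* ℂˣ) :
    ∃ F, Typ S.α χ e F ∧ eval y F ≠ 0 ∧ eval y' F = 0 := by
  have E := eqs_of hf hd hI hst
  by_cases h2 : ∃ v : Fin n → ℂ, v ≠ 0 ∧ (∀ p ∈ S.I, eval v p = 0) ∧ {i | v i ≠ 0}.ncard ≤ 2
  · obtain ⟨v, hv0, hv, hv2⟩ := h2
    exact S.points E.top hy0 hy hy'0 hy' hne χ he ((card_le_two S E.top hv0 hv hv2).trans he)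
  · push Not at h2
    exact gen_points E (good_of E hcase h2) hy0 hy hy'0 hy' hne χ he

theorem sit_tangents2 (hf : ∀ j, (f j).IsHomogeneous (d j)) (hd : ∀ j, 0 < d j)
    (hI : S.I = Ideal.span (Set.range f)) (hst : ∀ g, ∀ p ∈ S.I, act S.α g p ∈ S.I)
    {e : ℕ} (he : ∑ j, (d j - 1) + 1 ≤ e)
    (hcase : Good4 S c (∑ j, (d j - 1)))
    {y u : Fin n → ℂ} (hy0 : y ≠ 0)
    (hy : ∀ p ∈ S.I, eval y p = 0) (hu : ∀ p ∈ S.I, dv p y u = 0)
    (hne : u ∉ Submodule.span ℂ {y}) (χ : G →* ℂˣ) :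
    ∃ F, Typ S.α χ e F ∧ eval y F = 0 ∧ dv F y u ≠ 0 := by
  have E := eqs_of hf hd hI hst
  by_cases h2 : ∃ v : Fin n → ℂ, v ≠ 0 ∧ (∀ p ∈ S.I, eval v p = 0) ∧ {i | v i ≠ 0}.ncard ≤ 2
  · obtain ⟨v, hv0, hv, hv2⟩ := h2
    exact S.tangents hst E.top hy0 hy hu hne χ he ((card_le_two S E.top hv0 hv hv2).trans he)
  · push Not at h2
    exact gen_tangents E (good_of E hcase h2) hst hy0 hy hu hne χ he

end

variable {M : ℕ} {G : Type} [Group G] {ρ : Representation ℂ G (Fin M → ℂ)}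

/-- stable ideals -/
theorem act_of_subst {S : Sit ℂ (G ⧸ scalars ρ) M} {γ : G →* ℂˣ}
    (hρ : ∀ (g : G) (v : Fin M → ℂ), ρ g v = (γ g : ℂ) • mv S.α (g : G ⧸ scalars ρ) v)
    {ι : Type} {h : ι → MvPolynomial (Fin M) ℂ} {b : ι → ℕ}
    (hh : ∀ i, (h i).IsHomogeneous (b i)) {Z : Set (Fin M)}
    (hst : ∀ g i, subst (ρ g) (h i) ∈ Ideal.span (Set.range h) ⊔ Ideal.span (X '' Z)) :
    ∀ q, ∀ p ∈ Ideal.span (Set.range h) ⊔ Ideal.span (X '' Z),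
      act S.α q p ∈ Ideal.span (Set.range h) ⊔ Ideal.span (X '' Z) := by
  intro q
  obtain ⟨g, rfl⟩ := QuotientGroup.mk_surjective q
  have hmv : ∀ v : Fin M → ℂ, mv S.α (g : G ⧸ scalars ρ) v =
      (((γ g)⁻¹ : ℂˣ) : ℂ) • ρ g v := by
    intro v
    rw [hρ, smul_smul, Units.inv_mul, one_smul]
  have h1 : ∀ i, act S.α (g : G ⧸ scalars ρ) (h i) =
      C ((((γ g)⁻¹ : ℂˣ) : ℂ) ^ b i) * subst (ρ g) (h i) := by
    intro i
    refine MvPolynomial.funext fun x => ?_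
    rw [Pool.Agent.TH144.MB.eval_act, hmv, eval_smul_of_isHomogeneous (hh i), map_mul, eval_C,
      eval_subst]
  have h2 : Ideal.span (Set.range h) ⊔ Ideal.span (X '' Z) ≤
      (Ideal.span (Set.range h) ⊔ Ideal.span (X '' Z)).comap
        (act S.α (g : G ⧸ scalars ρ)).toRingHom := by
    refine sup_le ?_ ?_
    · rw [Ideal.span_le]
      rintro _ ⟨i, rfl⟩
      show act S.α (g : G ⧸ scalars ρ) (h i) ∈ Ideal.span (Set.range h) ⊔ Ideal.span (X '' Z)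
      rw [h1]
      exact Ideal.mul_mem_left _ _ (hst g i)
    · rw [Ideal.span_le]
      rintro _ ⟨i, hi, rfl⟩
      show act S.α (g : G ⧸ scalars ρ) (X i) ∈ Ideal.span (Set.range h) ⊔ Ideal.span (X '' Z)
      have h3 : act S.α (g : G ⧸ scalars ρ) (X i) =
          C ((S.α i (g : G ⧸ scalars ρ) : ℂˣ) : ℂ) * X i := by
        refine MvPolynomial.funext fun x => ?_
        rw [Pool.Agent.TH144.MB.eval_act, eval_X, map_mul, eval_C, eval_X]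
        rfl
      rw [h3]
      exact Ideal.mul_mem_left _ _ (Ideal.mem_sup_right (Ideal.subset_span ⟨i, hi, rfl⟩))
  exact fun p hp => h2 hp

/-- `|J| - 2` forms of small degrees with a stable ideal which define on the coordinate subspace of
`J` a subset of the zero set of `I` -/
def Curve (ρ : Representation ℂ G (Fin M → ℂ)) (I : Ideal (MvPolynomial (Fin M) ℂ)) (r : ℕ)
    (J : Finset (Fin M)) : Prop :=
  ∃ (s : ℕ) (b : Fin s → ℕ) (h : Fin s → MvPolynomial (Fin M) ℂ), s + 2 = J.card ∧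
    (∀ i, 1 ≤ b i ∧ (h i).IsHomogeneous (b i)) ∧ ∑ i, (b i - 1) ≤ r ∧
    (∀ g i, subst (ρ g) (h i) ∈ Ideal.span (Set.range h) ⊔ Ideal.span (X '' {i | i ∉ J})) ∧
    ∀ v : Fin M → ℂ, (∀ i, eval v (h i) = 0) → (∀ i, i ∉ J → v i = 0) → ∀ p ∈ I, eval v p = 0

theorem gens_of [Finite G] {S : Sit ℂ (G ⧸ scalars ρ) M} {γ : G →* ℂˣ}
    (hρ : ∀ (g : G) (v : Fin M → ℂ), ρ g v = (γ g : ℂ) • mv S.α (g : G ⧸ scalars ρ) v)
    {r : ℕ} {J : Finset (Fin M)} (h : Curve ρ S.I r J) : Gens (wt S.α) S.I r J := by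
  obtain ⟨s, b, h, hs, hb, hsum, hst, hz⟩ := h
  have h1 : {g | g ∈ (List.ofFn fun i => (h i, b i)).map Prod.fst} = Set.range h := by
    ext g
    rw [Set.mem_ofPred_eq, List.map_ofFn, List.mem_ofFn]
    rfl
  refine ⟨List.ofFn fun i => (h i, b i), ?_, ?_, ?_, ?_, ?_⟩
  · intro y hy
    rw [List.mem_ofFn] at hy
    obtain ⟨i, rfl⟩ := hy
    exact ⟨(hb i).2, (hb i).1⟩
  · rw [List.length_ofFn, hs]
  · rw [List.map_ofFn, List.sum_ofFn]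
    exact hsum
  · rw [h1]
    exact WH_of_stable (act_of_subst hρ (fun i => (hb i).2) hst)
  · intro v hv hvJ
    refine hz v (fun i => ?_) hvJ
    exact hv (h i, b i) (by rw [List.mem_ofFn]; exact ⟨i, rfl⟩)

/-- **Very ampleness for diagonal groups.** -/
theorem very_ample2 [Finite G] {c : ℕ} {f : Fin c → MvPolynomial (Fin M) ℂ} {d : Fin c → ℕ}
    (hf : ∀ j, (f j).IsHomogeneous (d j)) (hd : ∀ j, 0 < d j)
    {I : Ideal (MvPolynomial (Fin M) ℂ)} (hI : I = Ideal.span (Set.range f))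
    (hst : ∀ g, ∀ p ∈ I, subst (ρ g) p ∈ I)
    (hfree : ∀ v : Fin M → ℂ, v ≠ 0 → (∀ p ∈ I, eval v p = 0) → ∀ (g : G) (μ : ℂ),
      ρ g v = μ • v → g ∈ scalars ρ)
    (hdiag : ∀ (g : G) (i : Fin M), ∃ a : ℂ, ρ g (Pi.single i 1) = a • Pi.single i 1)
    (i0 : Fin M) {e : ℕ} (he : ∑ j, (d j - 1) + 1 ≤ e)
    (hcase : ∀ J : Finset (Fin M), 4 ≤ J.card → J.card ≤ c + 1 → ¬ (Ln I J).Finite →
      (∀ a ∈ J, (Ln I (J.erase a)).Finite) → Curve ρ I (∑ j, (d j - 1)) J)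
    (χ : G →* ℂˣ) (hχ : ∀ (g : G) (c : ℂ), (∀ x, ρ g x = c • x) → (χ g : ℂ) = c ^ e) :
    (∀ y : Fin M → ℂ, y ≠ 0 → (∀ p ∈ I, eval y p = 0) →
      ∃ F : MvPolynomial (Fin M) ℂ, (F.IsHomogeneous e ∧
        ∀ (g : G) (x : Fin M → ℂ), eval (ρ g x) F = χ g * eval x F) ∧ eval y F ≠ 0) ∧
    (∀ y z : Fin M → ℂ, y ≠ 0 → z ≠ 0 → (∀ p ∈ I, eval y p = 0) → (∀ p ∈ I, eval z p = 0) →
      (¬ ∃ (g : G) (c : ℂ), z = c • ρ g y) →
      ∃ F : MvPolynomial (Fin M) ℂ, (F.IsHomogeneous e ∧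
        ∀ (g : G) (x : Fin M → ℂ), eval (ρ g x) F = χ g * eval x F) ∧
        eval y F = 0 ∧ eval z F ≠ 0) ∧
    (∀ y u : Fin M → ℂ, y ≠ 0 → (∀ p ∈ I, eval y p = 0) →
      (∀ p ∈ I, ∑ i, eval y (pderiv i p) * u i = 0) → (¬ ∃ c : ℂ, u = c • y) →
      ∃ F : MvPolynomial (Fin M) ℂ, (F.IsHomogeneous e ∧
        ∀ (g : G) (x : Fin M → ℂ), eval (ρ g x) F = χ g * eval x F) ∧
        eval y F = 0 ∧ ∑ i, eval y (pderiv i F) * u i ≠ 0) := by
  classical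
  obtain ⟨S, γ, rfl, hρ, hγ, hact⟩ := exists_sit hf hI hst hfree hdiag i0
  obtain ⟨ψ, hψ⟩ := exists_char γ χ hγ hχ
  have := Fintype.ofFinite (G ⧸ scalars ρ)
  have hcase : Good4 S c (∑ j, (d j - 1)) :=
    fun J h0 h1 h2 h3 => gens_of hρ (hcase J h0 h1 h2 h3)
  have hsec : ∀ F, Typ S.α ψ e F → (F.IsHomogeneous e ∧
      ∀ (g : G) (x : Fin M → ℂ), eval (ρ g x) F = χ g * eval x F) := by
    intro F hF
    refine ⟨hF.1, fun g x => ?_⟩
    rw [hρ, eval_smul_of_isHomogeneous hF.1, hF.2, hψ]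
    ring
  have htop : TopBound S.I (∑ j, (d j - 1)) := by
    rw [hI]
    exact Pool.Agent.TH144.MB.topBound_forms f d hf hd
  refine ⟨fun y hy0 hy => ?_, fun y z hy0 hz0 hy hz hyz => ?_, fun y u hy0 hy hu hne => ?_⟩
  · obtain ⟨m, hm, hmc, hmy⟩ := S.exists_mono htop hy0 hy ψ (t := e) (by omega)
    have h1 := Pool.Agent.TH144.MB.typ_monomial hmc
    rw [hm] at h1
    exact ⟨_, hsec _ h1, by rw [Pool.Agent.TH144.MB.eval_mono]; exact hmy⟩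
  · obtain ⟨F, hF, h1, h2⟩ := sit_points2 hf hd hI hact he hcase (y := z) (y' := y) hz0 hz hy0 hy
      (by
        intro q h
        obtain ⟨g, rfl⟩ := QuotientGroup.mk_surjective q
        obtain ⟨b, hb⟩ := Submodule.mem_span_singleton.1 h
        have hb0 : b ≠ 0 := by
          rintro rfl
          rw [zero_smul] at hb
          exact hy0 (funext fun i =>
            (Pool.Agent.TH144.MB.mv_supp S.α _ y i).1 (congrFun hb i).symm)
        refine hyz ⟨g, b⁻¹ * ((γ g)⁻¹ : ℂˣ), ?_⟩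
        have h3 : (((γ g)⁻¹ : ℂˣ) : ℂ) * (γ g : ℂ) = 1 := Units.inv_mul _
        have h4 : b⁻¹ * ((γ g)⁻¹ : ℂˣ) * (γ g : ℂ) = b⁻¹ := by rw [mul_assoc, h3, mul_one]
        rw [hρ, ← show b • z = mv S.α (g : G ⧸ scalars ρ) y from hb, smul_smul, smul_smul, h4,
          inv_mul_cancel₀ hb0, one_smul]) ψ
    exact ⟨F, hsec F hF, h2, h1⟩
  · obtain ⟨F, hF, h1, h2⟩ := sit_tangents2 hf hd hI hact he hcase hy0 hy hu (by
      intro h
      obtain ⟨b, hb⟩ := Submodule.mem_span_singleton.1 h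
      exact hne ⟨b, hb.symm⟩) ψ
    exact ⟨F, hsec F hF, h1, h2⟩

end Pool.Agent.J6H82.CIQ
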