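import Pool.Agent.J6H82.CIQ.Key

/-!
# Common zeros on coordinate subspaces
-/

set_option autoImplicit false

namespace Pool.Agent.J6H82.CIQ

open MvPolynomial Module Pool.Agent.TH144.MB

set_option maxHeartbeats 400000 in
/-- `c` forms have a nonzero common zero on every coordinate subspace of dimension `c + 1` -/
theorem exists_zero {σ : Type} {K : Type} [Field K] [Fintype σ] [IsAlgClosed K] {c : ℕ}
    (f : Fin c → MvPolynomial σ K) (d : Fin c → ℕ) (hf : ∀ j, (f j).IsHomogeneous (d j))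
    (hd : ∀ j, 0 < d j) (J : Finset σ) (hJ : J.card = c + 1) :
    ∃ v : σ → K, v ≠ 0 ∧ (∀ j, eval v (f j) = 0) ∧ ∀ i, i ∉ J → v i = 0 := by
  classical
  by_contra hcon
  have hcon' : ∀ v : σ → K, (∀ j, eval v (f j) = 0) → (∀ i, i ∉ J → v i = 0) → v = 0 := by
    intro v h1 h2
    by_contra h3
    exact hcon ⟨v, h3, h1, h2⟩
  obtain ⟨a, ha⟩ : J.Nonempty := by
    rw [← Finset.card_pos]
    omega
  set zl : List (σ → K) := Jᶜ.toList.map fun i => Pi.single i 1 with hzl
  set fs : List (MvPolynomial σ K × ℕ) := List.ofFn fun j => (f j, d j) with hfs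
  have hfst : fs.map Prod.fst = List.ofFn f := by rw [hfs, List.map_ofFn]; rfl
  have hfs1 : ∀ x ∈ fs, x.1.IsHomogeneous x.2 ∧ 0 < x.2 := by
    intro x hx
    rw [hfs, List.mem_ofFn] at hx
    obtain ⟨j, rfl⟩ := hx
    exact ⟨hf j, hd j⟩
  have hfs2 : ∀ g ∈ fs.map Prod.fst, ∃ d, g.IsHomogeneous d := by
    intro g hg
    rw [List.mem_map] at hg
    obtain ⟨x, hx, rfl⟩ := hg
    exact ⟨_, (hfs1 x hx).1⟩
  have hcard := Finset.card_add_card_compl J
  have hlen : (zl ++ [Pi.single a 1]).length + fs.length = Fintype.card σ := by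
    rw [List.length_append, hzl, List.length_map, Finset.length_toList, hfs, List.length_ofFn]
    simp only [List.length_cons, List.length_nil]
    omega
  have hlin : ∀ i : σ, lin (Pi.single i (1 : K)) = X i := fun i => lin_single' i
  have hzmem : ∀ g : MvPolynomial σ K, g ∈ zl.map lin ↔ ∃ i, i ∉ J ∧ X i = g := by
    intro g
    rw [hzl, List.map_map, List.mem_map]
    constructor
    · rintro ⟨i, hi, rfl⟩
      exact ⟨i, by simpa using hi, (hlin i).symm⟩
    · rintro ⟨i, hi, rfl⟩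
      exact ⟨i, by simpa using hi, hlin i⟩
  have hz0 : ∀ v : σ → K, (∀ x ∈ zl, eval v (lin x) = 0) → ∀ i, i ∉ J → v i = 0 := by
    intro v h1 i hi
    have := h1 (Pi.single i 1) (by
      rw [hzl, List.mem_map]
      exact ⟨i, by simpa using hi, rfl⟩)
    rwa [hlin, eval_X] at this
  have hf0 : ∀ v : σ → K, (∀ x ∈ fs, eval v x.1 = 0) → ∀ j, eval v (f j) = 0 := by
    intro v h j
    exact h (f j, d j) (by rw [hfs, List.mem_ofFn]; exact ⟨j, rfl⟩)
  obtain ⟨hreg, -⟩ := square fs (zl ++ [Pi.single a 1]) hfs1 hlen (by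
    intro v h1 h2
    exact hcon' v (hf0 v h2) (hz0 v fun x hx => h1 x (by simp [hx])))
  have hmap : (zl ++ [Pi.single a 1]).map lin ++ fs.map Prod.fst =
      zl.map lin ++ (X a :: fs.map Prod.fst) := by
    rw [List.map_append, List.map_cons, List.map_nil, hlin, List.append_assoc]
    rfl
  rw [hmap, reg_append] at hreg
  have hZhom : Hom (Pool.Agent.TH144.MB.ext ⊥ (zl.map (lin (K := K)))) :=
    hom_ext _ _ hom_bot fun g hg => ⟨1, hom_lin_map zl g hg⟩
  obtain ⟨-, hnz⟩ := reg_rotate (isHomogeneous_X K a) _ _ hZhom hfs2 hreg.2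
  rw [← ext_append] at hnz
  set B := Pool.Agent.TH144.MB.ext ⊥ (zl.map lin ++ fs.map Prod.fst) with hB
  have hBz : ∀ v : σ → K, (∀ p ∈ B, eval v p = 0) ↔
      (∀ g ∈ zl.map lin ++ fs.map Prod.fst, eval v g = 0) := by
    intro v
    rw [hB, zero_ext]
    simp
  obtain ⟨T, hT⟩ := exists_top (I := B) (by
    intro v h
    have h1 := (hBz v).1 h
    refine hcon' v (hf0 v fun x hx => h1 _ ?_) (hz0 v fun x hx => h1 _ ?_)
    · rw [List.mem_append, List.mem_map, List.mem_map]
      exact Or.inr ⟨x, hx, rfl⟩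
    · rw [List.mem_append, List.mem_map, List.mem_map]
      exact Or.inl ⟨x, hx, rfl⟩)
  have h1 : (X a : MvPolynomial σ K) ^ T * 1 ∈ B := by
    rw [mul_one]
    refine hT T le_rfl _ ?_
    have := (isHomogeneous_X K a).pow T
    rwa [one_mul] at this
  have h2 := hnz.pow T 1 h1
  have h3 := (hBz 0).2 (by
    intro g hg
    rw [List.mem_append] at hg
    rcases hg with hg | hg
    · obtain ⟨i, -, rfl⟩ := (hzmem g).1 hg
      simp
    · rw [hfst, List.mem_ofFn] at hg
      obtain ⟨j, rfl⟩ := hg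
      have h4 := eval_smul' (hf j) 0 (0 : σ → K)
      have h5 := hd j
      simpa [zero_pow h5.ne'] using h4) 1 h2
  rw [map_one] at h3
  exact one_ne_zero h3

end Pool.Agent.J6H82.CIQ
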